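import Pool.Agent.Y217.DiagT

/-!
The locus of maps with automorphisms contains no hypersurface.
-/

open MvPolynomial

namespace Pool.Agent.Y217

open Pool.Agent.Helper819 Pool.Agent.Helper819.Apolar Pool.Agent.Helper819.Dyn

noncomputable section

variable {k : Type} [Field k] {N d : ℕ}

/-- parameter ring -/
abbrev RB (k : Type) [Field k] (N d : ℕ) : Type :=
  MvPolynomial (Ix N d ⊕ (Fin (N + 1) × Fin (N + 1))) k

/-- its field of fractions -/
abbrev LB (k : Type) [Field k] (N d : ℕ) : Type := FractionRing (RB k N d)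

instance ess_LB : Algebra.EssFiniteType k (LB k N d) := by
  have h1 : Algebra.EssFiniteType (RB k N d) (LB k N d) :=
    Algebra.EssFiniteType.of_isLocalization _ (nonZeroDivisors (RB k N d))
  exact Algebra.EssFiniteType.comp k (RB k N d) (LB k N d)

/-- inclusion -/
def pb (k : Type) [Field k] (N d : ℕ) : RB k N d →ₐ[k] LB k N d :=
  IsScalarTower.toAlgHom k (RB k N d) _

theorem pb_inj : Function.Injective (pb k N d) := IsFractionRing.injective (RB k N d) (LB k N d)

theorem pb_eq_zero {x : RB k N d} : pb k N d x = 0 ↔ x = 0 := by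
  rw [← map_zero (pb k N d)]
  exact pb_inj.eq_iff

/-- generic matrix -/
def mB (k : Type) [Field k] (N d : ℕ) : Matrix (Fin (N + 1)) (Fin (N + 1)) (RB k N d) :=
  Matrix.of fun i j => X (Sum.inr (i, j))

/-- generic vector with support in `T` -/
def yT (k : Type) [Field k] (T : Finset (Ix N d)) : Ix N d → RB k N d :=
  fun p => if p ∈ T then X (Sum.inl p) else 0

/-- generic point of the family -/
def xT (k : Type) [Field k] (T : Finset (Ix N d)) : Ix N d → RB k N d :=
  actT (mB k N d) (yT k T)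

theorem eval_xT {T : Finset (Ix N d)} {y : Ix N d → k} (hy : y ∈ suppT k T)
    (B : Matrix (Fin (N + 1)) (Fin (N + 1)) k) (P : SS k N d) :
    eval (Sum.elim y (ent B)) (aeval (xT k T) P) = eval (actT B y) P := by
  rw [aeval_eq_bind₁]
  have h1 : eval (Sum.elim y (ent B)) (bind₁ (xT k T) P) =
      eval (fun i => eval (Sum.elim y (ent B)) (xT k T i)) P :=
    eval_bind' _ _ _
  rw [h1]
  congr 2
  funext p
  unfold xT
  rw [map_actT]
  congr 1
  · ext i j
    simp [mB, ent]
  · funext q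
    unfold yT
    split_ifs with hq
    · rw [eval_X]; rfl
    · rw [map_zero, hy q hq]

theorem det_mB : pb k N d (mB k N d).det ≠ 0 := by
  rw [Ne, pb_eq_zero]
  intro h
  have h1 := congrArg (eval (Sum.elim 0 (ent 1) : Ix N d ⊕ (Fin (N + 1) × Fin (N + 1)) → k)) h
  rw [map_zero, RingHom.map_det] at h1
  have h2 : (eval (Sum.elim 0 (ent 1) : Ix N d ⊕ (Fin (N + 1) × Fin (N + 1)) → k)).mapMatrix
      (mB k N d) = 1 := by
    ext i j
    simp [mB, ent]
  rw [h2, Matrix.det_one] at h1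
  exact one_ne_zero h1

section

variable [IsAlgClosed k] [CharZero k]

/-- points with automorphisms lie in the families -/
theorem exists_family (hd : 2 ≤ d) {c : Ix N d → k} (hc : NZ (tup c)) (hf : ¬ Free c) :
    ∃ (l : Fin (N + 1) → k) (_ : ∀ i, l i ≠ 0) (_ : ∃ i j, l i ≠ l j)
      (B : Matrix (Fin (N + 1)) (Fin (N + 1)) k) (_ : B.det ≠ 0) (y : Ix N d → k),
      actT (Matrix.diagonal l) y = y ∧ actT B y = c := by
  unfold Free at hf
  push Not at hf
  obtain ⟨A, hA, hAc, hns⟩ := hf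
  obtain ⟨g, l, hg, hgl⟩ := exists_diag hd hc A hA hAc
  have hgu : IsUnit g.det := isUnit_iff_ne_zero.mpr hg
  have hl : ∀ i, l i ≠ 0 := by
    have h1 := congrArg Matrix.det hgl
    rw [Matrix.det_mul, Matrix.det_mul, Matrix.det_diagonal] at h1
    have h2 : A.det * g.det ≠ 0 := mul_ne_zero hA hg
    rw [h1] at h2
    intro i
    exact Finset.prod_ne_zero_iff.mp (right_ne_zero_of_mul h2) i (Finset.mem_univ i)
  refine ⟨l, hl, ?_, g⁻¹, ?_, actT g c, ?_, ?_⟩
  · by_contra hcon
    push Not at hcon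
    apply hns (l 0)
    have h1 : Matrix.diagonal l = l 0 • (1 : Matrix (Fin (N + 1)) (Fin (N + 1)) k) := by
      rw [Matrix.smul_one_eq_diagonal]
      congr 1
      funext i
      exact hcon i 0
    calc A = A * g * g⁻¹ := by rw [mul_assoc, Matrix.mul_nonsing_inv _ hgu, mul_one]
      _ = l 0 • 1 := by
        rw [hgl, h1, Matrix.mul_smul, mul_one, Matrix.smul_mul, Matrix.mul_nonsing_inv _ hgu]
  · rw [Matrix.det_nonsing_inv, Ring.inverse_eq_inv']
    exact inv_ne_zero hg
  · rw [actT_actT, ← hgl, ← actT_actT, hAc]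
  · rw [actT_actT, Matrix.mul_nonsing_inv _ hgu, actT_one]

open scoped Classical in
theorem exists_adm (hd : 2 ≤ d) {D : SS k N d} (hDN : ∀ c, eval c D ≠ 0 ↔ NZ (tup c))
    {π g : SS k N d} (hπ : Prime π) (hg : ¬ π ∣ g) (hDg : D ∣ g)
    (hbad : ∀ c, eval c π = 0 → eval c g ≠ 0 → ¬ Free c) :
    ∃ (l : Fin (N + 1) → k) (_ : ∀ i, l i ≠ 0) (_ : ∃ i j, l i ≠ l j),
      ∀ P : SS k N d, aeval (xT k (TD d l)) P = 0 → π ∣ P := by
  by_contra hcon
  push Not at hcon
  let S : Finset (Finset (Ix N d)) := Finset.univ.filter fun T =>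
    ∃ (l : Fin (N + 1) → k) (_ : ∀ i, l i ≠ 0) (_ : ∃ i j, l i ≠ l j), T = TD d l
  have h1 : ∀ T ∈ S, ∃ P : SS k N d, aeval (xT k T) P = 0 ∧ ¬ π ∣ P := by
    intro T hT
    simp only [S, Finset.mem_filter, Finset.mem_univ, true_and] at hT
    obtain ⟨l, hl1, hl2, rfl⟩ := hT
    exact hcon l hl1 hl2
  choose! u hu1 hu2 using h1
  have hU : ¬ π ∣ g * ∏ T ∈ S, u T := by
    intro h
    rcases hπ.dvd_or_dvd h with h | h
    · exact hg h
    · obtain ⟨T, hT, hdvd⟩ := (hπ.dvd_finset_prod_iff u).mp h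
      exact hu2 T hT hdvd
  have hrad : g * ∏ T ∈ S, u T ∈ (Ideal.span {π} : Ideal (SS k N d)).radical := by
    rw [← vanishingIdeal_zeroLocus_eq_radical (K := k), mem_vanishingIdeal_iff]
    intro c hc
    have hcπ : eval c π = 0 := by
      have h3 := (mem_zeroLocus_iff.mp hc) π (Ideal.subset_span rfl)
      rw [← coe_aeval_eq_eval]
      exact h3
    have h4 : aeval c (g * ∏ T ∈ S, u T) = eval c (g * ∏ T ∈ S, u T) := by
      rw [← coe_aeval_eq_eval]
      rfl
    rw [h4, map_mul]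
    by_cases hcg : eval c g = 0
    · rw [hcg, zero_mul]
    · have hDc : eval c D ≠ 0 := by
        obtain ⟨t, ht⟩ := hDg
        rw [ht, map_mul] at hcg
        exact left_ne_zero_of_mul hcg
      obtain ⟨l, hl1, hl2, B, hB, y, hy, hBy⟩ :=
        exists_family hd ((hDN c).mp hDc) (hbad c hcπ hcg)
      have hT : TD d l ∈ S := by
        simp only [S, Finset.mem_filter, Finset.mem_univ, true_and]
        exact ⟨l, hl1, hl2, rfl⟩
      have h5 := eval_xT (suppT_fix.mpr hy) B (u (TD d l))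
      rw [hu1 _ hT, map_zero, hBy] at h5
      rw [map_prod, Finset.prod_eq_zero hT h5.symm, mul_zero]
  obtain ⟨m, hm⟩ := hrad
  rw [Ideal.mem_span_singleton] at hm
  exact hU (hπ.dvd_of_dvd_pow hm)

end

end

end Pool.Agent.Y217
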