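import Pool.Agent.Y217.Bad

/-!
The locus of maps with automorphisms contains no hypersurface.
-/

open MvPolynomial

namespace Pool.Agent.Y217

open Pool.Agent.Helper819 Pool.Agent.Helper819.Apolar Pool.Agent.Helper819.Dyn

noncomputable section

variable {k : Type} [Field k] {N d : ℕ}

theorem desc_zero {σ : Type} {A : Type} [CommRing A] [IsDomain A] [Algebra k A] (x : σ → A)
    {π : MvPolynomial σ k} (hπ : Prime π) (h : ∀ P : MvPolynomial σ k, aeval x P = 0 → π ∣ P)
    (hx : aeval x π ≠ 0) : ∀ (n : ℕ) (P : MvPolynomial σ k), P.totalDegree ≤ n →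
      aeval x P = 0 → P = 0 := by
  have hdeg : 1 ≤ π.totalDegree := by
    by_contra hcon
    have h0 : π.totalDegree = 0 := by omega
    rw [totalDegree_eq_zero_iff_eq_C] at h0
    apply hπ.not_unit
    rw [h0]
    apply IsUnit.map
    rw [isUnit_iff_ne_zero]
    intro h1
    rw [h1, C_0] at h0
    exact hπ.ne_zero h0
  intro n
  induction n with
  | zero =>
    intro P hP h0
    by_contra hne
    obtain ⟨q, rfl⟩ := h P h0
    have hq : q ≠ 0 := right_ne_zero_of_mul hne
    rw [totalDegree_mul_of_isDomain hπ.ne_zero hq] at hP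
    omega
  | succ n ih =>
    intro P hP h0
    by_contra hne
    obtain ⟨q, rfl⟩ := h P h0
    have hq : q ≠ 0 := right_ne_zero_of_mul hne
    rw [totalDegree_mul_of_isDomain hπ.ne_zero hq] at hP
    rw [map_mul] at h0
    exact hq (ih q (by omega) ((mul_eq_zero.mp h0).resolve_left hx))

theorem evl_map {R S : Type} [CommRing R] [CommRing S] (φ : R →+* S) (l : Fin (N + 1) → R)
    (p : Ix N d) : evl (fun i => φ (l i)) p = φ (evl l p) := by
  unfold evl
  rw [map_mul, map_prod]
  congr 1
  · rw [Matrix.adjugate_diagonal, Matrix.adjugate_diagonal]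
    simp only [Matrix.diagonal_apply_eq, map_prod]
  · exact Finset.prod_congr rfl fun i _ => (map_pow _ _ _).symm

/-- tangent vectors of a family over its function field -/
theorem tangent_family [CharZero k] (T : Finset (Ix N d)) (v : Ix N d → LB k N d)
    (hv : ∀ P : SS k N d, aeval (xT k T) P = 0 →
      ∑ p, v p * aeval (fun p => pb k N d (xT k T p)) (pderiv p P) = 0) :
    ∃ w ∈ suppT (LB k N d) T ⊔ LinearMap.range (xiL fun p => pb k N d (yT k T p)),
      actT ((mB k N d).map (pb k N d)) w = v := by
  obtain ⟨φ, h1, h2, h3⟩ := exists_dual_ext (k := k) (L := LB k N d)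
    (fun p => pb k N d (xT k T p)) v (by
    intro P hP
    apply hv
    have e1 : aeval (fun p => pb k N d (xT k T p)) P = pb k N d (aeval (xT k T) P) :=
      (comp_aeval_apply (xT k T) (pb k N d) P).symm
    rwa [e1, pb_eq_zero] at hP)
  let M : Matrix (Fin (N + 1)) (Fin (N + 1)) (LB k N d) := (mB k N d).map (pb k N d)
  have hMu : IsUnit M.det := by
    rw [isUnit_iff_ne_zero]
    have : M.det = pb k N d (mB k N d).det := by
      rw [AlgHom.map_det]
      rfl
    rw [this]
    exact det_mB
  let Z : Matrix (Fin (N + 1)) (Fin (N + 1)) (LB k N d) :=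
    (Matrix.of fun i j => (φ (M i j)).snd) * M⁻¹
  let e : DualNumber (LB k N d) := DualNumber.eps
  have he : e * e = 0 := DualNumber.eps_mul_eps
  let ι := algebraMap (LB k N d) (DualNumber (LB k N d))
  have hφM : M.map φ = oneEps e Z * M.map ι := by
    have e1 : Z * M = Matrix.of fun i j => (φ (M i j)).snd := by
      change (Matrix.of fun i j => (φ (M i j)).snd) * M⁻¹ * M = _
      rw [mul_assoc, Matrix.nonsing_inv_mul _ hMu, mul_one]
    unfold oneEps
    rw [add_mul, one_mul, Matrix.smul_mul, ← Matrix.map_mul, e1]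
    refine Matrix.ext fun i j => ?_
    rw [Matrix.map_apply, Matrix.add_apply, Matrix.smul_apply, Matrix.map_apply, Matrix.map_apply,
      Matrix.of_apply, smul_eq_mul]
    apply TrivSqZeroExt.ext
    · rw [h1, fst_form]
    · rw [snd_form]
  let y : Ix N d → LB k N d := fun p => pb k N d (yT k T p)
  let y' : Ix N d → LB k N d := fun p => (φ (y p)).snd
  have hy' : y' ∈ suppT (LB k N d) T := by
    intro p hp
    change (φ (pb k N d (yT k T p))).snd = 0
    unfold yT
    rw [if_neg hp, map_zero, map_zero]
    rfl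
  have hφy : (fun p => φ (y p)) = fun p => ι (y p) + e * ι (y' p) := by
    funext p
    apply TrivSqZeroExt.ext
    · rw [h1, fst_form]
    · rw [snd_form]
  refine ⟨xi Z y + y', ?_, ?_⟩
  · exact Submodule.add_mem _ (Submodule.mem_sup_right ⟨Z, rfl⟩) (Submodule.mem_sup_left hy')
  · funext p
    have e1 := h3 p
    have e2 : pb k N d (xT k T p) = actT M y p := by
      change (pb k N d).toRingHom (actT (mB k N d) (yT k T) p) = _
      rw [map_actT]
      rfl
    have e3 : φ (actT M y p) = actT (M.map φ) (fun p => φ (y p)) p := map_actT φ M y p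
    have e4 : actT (oneEps e Z) (fun p => ι (y p) + e * ι (y' p)) =
        (fun p => ι (y p)) + e • (fun p => ι (xi Z y p + y' p)) := by
      funext q
      exact actT_eps' e he Z y y' q
    rw [e2, e3, hφM, ← actT_actT, hφy, e4, actT_add, actT_smul] at e1
    simp only [Pi.add_apply, Pi.smul_apply, smul_eq_mul] at e1
    have e5 : ∀ z : Ix N d → LB k N d, actT (M.map ι) (fun p => ι (z p)) p = ι (actT M z p) :=
      fun z => (map_actT ι M z p).symm
    have e6 := e5 (fun p => xi Z y p + y' p)
    rw [e5, e6, snd_form] at e1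
    exact e1

open scoped Classical in
/-- The maps with automorphisms do not fill a hypersurface. -/
theorem exists_free_zero [IsAlgClosed k] [CharZero k] (hN : 2 ≤ N) (hd : 2 ≤ d) {D : SS k N d}
    (hDN : ∀ c, eval c D ≠ 0 ↔ NZ (tup c)) {π g : SS k N d} (hπ : Prime π) (hg : ¬ π ∣ g)
    (hDg : D ∣ g) : ∃ c, eval c π = 0 ∧ eval c g ≠ 0 ∧ Free c := by
  by_contra hcon
  push Not at hcon
  obtain ⟨l, hl1, ⟨i1, i2, hl2⟩, hker⟩ := exists_adm hd hDN hπ hg hDg hcon
  let L := LB k N d
  let T := TD d l
  let x : Ix N d → L := fun p => pb k N d (xT k T p)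
  let lam : (Ix N d → L) →ₗ[L] L :=
    ∑ p, (aeval x (pderiv p π) : L) • (LinearMap.proj p : (Ix N d → L) →ₗ[L] L)
  have hlam : ∀ v, lam v = ∑ p, v p * aeval x (pderiv p π) := by
    intro v
    change (∑ p, (aeval x (pderiv p π) : L) • (LinearMap.proj p : (Ix N d → L) →ₗ[L] L)) v = _
    rw [LinearMap.sum_apply]
    exact Finset.sum_congr rfl fun p _ => by rw [LinearMap.smul_apply, smul_eq_mul, mul_comm]; rfl
  let l' : Fin (N + 1) → L := fun i => algebraMap k L (l i)
  have hTl : TD d l' = T := by
    ext p
    rw [mem_TD, mem_TD]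
    change evl (fun i => algebraMap k L (l i)) p = 1 ↔ _
    rw [evl_map, ← map_one (algebraMap k L)]
    exact (algebraMap k L).injective.eq_iff
  let y : Ix N d → L := fun p => pb k N d (yT k T p)
  have hy : y ∈ suppT L (TD d l') := by
    rw [hTl]
    intro p hp
    change pb k N d (yT k T p) = 0
    unfold yT
    rw [if_neg hp, map_zero]
  have hxP : ∀ P : SS k N d, aeval x P = pb k N d (aeval (xT k T) P) := fun P =>
    (comp_aeval_apply (xT k T) (pb k N d) P).symm
  have hle : LinearMap.ker lam ≤
      (suppT L (TD d l') ⊔ LinearMap.range (xiL y)).map (actL ((mB k N d).map (pb k N d))) := by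
    intro v hv
    rw [LinearMap.mem_ker, hlam] at hv
    obtain ⟨w, hw, hwv⟩ := tangent_family T v (by
      intro P hP
      by_cases hπx : aeval x π = 0
      · obtain ⟨q, rfl⟩ := hker P hP
        have e1 : ∀ p, v p * aeval x (pderiv p (π * q)) =
            (v p * aeval x (pderiv p π)) * aeval x q := by
          intro p
          rw [Derivation.leibniz, smul_eq_mul, smul_eq_mul, map_add, map_mul, map_mul, hπx]
          ring
        change ∑ p, v p * aeval x (pderiv p (π * q)) = 0
        rw [Finset.sum_congr rfl fun p _ => e1 p, ← Finset.sum_mul, hv, zero_mul]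
      · have h0 : aeval (xT k T) π ≠ 0 := by
          intro h
          apply hπx
          rw [hxP, h, map_zero]
        have h1 := desc_zero (xT k T) hπ hker h0 _ P le_rfl hP
        rw [h1]
        simp)
    refine ⟨w, ?_, hwv⟩
    rw [hTl]
    exact hw
  have h1 := Submodule.finrank_mono hle
  have h2 : Module.finrank L ↥((suppT L (TD d l') ⊔ LinearMap.range (xiL y)).map
      (actL ((mB k N d).map (pb k N d)))) ≤
      Module.finrank L ↥(suppT L (TD d l') ⊔ LinearMap.range (xiL y)) :=
    Submodule.finrank_map_le (actL ((mB k N d).map (pb k N d)))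
      (suppT L (TD d l') ⊔ LinearMap.range (xiL y))
  have h3 := dim_bound l' y hy
  have h4 := comb hN hd l' ⟨i1, i2, fun h => hl2 ((algebraMap k L).injective h)⟩ (TD d l')
    (TD_inj l' fun i => by
      change algebraMap k L (l i) ≠ 0
      rw [Ne, map_eq_zero]
      exact hl1 i)
  have h5 := LinearMap.finrank_range_add_finrank_ker lam
  have h6 : Module.finrank L (LinearMap.range lam) ≤ 1 := by
    have := Submodule.finrank_le (LinearMap.range lam)
    rwa [Module.finrank_self] at this
  rw [Module.finrank_fintype_fun_eq_card] at h5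
  have h7 : Module.finrank L (LinearMap.ker lam) ≤ Module.finrank L
      ↥(suppT L (TD d l') ⊔ LinearMap.range (xiL y)) := le_trans h1 h2
  omega

end

end Pool.Agent.Y217
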