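import Pool.Agent.Helper819.Gr.Res4
import Pool.Agent.Helper819.Desc
import Pool.Agent.Helper819.CloseGL

/-!
The resultant as a semi-invariant for conjugation.
-/

open MvPolynomial

namespace Pool.Agent.Y217

open Pool.Agent.Helper819 Pool.Agent.Helper819.Apolar Pool.Agent.Helper819.Dyn

noncomputable section

variable {k : Type} [Field k] {N d : ℕ}

/-- The resultant. -/
theorem exists_resultant [IsAlgClosed k] [CharZero k] (hd : 1 ≤ d) :
    ∃ (D : SS k N d) (w : ℕ), 0 < w ∧ Dyn.IsSemi w D ∧
      ∀ c, eval c D ≠ 0 ↔ NZ (tup c) := by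
  have hinf : Infinite k := inferInstance
  obtain ⟨D, r, h1, h2, h3, _⟩ := Gr.exists_res (k := k) (N := N) hd
  have hs : Dyn.IsSemi (N * r false + r true) D := by
    intro A c
    have e1 : actT A c = (Gr.ZA N d).act (fun s => if s then A else A.adjugate.transpose) c := by
      have e2 : tup (actT A c) =
          tup ((Gr.ZA N d).act (fun s => if s then A else A.adjugate.transpose) c) := by
        rw [tup_actT, Gr.tup_ZA]
        funext i
        unfold act Gr.zact
        refine Finset.sum_congr rfl fun j _ => ?_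
        simp [Gr.subst, Matrix.transpose_apply]
      rw [← cf_tup (actT A c), e2, cf_tup]
    rw [e1, h1]
    congr 1
    unfold Gr.detw
    rw [Fintype.prod_bool]
    simp only [if_true, Bool.false_eq_true, if_false, Matrix.det_transpose, Matrix.det_adjugate,
      Fintype.card_fin, Nat.add_sub_cancel]
    rw [← pow_mul, pow_add, mul_comm]
  refine ⟨D, _, ?_, hs, h3⟩
  rcases Nat.eq_zero_or_pos (N * r false + r true) with h0 | h0
  swap
  · exact h0
  exfalso
  rw [h0] at hs
  have hNd : 0 < N + d := by omega
  -- D is constant along scalars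
  let c0 : Ix N d → k := Gr.pwt k N d
  have hc0 : eval c0 D ≠ 0 := (h3 _).mpr (Gr.NZ_pwt hd)
  have h4 : ∀ r : k, eval (r ^ (N + d) • c0) D = eval c0 D := by
    intro r
    rw [← actT_scalar, hs, pow_zero, one_mul]
  have h5 := h4 0
  rw [zero_pow hNd.ne', zero_smul] at h5
  rw [← h5] at hc0
  have h6 := (h3 0).mp hc0
  have h7 : tup (0 : Ix N d → k) = 0 := by
    funext i
    simp [tup]
  rw [h7] at h6
  have h8 := h6 (fun _ => 1) (by intro i; simp)
  exact one_ne_zero (congrFun h8 0)

end

end Pool.Agent.Y217
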