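import Pool.Agent.Y217.Base

/-!
A combinatorial inequality: fixed loci of automorphisms have codimension at least two modulo
orbits.
-/

open MvPolynomial

namespace Pool.Agent.Y217

open Pool.Agent.Helper819 Pool.Agent.Helper819.Apolar Pool.Agent.Helper819.Dyn

theorem card_Ex_ge (N d : ℕ) (hd : 2 ≤ d) : (N + 1) * (N + 2) ≤ 2 * Fintype.card (Ex N d) := by
  have h1 : Fintype.card (Ex N d) = (N + d).choose N := by
    rw [Fintype.card_coe, Finset.card_finsuppAntidiag_nat_eq_choose, Finset.card_univ,
      Fintype.card_fin]
    rw [show N + 1 + d - 1 = d + N by omega, add_comm N d]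
    exact (Nat.choose_symm_add).symm ▸ rfl
  have h2 : (N + 2).choose N ≤ (N + d).choose N := Nat.choose_le_choose N (by omega)
  have h3 : (N + 2).choose N = (N + 2).choose 2 := by
    rw [add_comm N 2]
    exact (Nat.choose_symm_add).symm
  have h4 := Nat.triangle_succ (N + 1)
  rw [h1]
  have h5 : (N + 2).choose 2 * 2 = (N + 2) * (N + 1) := by
    rw [Nat.choose_two_right]
    have : 2 ∣ (N + 2) * (N + 2 - 1) := by
      rw [show N + 2 - 1 = N + 1 by omega, mul_comm]
      exact (Nat.even_mul_succ_self (N + 1)).two_dvd
    rw [Nat.div_mul_cancel this]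
    rfl
  nlinarith

theorem comb {α : Type} [DecidableEq α] {N d : ℕ} (hN : 2 ≤ N) (hd : 2 ≤ d)
    (l : Fin (N + 1) → α) (hl : ∃ i j, l i ≠ l j) (T : Finset (Ix N d))
    (hT : ∀ i j m, (i, m) ∈ T → (j, m) ∈ T → l i = l j) :
    T.card + (Finset.univ.filter fun p : Fin (N + 1) × Fin (N + 1) => l p.1 ≠ l p.2).card + 2 ≤
      Fintype.card (Ix N d) := by
  classical
  let ν : Fin (N + 1) → ℕ := fun i => (Finset.univ.filter fun j => l j = l i).card
  obtain ⟨i0, _, hi0⟩ := Finset.exists_max_image (Finset.univ : Finset (Fin (N + 1))) ν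
    ⟨0, Finset.mem_univ _⟩
  set M := ν i0 with hM
  set S := Fintype.card (Ex N d) with hS
  have hνpos : ∀ i, 1 ≤ ν i := fun i =>
    Finset.card_pos.mpr ⟨i, by simp⟩
  -- the other elements
  have hsplit : M + (Finset.univ.filter fun j => ¬ l j = l i0).card = N + 1 := by
    have := Finset.card_filter_add_card_filter_not (s := (Finset.univ : Finset (Fin (N + 1))))
      (fun j => l j = l i0)
    rw [Finset.card_univ, Fintype.card_fin] at this
    exact this
  set x := (Finset.univ.filter fun j => ¬ l j = l i0).card with hx
  have hx1 : 1 ≤ x := by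
    obtain ⟨i, j, hij⟩ := hl
    by_cases h : l i = l i0
    · exact Finset.card_pos.mpr ⟨j, by simp; intro h'; exact hij (h.trans h'.symm)⟩
    · exact Finset.card_pos.mpr ⟨i, by simpa using h⟩
  -- bound for T
  have hTb : T.card ≤ S * M := by
    have h1 : T.card = ∑ m : Ex N d, (Finset.univ.filter fun i => (i, m) ∈ T).card := by
      have h2 : T.card = ∑ m : Ex N d, (T.filter fun p => p.2 = m).card :=
        Finset.card_eq_sum_card_fiberwise (fun p _ => Finset.mem_univ p.2)
      rw [h2]
      refine Finset.sum_congr rfl fun m _ => ?_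
      refine Finset.card_bij (fun p _ => p.1) ?_ ?_ ?_
      · rintro ⟨i, m'⟩ hp
        simp only [Finset.mem_filter] at hp
        obtain ⟨hp1, rfl⟩ := hp
        simpa using hp1
      · rintro ⟨i, m'⟩ hp ⟨j, m''⟩ hq h
        simp only [Finset.mem_filter] at hp hq
        obtain ⟨_, rfl⟩ := hp
        obtain ⟨_, rfl⟩ := hq
        exact Prod.ext h rfl
      · intro i hi
        refine ⟨(i, m), ?_, rfl⟩
        simpa using hi
    rw [h1]
    have h3 : ∀ m : Ex N d, (Finset.univ.filter fun i => (i, m) ∈ T).card ≤ M := by
      intro m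
      by_cases hne : ∃ i, (i, m) ∈ T
      · obtain ⟨i, hi⟩ := hne
        refine le_trans (Finset.card_le_card ?_) (hi0 i (Finset.mem_univ i))
        intro j hj
        simp only [Finset.mem_filter, Finset.mem_univ, true_and] at hj ⊢
        exact hT j i m hj hi
      · push Not at hne
        have : (Finset.univ.filter fun i => (i, m) ∈ T) = ∅ := by
          apply Finset.filter_eq_empty_iff.mpr
          intro i _
          exact hne i
        rw [this, Finset.card_empty]
        exact Nat.zero_le _
    calc _ ≤ ∑ _m : Ex N d, M := Finset.sum_le_sum fun m _ => h3 m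
      _ = S * M := by rw [Finset.sum_const, Finset.card_univ, smul_eq_mul]
  -- bound for U
  have hUb : (Finset.univ.filter fun p : Fin (N + 1) × Fin (N + 1) => l p.1 ≠ l p.2).card ≤
      M * x + x * N := by
    have h1 : (Finset.univ.filter fun p : Fin (N + 1) × Fin (N + 1) => l p.1 ≠ l p.2).card =
        ∑ i, (Finset.univ.filter fun j => ¬ l j = l i).card := by
      have h2 := Finset.card_eq_sum_card_fiberwise
        (s := Finset.univ.filter fun p : Fin (N + 1) × Fin (N + 1) => l p.1 ≠ l p.2)
        (t := Finset.univ) (f := fun p => p.1) (fun p _ => Finset.mem_univ p.1)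
      rw [h2]
      refine Finset.sum_congr rfl fun i _ => ?_
      refine Finset.card_bij (fun p _ => p.2) ?_ ?_ ?_
      · rintro ⟨i', j⟩ hp
        simp only [Finset.mem_filter, Finset.mem_univ, true_and] at hp ⊢
        obtain ⟨hp1, rfl⟩ := hp
        exact fun h => hp1 h.symm
      · rintro ⟨i', j⟩ hp ⟨i'', j'⟩ hq h
        simp only [Finset.mem_filter, Finset.mem_univ, true_and] at hp hq
        obtain ⟨_, rfl⟩ := hp
        obtain ⟨_, rfl⟩ := hq
        exact Prod.ext rfl h
      · intro j hj
        simp only [Finset.mem_filter, Finset.mem_univ, true_and] at hj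
        refine ⟨(i, j), ?_, rfl⟩
        simp only [Finset.mem_filter, Finset.mem_univ, true_and, and_true]
        exact fun h => hj h.symm
    have h3 : ∀ i, ν i + (Finset.univ.filter fun j => ¬ l j = l i).card = N + 1 := by
      intro i
      have := Finset.card_filter_add_card_filter_not (s := (Finset.univ : Finset (Fin (N + 1))))
        (fun j => l j = l i)
      rw [Finset.card_univ, Fintype.card_fin] at this
      exact this
    rw [h1, ← Finset.sum_filter_add_sum_filter_not Finset.univ (fun i => l i = l i0)]
    apply add_le_add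
    · have h4 : ∀ i ∈ Finset.univ.filter (fun i => l i = l i0),
          (Finset.univ.filter fun j => ¬ l j = l i).card = x := by
        intro i hi
        simp only [Finset.mem_filter, Finset.mem_univ, true_and] at hi
        rw [hx, hi]
      rw [Finset.sum_congr rfl h4, Finset.sum_const, smul_eq_mul]
    · have h4 : ∀ i ∈ Finset.univ.filter (fun i => ¬ l i = l i0),
          (Finset.univ.filter fun j => ¬ l j = l i).card ≤ N := by
        intro i _
        have := h3 i
        have := hνpos i
        omega
      calc _ ≤ ∑ _i ∈ Finset.univ.filter (fun i => ¬ l i = l i0), N := Finset.sum_le_sum h4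
        _ = x * N := by rw [Finset.sum_const, smul_eq_mul]
  have hS2 := card_Ex_ge N d hd
  have hcard : Fintype.card (Ix N d) = (N + 1) * S := by
    rw [Fintype.card_prod, Fintype.card_fin]
  rw [hcard]
  have h6 : (N + 1) * S = S * M + S * x := by
    rw [← hsplit]; ring
  rw [h6]
  have h7 : M * x + x * N + 2 ≤ S * x := by
    have h8 : N + 1 = M + x := hsplit.symm
    have h9 : (N + 1) * (N + 2) * x ≤ 2 * S * x := Nat.mul_le_mul_right _ hS2
    have h10 : 2 * (M * x + x * N + 2) ≤ (N + 1) * (N + 2) * x := by
      have hMN : M = N + 1 - x := by omega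
      have hxN : x ≤ N + 1 := by omega
      have h11 : M * x + x * x = (N + 1) * x := by rw [← hsplit]; ring
      nlinarith [Nat.mul_le_mul hx1 hx1, Nat.mul_le_mul_right x hN]
    nlinarith
  omega

end Pool.Agent.Y217
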