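import Pool.Agent.Y217.Sing

/-!
The coordinate ring is Noetherian.
-/

open MvPolynomial

namespace Pool.Agent.Y217

open Pool.Agent.Helper819 Pool.Agent.Helper819.Apolar Pool.Agent.Helper819.Dyn

noncomputable section

variable {k : Type} [Field k] [IsAlgClosed k] [CharZero k] {N d : ℕ} {D : SS k N d} {w : ℕ}

theorem rho_dt_pow_mul (a b : ℕ) (p : KA k N) :
    rho (a + b) (dt (N + 1) k ^ a * p) = rho b p := by
  induction a with
  | zero => rw [pow_zero, one_mul, zero_add]
  | succ a ih =>
    rw [pow_succ', mul_assoc, show a + 1 + b = (a + b) + 1 by ring, rho_det_mul, ih]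

/-- the Reynolds operator is linear over semi-invariants -/
theorem sharp_mul {a : ℕ} {P : SS k N d} (hP : Dyn.IsSemi a P) (b : ℕ) (Q : SS k N d) :
    sharp (a + b) (P * Q) = P * sharp b Q := by
  have hinf : Infinite k := inferInstance
  apply MvPolynomial.funext
  intro c
  rw [eval_sharp, map_mul, map_mul, eval_sharp, semi_orb hP c, mul_assoc, rho_smul,
    rho_dt_pow_mul]

theorem sharp_self {a : ℕ} {P : SS k N d} (hP : Dyn.IsSemi a P) : sharp a P = P := by
  have hinf : Infinite k := inferInstance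
  apply MvPolynomial.funext
  intro c
  rw [eval_sharp, semi_orb hP c, rho_smul, rho_dt, mul_one]

theorem sharp_sum (a : ℕ) {ι : Type} (s : Finset ι) (Q : ι → SS k N d) :
    sharp a (∑ i ∈ s, Q i) = ∑ i ∈ s, sharp a (Q i) := by
  have hinf : Infinite k := inferInstance
  apply MvPolynomial.funext
  intro c
  rw [eval_sharp, map_sum, map_sum, rho_sum]
  exact Finset.sum_congr rfl fun i _ => (eval_sharp a c (Q i)).symm

omit [CharZero k] in
theorem Rep.ext (hDN : ∀ c, eval c D ≠ 0 ↔ NZ (tup c)) {h h' : Moduli k N d → k} {m : ℕ}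
    {P : SS k N d} (h1 : Rep D w h m P) (h2 : Rep D w h' m P) : h = h' := by
  funext x
  obtain ⟨F, rfl⟩ := cls_surjective x
  obtain ⟨c, hc, rfl⟩ := exists_mkE F
  have h3 := (h1.2 c hc).trans (h2.2 c hc).symm
  exact mul_right_cancel₀ (pow_ne_zero _ ((hDN c).mpr hc)) h3

/-- If a numerator is a combination of numerators of the `b i`, then the element is a combination
of the `b i`. -/
theorem mem_of_numerator (hNd : 0 < N + d) (hD : Dyn.IsSemi w D)
    (hDN : ∀ c, eval c D ≠ 0 ↔ NZ (tup c)) {ι : Type} [Fintype ι]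
    (b : ι → coordRing k N d) (mb : ι → ℕ) (Pb : ι → SS k N d)
    (hPb : ∀ i, Rep D w (b i).1 (mb i) (Pb i)) {h : coordRing k N d} {m : ℕ} {P : SS k N d}
    (hP : Rep D w h.1 m P) (Q : ι → SS k N d) (hPQ : P = ∑ i, Q i * Pb i) :
    ∃ a : ι → coordRing k N d, h = ∑ i, a i * b i := by
  classical
  let K : ℕ := ∑ i, mb i
  have hK : ∀ i, mb i ≤ K := fun i =>
    Finset.single_le_sum (f := mb) (fun _ _ => Nat.zero_le _) (Finset.mem_univ i)
  let T : ι → SS k N d := fun i => sharp (w * (m + K - mb i)) (Q i * D ^ K)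
  have hT : ∀ i, Dyn.IsSemi (w * (m + K - mb i)) (T i) := fun i => isSemi_sharp _ _
  choose a ha using fun i => exists_of_semi hNd hD hDN (hT i)
  refine ⟨a, ?_⟩
  have h1 : P * D ^ K = ∑ i, T i * Pb i := by
    have h2 := sharp_self (hP.lift hD K).1
    rw [← h2, hPQ, Finset.sum_mul, sharp_sum]
    refine Finset.sum_congr rfl fun i _ => ?_
    have h3 : w * (m + K) = w * mb i + w * (m + K - mb i) := by
      rw [← mul_add]
      congr 1
      have := hK i
      omega
    have h4 : Q i * Pb i * D ^ K = Pb i * (Q i * D ^ K) := by ring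
    rw [h3, h4, sharp_mul (hPb i).1, mul_comm]
  have h2 : Rep D w (∑ i, a i * b i).1 (m + K) (∑ i, T i * Pb i) := by
    have h3 : (∑ i, a i * b i).1 = ∑ i, (a i).1 * (b i).1 := by
      rw [AddSubmonoidClass.coe_finset_sum]
      rfl
    rw [h3]
    apply Rep.sum_same
    intro i _
    have h4 := (ha i).mul (hPb i)
    have h5 : m + K - mb i + mb i = m + K := by
      have := hK i
      omega
    rwa [h5] at h4
  have h3 := hP.lift hD K
  rw [h1] at h3
  exact Subtype.ext (Rep.ext hDN h3 h2)

/-- the ideal of numerators -/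
def up (D : SS k N d) (w : ℕ) (I : Ideal (coordRing k N d)) : Ideal (SS k N d) :=
  Ideal.span {P | ∃ h ∈ I, ∃ m, Rep D w h.1 m P}

theorem mem_of_up (hNd : 0 < N + d) (hD : Dyn.IsSemi w D)
    (hDN : ∀ c, eval c D ≠ 0 ↔ NZ (tup c)) (I : Ideal (coordRing k N d))
    {h : coordRing k N d} {m : ℕ} {P : SS k N d}
    (hP : Rep D w h.1 m P) (hI : P ∈ up D w I) : h ∈ I := by
  obtain ⟨n, Q, g, hQ⟩ := Submodule.mem_span_set'.mp hI
  choose b hb mb hPb using fun i => (g i).2
  obtain ⟨a, ha⟩ := mem_of_numerator hNd hD hDN b mb (fun i => (g i).1) hPb hP Q (by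
    rw [← hQ]
    rfl)
  rw [ha]
  exact Ideal.sum_mem _ fun i _ => Ideal.mul_mem_left _ _ (hb i)

/-- The coordinate ring is Noetherian. -/
theorem noeth_coordRing (hd : 2 ≤ d) : IsNoetherianRing (coordRing k N d) := by
  obtain ⟨D, w, hw, hD, hDN⟩ := exists_resultant (k := k) (N := N) (d := d) (by omega)
  have hDne : D ≠ 0 := by
    rintro rfl
    have := (hDN (Gr.pwt k N d)).mpr (Gr.NZ_pwt (by omega))
    rw [map_zero] at this
    exact this rfl
  have hmono : StrictMono (up D w) := by
    apply Monotone.strictMono_of_injective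
    · intro I J hIJ
      apply Ideal.span_mono
      rintro P ⟨h, hh, m, hP⟩
      exact ⟨h, hIJ hh, m, hP⟩
    · intro I J hIJ
      apply le_antisymm
      · intro h hh
        obtain ⟨m, P, hP⟩ := exists_rep (by omega) hD hDN hDne h
        apply mem_of_up (by omega) hD hDN J hP
        rw [← hIJ]
        exact Ideal.subset_span ⟨h, hh, m, hP⟩
      · intro h hh
        obtain ⟨m, P, hP⟩ := exists_rep (by omega) hD hDN hDne h
        apply mem_of_up (by omega) hD hDN I hP
        rw [hIJ]
        exact Ideal.subset_span ⟨h, hh, m, hP⟩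
  rw [isNoetherianRing_iff, isNoetherian_iff']
  have h1 : WellFoundedGT (Ideal (SS k N d)) := inferInstance
  exact hmono.wellFoundedGT

end

end Pool.Agent.Y217
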