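import Pool.Agent.Helper819.Semi

/-!
Heights of the maximal ideals of points in a polynomial ring.
-/

open MvPolynomial

namespace Pool.Agent.Y217

open Pool.Agent.Helper819 Pool.Agent.Helper819.Apolar Pool.Agent.Helper819.Dyn

noncomputable section

variable {k : Type} [Field k] {σ : Type}

theorem van_pt_eq_ker (c : σ → k) : van {c} = RingHom.ker (eval c) := by
  ext P
  rw [mem_van, RingHom.mem_ker]
  simp

instance van_pt_maximal (c : σ → k) : (van {c} : Ideal (MvPolynomial σ k)).IsMaximal := by
  rw [van_pt_eq_ker]
  apply RingHom.ker_isMaximal_of_surjective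
  intro a
  exact ⟨C a, eval_C a⟩

/-- translation -/
def tr (a : σ → k) : MvPolynomial σ k ≃ₐ[k] MvPolynomial σ k :=
  AlgEquiv.ofAlgHom (aeval fun i => X i + C (a i)) (aeval fun i => X i - C (a i))
    (by
      apply algHom_ext
      intro i
      rw [AlgHom.comp_apply, aeval_X, map_sub, aeval_X, algHom_C, algebraMap_eq,
        add_sub_cancel_right]
      rfl)
    (by
      apply algHom_ext
      intro i
      rw [AlgHom.comp_apply, aeval_X, map_add, aeval_X, algHom_C, algebraMap_eq,
        sub_add_cancel]
      rfl)

theorem eval_tr (a c : σ → k) (P : MvPolynomial σ k) : eval c (tr a P) = eval (c + a) P := by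
  change eval c (aeval (fun i => X i + C (a i)) P) = _
  induction P using MvPolynomial.induction_on with
  | C b => rw [algHom_C, algebraMap_eq, eval_C, eval_C]
  | add p q hp hq => rw [map_add, map_add, map_add, hp, hq]
  | mul_X p i hp => rw [map_mul, map_mul, map_mul, hp, aeval_X, map_add, eval_X, eval_C, eval_X,
      Pi.add_apply]

theorem height_van (c c' : σ → k) : (van {c} : Ideal (MvPolynomial σ k)).height =
    (van {c'} : Ideal (MvPolynomial σ k)).height := by
  have h1 : (van {c} : Ideal (MvPolynomial σ k)) =
      (van {c'} : Ideal (MvPolynomial σ k)).comap (tr (c - c')).toRingEquiv := by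
    ext P
    rw [Ideal.mem_comap, mem_van, mem_van]
    change (∀ z ∈ ({c} : Set (σ → k)), _) ↔ ∀ z ∈ ({c'} : Set (σ → k)), eval z (tr (c - c') P) = 0
    simp only [Set.mem_singleton_iff, forall_eq]
    rw [eval_tr, add_sub_cancel]
  rw [h1, RingEquiv.height_comap]

theorem card_le_height [IsAlgClosed k] [Fintype σ] (c : σ → k) :
    (Fintype.card σ : ℕ∞) ≤ (van {c} : Ideal (MvPolynomial σ k)).height := by
  have h1 : ringKrullDim (MvPolynomial σ k) ≤
      ((van {c} : Ideal (MvPolynomial σ k)).height : WithBot ℕ∞) := by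
    rw [ringKrullDim_le_iff_isMaximal_height_le]
    intro 𝔪 hm
    obtain ⟨y, hy⟩ := isMaximal_iff_eq_vanishingIdeal_singleton.mp hm
    have h2 : 𝔪 = van {y} := by
      ext P
      rw [hy, mem_vanishingIdeal_singleton_iff, mem_van]
      simp
    rw [h2, height_van y c]
  rw [MvPolynomial.ringKrullDim_of_isNoetherianRing, ringKrullDim_eq_zero_of_field, zero_add,
    Nat.card_eq_fintype_card] at h1
  exact_mod_cast h1

end

end Pool.Agent.Y217
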