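import Mathlib

/-!
Regular local rings are domains.
-/

open IsLocalRing

namespace Pool.Agent.Y217

theorem mem_sq_of_coeff {A : Type} [CommRing A] [IsLocalRing A] {n : ℕ} {g a : Fin n → A}
    (hg : ∀ i, g i ∈ maximalIdeal A) (ha : ∀ i, ¬ IsUnit (a i)) :
    ∑ i, a i * g i ∈ maximalIdeal A ^ 2 := by
  rw [pow_two]
  exact Ideal.sum_mem _ fun i _ => Ideal.mul_mem_mul ((mem_maximalIdeal _).mpr (ha i)) (hg i)

theorem exchange {A : Type} [CommRing A] [IsLocalRing A] {n : ℕ} {g : Fin (n + 1) → A}
    (hg : maximalIdeal A = Ideal.span (Set.range g)) {x : A} (hx : x ∈ maximalIdeal A)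
    (hx2 : x ∉ maximalIdeal A ^ 2) :
    ∃ y : Fin n → A, maximalIdeal A = Ideal.span (insert x (Set.range y)) := by
  have hgm : ∀ i, g i ∈ maximalIdeal A := by
    intro i
    rw [hg]
    exact Ideal.subset_span ⟨i, rfl⟩
  have h1 : x ∈ Ideal.span (Set.range g) := by rw [← hg]; exact hx
  rw [Ideal.mem_span_range_iff_exists_fun] at h1
  obtain ⟨a, ha⟩ := h1
  obtain ⟨i, hi⟩ : ∃ i, IsUnit (a i) := by
    by_contra hcon
    push Not at hcon
    apply hx2
    rw [← ha]
    exact mem_sq_of_coeff hgm hcon
  refine ⟨fun j => g (i.succAbove j), ?_⟩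
  apply le_antisymm
  · rw [hg, Ideal.span_le]
    rintro _ ⟨j, rfl⟩
    have hj : ∀ j, g (i.succAbove j) ∈
        Ideal.span (insert x (Set.range fun j => g (i.succAbove j))) := fun j =>
      Ideal.subset_span (Set.mem_insert_of_mem _ ⟨j, rfl⟩)
    by_cases hij : j = i
    · subst hij
      obtain ⟨v, hv⟩ := hi.exists_left_inv
      have h2 : g j = v * (x - ∑ l, a (j.succAbove l) * g (j.succAbove l)) := by
        rw [← ha, Fin.sum_univ_succAbove _ j, add_sub_cancel_right, ← mul_assoc, hv, one_mul]
      change g j ∈ _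
      rw [h2]
      apply Ideal.mul_mem_left
      apply Ideal.sub_mem
      · exact Ideal.subset_span (Set.mem_insert _ _)
      · exact Ideal.sum_mem _ fun l _ => Ideal.mul_mem_left _ _ (hj l)
    · obtain ⟨l, rfl⟩ := Fin.exists_succAbove_eq hij
      exact hj l
  · rw [Ideal.span_le]
    apply Set.insert_subset hx
    rintro _ ⟨j, rfl⟩
    exact hgm _

theorem quot_max {A : Type} [CommRing A] [IsLocalRing A] {x : A} {S : Set A}
    [IsLocalRing (A ⧸ Ideal.span {x})]
    (h : maximalIdeal A = Ideal.span (insert x S)) :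
    maximalIdeal (A ⧸ Ideal.span {x}) = Ideal.span (Ideal.Quotient.mk (Ideal.span {x}) '' S) := by
  have hs : Function.Surjective (Ideal.Quotient.mk (Ideal.span {x})) :=
    Ideal.Quotient.mk_surjective
  have hloc : IsLocalHom (Ideal.Quotient.mk (Ideal.span {x})) :=
    IsLocalHom.of_surjective _ hs
  have h1 : maximalIdeal (A ⧸ Ideal.span {x}) =
      (maximalIdeal A).map (Ideal.Quotient.mk (Ideal.span {x})) := by
    apply le_antisymm
    · intro y hy
      obtain ⟨z, rfl⟩ := hs y
      apply Ideal.mem_map_of_mem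
      rw [mem_maximalIdeal, mem_nonunits_iff] at hy ⊢
      exact fun hz => hy (hz.map _)
    · exact ((local_hom_TFAE (Ideal.Quotient.mk (Ideal.span {x}))).out 0 2).mp hloc
  rw [h1, h, Ideal.map_span, Set.image_insert_eq]
  have h2 : (Ideal.Quotient.mk (Ideal.span {x})) x = 0 :=
    Ideal.Quotient.eq_zero_iff_mem.mpr (Ideal.mem_span_singleton_self x)
  rw [h2, Ideal.span_insert, Ideal.span_singleton_eq_bot.mpr rfl, bot_sup_eq]

theorem map_max {A : Type} [CommRing A] [IsLocalRing A] {x : A}
    [IsLocalRing (A ⧸ Ideal.span {x})] :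
    (maximalIdeal A).map (Ideal.Quotient.mk (Ideal.span {x})) =
      maximalIdeal (A ⧸ Ideal.span {x}) := by
  have hs : Function.Surjective (Ideal.Quotient.mk (Ideal.span {x})) :=
    Ideal.Quotient.mk_surjective
  have hloc : IsLocalHom (Ideal.Quotient.mk (Ideal.span {x})) :=
    IsLocalHom.of_surjective _ hs
  apply le_antisymm
  · exact ((local_hom_TFAE (Ideal.Quotient.mk (Ideal.span {x}))).out 0 2).mp hloc
  · intro y hy
    obtain ⟨z, rfl⟩ := hs y
    apply Ideal.mem_map_of_mem
    rw [mem_maximalIdeal, mem_nonunits_iff] at hy ⊢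
    exact fun hz => hy (hz.map _)

/-- A local Noetherian ring whose maximal ideal is generated by as many elements as the dimension
is a domain. -/
theorem domain_of_regular : ∀ (n : ℕ) (A : Type) [CommRing A] [IsLocalRing A] [IsNoetherianRing A]
    (g : Fin n → A), maximalIdeal A = Ideal.span (Set.range g) →
    (n : ℕ∞) ≤ (maximalIdeal A).height → IsDomain A := by
  intro n
  induction n with
  | zero =>
    intro A _ _ _ g hg _
    have h1 : maximalIdeal A = ⊥ := by
      rw [hg, Set.range_eq_empty, Ideal.span_empty]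
    have h2 : IsField A := isField_iff_maximalIdeal_eq.mpr h1
    exact h2.isDomain
  | succ n ih =>
    intro A _ _ _ g hg hdim
    classical
    have hfin := minimalPrimes.finite_of_isNoetherianRing A
    -- prime avoidance
    obtain ⟨x, hx, hx2, hxm⟩ : ∃ x ∈ maximalIdeal A, x ∉ maximalIdeal A ^ 2 ∧
        ∀ p ∈ minimalPrimes A, x ∉ p := by
      by_contra hcon
      push Not at hcon
      have hsub : ((maximalIdeal A : Ideal A) : Set A) ⊆
          ⋃ i ∈ (↑(insert (maximalIdeal A ^ 2) hfin.toFinset) : Set (Ideal A)), (id i : Ideal A) := by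
        intro x hx
        rw [Set.mem_iUnion₂]
        by_cases hx2 : x ∈ maximalIdeal A ^ 2
        · exact ⟨maximalIdeal A ^ 2, by simp, hx2⟩
        · obtain ⟨p, hp, hxp⟩ := hcon x hx hx2
          exact ⟨p, by simp [hp], hxp⟩
      have hzero : (maximalIdeal A).height ≠ 0 := by
        intro h
        rw [h] at hdim
        have h5 : ((n + 1 : ℕ) : ℕ∞) ≤ ((0 : ℕ) : ℕ∞) := by simpa only [Nat.cast_zero] using hdim
        have h6 : n + 1 ≤ 0 := by exact_mod_cast h5
        omega
      apply hzero
      rw [Ideal.height_eq_zero_iff]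
      rw [Ideal.subset_union_prime (maximalIdeal A ^ 2) (maximalIdeal A ^ 2)] at hsub
      · obtain ⟨p, hp, hle⟩ := hsub
        have hle' : maximalIdeal A ≤ p := hle
        rw [Finset.mem_insert, Set.Finite.mem_toFinset] at hp
        rcases hp with rfl | hp
        · -- maximal ideal is idempotent
          have h1 : maximalIdeal A = ⊥ := by
            apply Submodule.eq_bot_of_le_smul_of_le_jacobson_bot (maximalIdeal A) (maximalIdeal A)
              (IsNoetherian.noetherian _)
            · rw [smul_eq_mul, ← pow_two]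
              exact hle'
            · exact IsLocalRing.maximalIdeal_le_jacobson _
          exact ⟨⟨inferInstance, bot_le⟩, fun q _ _ => by rw [h1]; exact bot_le⟩
        · have hpp : p.IsPrime := hp.1.1
          have h1 : maximalIdeal A = p := le_antisymm hle' (le_maximalIdeal hpp.ne_top)
          rw [h1]
          exact hp
      · intro i hi h1 _
        rw [Finset.mem_insert, Set.Finite.mem_toFinset] at hi
        rcases hi with rfl | hi
        · exact absurd rfl h1
        · exact hi.1.1
    obtain ⟨y, hy⟩ := exchange hg hx hx2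
    have hxne : Ideal.span {x} ≠ ⊤ := by
      intro h
      rw [Ideal.span_singleton_eq_top] at h
      exact (mem_maximalIdeal x).mp hx h
    have hnt : Nontrivial (A ⧸ Ideal.span {x}) := Ideal.Quotient.nontrivial_iff.mpr hxne
    have hloc : IsLocalRing (A ⧸ Ideal.span {x}) :=
      IsLocalRing.of_surjective' (Ideal.Quotient.mk (Ideal.span {x})) Ideal.Quotient.mk_surjective
    have hq := quot_max hy
    rw [← Set.range_comp] at hq
    have hd1 : (n : ℕ∞) ≤ (maximalIdeal (A ⧸ Ideal.span {x})).height := by
      have h1 := Ideal.height_le_height_add_encard_of_subset ({x} : Set A) (p := maximalIdeal A)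
        (Set.singleton_subset_iff.mpr hx)
      rw [Set.encard_singleton, map_max] at h1
      have h2 := hdim.trans h1
      have h3 : ((n + 1 : ℕ) : ℕ∞) = (n : ℕ∞) + 1 := by push_cast; rfl
      rw [h3] at h2
      exact (ENat.add_le_add_iff_right (by simp)).mp h2
    have hdom := ih (A ⧸ Ideal.span {x}) _ hq hd1
    have hprime : (Ideal.span {x}).IsPrime := (Ideal.Quotient.isDomain_iff_prime _).mp hdom
    obtain ⟨p, hp, hpx⟩ := Ideal.exists_minimalPrimes_le (bot_le : (⊥ : Ideal A) ≤ Ideal.span {x})
    have hpp : p.IsPrime := hp.1.1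
    have hxp : x ∉ p := hxm p hp
    have hle : p ≤ maximalIdeal A • p := by
      intro z hz
      obtain ⟨t, rfl⟩ := Ideal.mem_span_singleton.mp (hpx hz)
      have ht : t ∈ p := (hpp.mem_or_mem hz).resolve_left hxp
      exact Submodule.smul_mem_smul hx ht
    have hbot : p = ⊥ := Submodule.eq_bot_of_le_smul_of_le_jacobson_bot (maximalIdeal A) p
      (IsNoetherian.noetherian _) hle (IsLocalRing.maximalIdeal_le_jacobson _)
    rw [hbot] at hpp
    have hnz : NoZeroDivisors A := ⟨fun {a b} hab => by
      have := hpp.mem_or_mem (show a * b ∈ (⊥ : Ideal A) from (Submodule.mem_bot A).mpr hab)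
      simpa only [Submodule.mem_bot] using this⟩
    exact NoZeroDivisors.to_isDomain A

end Pool.Agent.Y217
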