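import Pool.Agent.Y217.Trans
import Pool.Agent.Y217.Noeth
import Pool.Agent.Y217.PtH
import Pool.Agent.Y217.RegDom

/-!
Semi-invariants with independent differentials at a map without automorphisms.
-/

open MvPolynomial

namespace Pool.Agent.Y217

open Pool.Agent.Helper819 Pool.Agent.Helper819.Apolar Pool.Agent.Helper819.Dyn

noncomputable section

variable {k : Type} [Field k] [IsAlgClosed k] [CharZero k] {N d : ℕ} {D : SS k N d} {w : ℕ}

/-- gradient -/
def grd {σ : Type} (P : MvPolynomial σ k) (c : σ → k) : σ → k := fun p => eval c (pderiv p P)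

theorem exists_indep (hd : 2 ≤ d) (hw : 0 < w) (hD : Dyn.IsSemi w D)
    (hDN : ∀ c, eval c D ≠ 0 ↔ NZ (tup c)) {f : Ix N d → k} (hf : NZ (tup f)) (hst : Free f) :
    ∃ (e : ℕ) (m : Fin e → ℕ) (P : Fin e → SS k N d),
      e + (N + 1) * (N + 1) = Fintype.card (Ix N d) ∧ (∀ j, Dyn.IsSemi (w * m j) (P j)) ∧
      (∀ j, eval f (P j) = 0) ∧ LinearIndependent k (fun j => grd (P j) f) := by
  classical
  let T : Set (Ix N d → k) := {g | ∃ (m : ℕ) (P : SS k N d), Dyn.IsSemi (w * m) P ∧
    eval f P = 0 ∧ g = grd P f}
  obtain ⟨b, hbT, hbs, hbl⟩ := exists_linearIndependent k T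
  have hbf : Fintype b := hbl.setFinite.fintype
  let Φ : (Ix N d → k) →ₗ[k] (b → k) :=
    { toFun := fun v g => ∑ p, v p * g.1 p
      map_add' := by
        intro u v
        funext g
        simp only [Pi.add_apply, add_mul, Finset.sum_add_distrib]
      map_smul' := by
        intro r u
        funext g
        simp only [Pi.smul_apply, smul_eq_mul, RingHom.id_apply, Finset.mul_sum, mul_assoc] }
  have hker : LinearMap.ker Φ ≤ LinearMap.range (xiL f) := by
    intro v hv
    by_contra hcon
    obtain ⟨m, P, hP, hP0, hne⟩ := exists_semi_diff hd hw hD hDN hf hst v (fun Z hZ => hcon ⟨Z, hZ⟩)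
    apply hne
    have h1 : grd P f ∈ Submodule.span k b := by
      rw [hbs]
      exact Submodule.subset_span ⟨m, P, hP, hP0, rfl⟩
    let ℓ : (Ix N d → k) →ₗ[k] k :=
      { toFun := fun g => ∑ p, v p * g p
        map_add' := by
          intro x y
          simp only [Pi.add_apply, mul_add, Finset.sum_add_distrib]
        map_smul' := by
          intro r x
          simp only [Pi.smul_apply, smul_eq_mul, RingHom.id_apply, Finset.mul_sum]
          exact Finset.sum_congr rfl fun p _ => by ring }
    have h2 : Submodule.span k b ≤ LinearMap.ker ℓ := by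
      rw [Submodule.span_le]
      intro g hg
      exact congrFun hv ⟨g, hg⟩
    exact h2 h1
  have hinj : Function.Injective (xiL f) := by
    rw [← LinearMap.ker_eq_bot, LinearMap.ker_eq_bot']
    intro Z hZ
    exact xi_inj hd hf hZ
  have hrk : Module.finrank k (LinearMap.range (xiL f)) = (N + 1) * (N + 1) := by
    rw [LinearMap.finrank_range_of_inj hinj, Module.finrank_matrix]
    simp
  have h1 := Submodule.finrank_mono hker
  have h2 := LinearMap.finrank_range_add_finrank_ker Φ
  have h3 := Submodule.finrank_le (LinearMap.range Φ)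
  have h4 := Submodule.finrank_le (LinearMap.range (xiL f))
  rw [Module.finrank_fintype_fun_eq_card] at h2 h3 h4
  rw [hrk] at h1 h4
  let e := Fintype.card (Ix N d) - (N + 1) * (N + 1)
  have he : e + (N + 1) * (N + 1) = Fintype.card (Ix N d) := by
    change Fintype.card (Ix N d) - (N + 1) * (N + 1) + (N + 1) * (N + 1) = _
    omega
  have hle : Fintype.card (Fin e) ≤ Fintype.card b := by
    rw [Fintype.card_fin]
    omega
  obtain ⟨ι⟩ := Function.Embedding.nonempty_of_card_le hle
  choose m P hP hP0 hPg using fun j : Fin e => hbT (ι j).2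
  refine ⟨e, m, P, he, hP, hP0, ?_⟩
  have h5 := hbl.comp ι ι.injective
  have h6 : (Subtype.val ∘ ⇑ι : Fin e → (Ix N d → k)) = fun j => grd (P j) f := funext hPg
  rw [h6] at h5
  exact h5

/-- Completion to a coordinate system. -/
theorem exists_coord {σ : Type} [Fintype σ] {e r : ℕ} (f : σ → k)
    (P : Fin e → MvPolynomial σ k) (hcard : e + r = Fintype.card σ)
    (hP0 : ∀ j, eval f (P j) = 0) (hli : LinearIndependent k (fun j => grd (P j) f)) :
    ∃ y : Fin r → MvPolynomial σ k, (∀ l, eval f (y l) = 0) ∧
      (van {f} : Ideal (MvPolynomial σ k)) ≤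
        (Ideal.span (Set.range P) ⊔ Ideal.span (Set.range y)) ⊔ van {f} * van {f} := by
  classical
  let U : Submodule k (σ → k) := Submodule.span k (Set.range fun j => grd (P j) f)
  obtain ⟨Cc, hC⟩ := Submodule.exists_isCompl U
  have hfin : Module.finrank k Cc = r := by
    have h1 := Submodule.finrank_add_eq_of_isCompl hC
    have h2 : Module.finrank k U = e := by
      rw [finrank_span_eq_card hli, Fintype.card_fin]
    rw [h2, Module.finrank_fintype_fun_eq_card] at h1
    omega
  let bb := (Module.finBasis k Cc).reindex (finCongr hfin)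
  let y : Fin r → MvPolynomial σ k := fun l =>
    ∑ p, C ((bb l : σ → k) p) * (X p - C (f p))
  have hX : ∀ p, X p - C (f p) ∈ (van {f} : Ideal (MvPolynomial σ k)) := by
    intro p
    rw [mem_van]
    intro z hz
    rw [Set.mem_singleton_iff.mp hz, map_sub, eval_X, eval_C, sub_self]
  let J : Ideal (MvPolynomial σ k) :=
    (Ideal.span (Set.range P) ⊔ Ideal.span (Set.range y)) ⊔ van {f} * van {f}
  -- linear forms
  let L : (σ → k) →ₗ[k] MvPolynomial σ k :=
    { toFun := fun v => ∑ p, C (v p) * (X p - C (f p))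
      map_add' := by
        intro u v
        simp only [Pi.add_apply, C_add, add_mul, Finset.sum_add_distrib]
      map_smul' := by
        intro a u
        simp only [Pi.smul_apply, smul_eq_mul, C_mul, RingHom.id_apply, Finset.smul_sum,
          smul_eq_C_mul, mul_assoc] }
  have hLP : ∀ j, L (grd (P j) f) ∈ J := by
    intro j
    have h1 := taylor_one f (van {f}) hX (P j)
    rw [hP0, C_0, sub_zero] at h1
    have h2 : P j ∈ J := Ideal.mem_sup_left (Ideal.mem_sup_left (Ideal.subset_span ⟨j, rfl⟩))
    have h3 := Ideal.sub_mem _ h2 (Ideal.mem_sup_right h1 : _ ∈ J)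
    rwa [sub_sub_cancel] at h3
  have hLy : ∀ l, L (bb l : σ → k) ∈ J := fun l =>
    Ideal.mem_sup_left (Ideal.mem_sup_right (Ideal.subset_span ⟨l, rfl⟩))
  have hL : ∀ v, L v ∈ J := by
    intro v
    have h1 : v ∈ U ⊔ Cc := by rw [hC.sup_eq_top]; trivial
    obtain ⟨a, ha, b, hb, hab⟩ := Submodule.mem_sup.mp h1
    rw [← hab, map_add]
    apply Ideal.add_mem
    · have h2 : U ≤ (J.restrictScalars k).comap L := by
        change Submodule.span k _ ≤ _
        rw [Submodule.span_le]
        rintro _ ⟨j, rfl⟩
        exact hLP j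
      exact h2 ha
    · have h2 := congrArg Subtype.val (bb.sum_repr ⟨b, hb⟩)
      rw [Submodule.coe_sum] at h2
      have h3 : ∑ i, (bb.repr ⟨b, hb⟩) i • (bb i : σ → k) = b := h2
      rw [← h3, map_sum]
      apply Ideal.sum_mem
      intro l _
      rw [map_smul, smul_eq_C_mul]
      exact Ideal.mul_mem_left _ _ (hLy l)
  refine ⟨y, fun l => ?_, fun p hp => ?_⟩
  · change eval f (∑ p, C ((bb l : σ → k) p) * (X p - C (f p))) = 0
    rw [map_sum]
    apply Finset.sum_eq_zero
    intro p _
    rw [map_mul, map_sub, eval_X, eval_C, eval_C, sub_self, mul_zero]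
  · have h1 := taylor_one f (van {f}) hX p
    have h0 : eval f p = 0 := hp f rfl
    rw [h0, C_0, sub_zero] at h1
    have h2 := hL (grd p f)
    have h3 := Ideal.add_mem J (Ideal.mem_sup_right h1) h2
    have h4 : p - ∑ i, C (eval f (pderiv i p)) * (X i - C (f i)) + L (grd p f) = p := by
      change p - _ + ∑ p_1, C (grd p f p_1) * (X p_1 - C (f p_1)) = p
      unfold grd
      rw [sub_add_cancel]
    rwa [h4] at h3

end

end Pool.Agent.Y217
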