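import Pool.Agent.Y217.RegDom

/-!
Dimension arguments in local rings.
-/

open IsLocalRing

namespace Pool.Agent.Y217

theorem loc_quot {A : Type} [CommRing A] [IsLocalRing A] {I : Ideal A} (hI : I ≤ maximalIdeal A) :
    IsLocalRing (A ⧸ I) := by
  have hne : I ≠ ⊤ := fun h => (maximalIdeal.isMaximal A).ne_top (top_le_iff.mp (h ▸ hI))
  have hnt : Nontrivial (A ⧸ I) := Ideal.Quotient.nontrivial_iff.mpr hne
  exact IsLocalRing.of_surjective' (Ideal.Quotient.mk I) Ideal.Quotient.mk_surjective

theorem map_max' {A : Type} [CommRing A] [IsLocalRing A] {I : Ideal A} [IsLocalRing (A ⧸ I)] :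
    (maximalIdeal A).map (Ideal.Quotient.mk I) = maximalIdeal (A ⧸ I) := by
  have hs : Function.Surjective (Ideal.Quotient.mk I) := Ideal.Quotient.mk_surjective
  have hloc : IsLocalHom (Ideal.Quotient.mk I) := IsLocalHom.of_surjective _ hs
  apply le_antisymm
  · exact ((local_hom_TFAE (Ideal.Quotient.mk I)).out 0 2).mp hloc
  · intro y hy
    obtain ⟨z, rfl⟩ := hs y
    apply Ideal.mem_map_of_mem
    rw [mem_maximalIdeal, mem_nonunits_iff] at hy ⊢
    exact fun hz => hy (hz.map _)

theorem encard_range_le {α : Type} {n : ℕ} (g : Fin n → α) : (Set.range g).encard ≤ n := by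
  rw [← Set.image_univ]
  refine (Set.encard_image_le g Set.univ).trans ?_
  rw [Set.encard_univ, ENat.card_eq_coe_fintype_card, Fintype.card_fin]

theorem height_le_of_map {C T : Type} [CommRing C] [CommRing T] [IsLocalRing C]
    [IsNoetherianRing C] [IsLocalRing T] [IsNoetherianRing T] (φ : C →+* T) [IsLocalHom φ]
    (hφ : maximalIdeal T ≤ (maximalIdeal C).map φ) :
    (maximalIdeal T).height ≤ (maximalIdeal C).height := by
  have hl : IsLocalHom φ := inferInstance
  letI : Algebra C T := φ.toAlgebra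
  have hover : (maximalIdeal T).LiesOver (maximalIdeal C) := by
    constructor
    have hc : (maximalIdeal T).comap φ = maximalIdeal C := ((local_hom_TFAE φ).out 0 4).mp hl
    exact hc.symm
  have h1 := Ideal.height_le_height_add_of_liesOver (maximalIdeal C) (maximalIdeal T)
  have h2 : ((maximalIdeal T).map
      (Ideal.Quotient.mk ((maximalIdeal C).map (algebraMap C T)))) = ⊥ := by
    rw [Ideal.map_eq_bot_iff_le_ker, Ideal.mk_ker]
    exact hφ
  have hnt : Nontrivial (T ⧸ (maximalIdeal C).map (algebraMap C T)) := by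
    rw [Ideal.Quotient.nontrivial_iff]
    have h3 : (maximalIdeal C).map φ ≤ maximalIdeal T :=
      ((local_hom_TFAE φ).out 0 2).mp hl
    exact fun h => (maximalIdeal.isMaximal T).ne_top (top_le_iff.mp (h ▸ h3))
  rwa [h2, Ideal.height_bot, add_zero] at h1

/-- The key dimension argument. -/
theorem mem_of_dim {A T : Type} [CommRing A] [CommRing T] [IsLocalRing A] [IsNoetherianRing A]
    [IsLocalRing T] [IsNoetherianRing T] {e r : ℕ} (P : Fin e → A) (y : Fin r → A)
    (hgen : maximalIdeal A = Ideal.span (Set.range P) ⊔ Ideal.span (Set.range y))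
    (hA : ((r + e : ℕ) : ℕ∞) ≤ (maximalIdeal A).height) (φ : A →+* T) [IsLocalHom φ]
    (hφ : maximalIdeal T ≤ (maximalIdeal A).map φ) (hT : (r : ℕ∞) ≤ (maximalIdeal T).height)
    (hP : ∀ j, φ (P j) = 0) {q : A} (hq : φ q = 0) : q ∈ Ideal.span (Set.range P) := by
  have hPm : Ideal.span (Set.range P) ≤ maximalIdeal A := by
    rw [hgen]
    exact le_sup_left
  obtain ⟨I, hI⟩ : ∃ I, I = Ideal.span (Set.range P) := ⟨_, rfl⟩
  rw [← hI] at hPm hgen ⊢
  have hlocB : IsLocalRing (A ⧸ I) := loc_quot hPm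
  have hB : maximalIdeal (A ⧸ I) = Ideal.span (Set.range fun l => Ideal.Quotient.mk I (y l)) := by
    rw [← map_max', hgen, Ideal.map_sup, Ideal.map_quotient_self, bot_sup_eq, Ideal.map_span,
      ← Set.range_comp]
    rfl
  have hdB : (r : ℕ∞) ≤ (maximalIdeal (A ⧸ I)).height := by
    subst hI
    have h1 := Ideal.height_le_height_add_encard_of_subset (Set.range P) (p := maximalIdeal A)
      (by
        rw [← Ideal.span_le]
        exact hPm)
    rw [map_max'] at h1
    have h2 := hA.trans h1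
    have h3 : (Set.range P).encard ≤ e := encard_range_le P
    have h4 := h2.trans (add_le_add_right h3 _)
    rw [Nat.cast_add] at h4
    exact (ENat.add_le_add_iff_right (by simp)).mp h4
  have hdom : IsDomain (A ⧸ I) := domain_of_regular r _ _ hB hdB
  have hker : ∀ a ∈ I, φ a = 0 := by
    intro a ha
    have h1 : I ≤ RingHom.ker φ := by
      rw [hI, Ideal.span_le]
      rintro _ ⟨j, rfl⟩
      exact hP j
    exact h1 ha
  by_contra hne
  let b : A ⧸ I := Ideal.Quotient.mk I q
  have hb : b ≠ 0 := fun h => hne (Ideal.Quotient.eq_zero_iff_mem.mp h)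
  let φ1 : A ⧸ I →+* T := Ideal.Quotient.lift I φ hker
  have hφ1 : ∀ a, φ1 (Ideal.Quotient.mk I a) = φ a := fun a => Ideal.Quotient.lift_mk I φ hker
  have hloc1 : IsLocalHom φ1 := by
    constructor
    intro a ha
    obtain ⟨z, rfl⟩ := Ideal.Quotient.mk_surjective a
    rw [hφ1] at ha
    exact (isUnit_of_map_unit φ z ha).map _
  have hbm : b ∈ maximalIdeal (A ⧸ I) := by
    rw [mem_maximalIdeal, mem_nonunits_iff]
    intro hu
    have h1 : IsUnit (φ1 b) := hu.map φ1
    rw [hφ1, hq] at h1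
    exact not_isUnit_zero h1
  have hbI : Ideal.span {b} ≤ maximalIdeal (A ⧸ I) := by
    rw [Ideal.span_singleton_le_iff_mem]
    exact hbm
  have hlocC : IsLocalRing ((A ⧸ I) ⧸ Ideal.span {b}) := loc_quot hbI
  have hker2 : ∀ a ∈ Ideal.span {b}, φ1 a = 0 := by
    intro a ha
    obtain ⟨t, rfl⟩ := Ideal.mem_span_singleton.mp ha
    rw [map_mul, hφ1, hq, zero_mul]
  let φ2 : (A ⧸ I) ⧸ Ideal.span {b} →+* T := Ideal.Quotient.lift (Ideal.span {b}) φ1 hker2
  have hφ2 : ∀ a, φ2 (Ideal.Quotient.mk _ a) = φ1 a := fun a =>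
    Ideal.Quotient.lift_mk (Ideal.span {b}) φ1 hker2
  have hloc2 : IsLocalHom φ2 := by
    constructor
    intro a ha
    obtain ⟨z, rfl⟩ := Ideal.Quotient.mk_surjective a
    rw [hφ2] at ha
    exact (isUnit_of_map_unit φ1 z ha).map _
  have hm2 : maximalIdeal T ≤ (maximalIdeal ((A ⧸ I) ⧸ Ideal.span {b})).map φ2 := by
    refine hφ.trans ?_
    rw [Ideal.map_le_iff_le_comap]
    intro a ha
    rw [Ideal.mem_comap]
    have h1 : φ a = φ2 (Ideal.Quotient.mk _ (Ideal.Quotient.mk I a)) := by rw [hφ2, hφ1]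
    rw [h1]
    apply Ideal.mem_map_of_mem
    rw [← map_max']
    apply Ideal.mem_map_of_mem
    rw [← map_max']
    exact Ideal.mem_map_of_mem _ ha
  have h1 := hT.trans (height_le_of_map φ2 hm2)
  have h2 := ringKrullDim_quotient_succ_le_of_nonZeroDivisor
    (mem_nonZeroDivisors_of_ne_zero hb)
  rw [← IsLocalRing.maximalIdeal_height_eq_ringKrullDim,
    ← IsLocalRing.maximalIdeal_height_eq_ringKrullDim] at h2
  have h3 : (maximalIdeal (A ⧸ I)).height ≤ r := by
    have h4 := Ideal.height_le_spanFinrank (maximalIdeal (A ⧸ I)) Ideal.IsPrime.ne_top'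
    have h5 : (maximalIdeal (A ⧸ I)).spanFinrank ≤ r := by
      rw [hB]
      have h6 := Submodule.spanFinrank_span_le_ncard_of_finite (R := A ⧸ I)
        (Set.finite_range fun l => Ideal.Quotient.mk I (y l))
      refine h6.trans ?_
      rw [Set.ncard]
      exact ENat.toNat_le_of_le_coe (encard_range_le fun l => Ideal.Quotient.mk I (y l))
    exact h4.trans (by exact_mod_cast h5)
  have h4 : (r : ℕ∞) + 1 ≤ r := by
    have h5 : (maximalIdeal ((A ⧸ I) ⧸ Ideal.span {b})).height + 1 ≤
        (maximalIdeal (A ⧸ I)).height := by exact_mod_cast h2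
    exact (add_le_add_left h1 1).trans (h5.trans h3)
  have h5 : r + 1 ≤ r := by exact_mod_cast h4
  omega

end Pool.Agent.Y217
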