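import Pool.Agent.Y217.Conv1
import Pool.Agent.Y217.Conv2

/-!
Near a map without automorphisms the vanishing ideal of the orbit is generated by semi-invariants.
-/

open MvPolynomial IsLocalRing

namespace Pool.Agent.Y217

open Pool.Agent.Helper819 Pool.Agent.Helper819.Apolar Pool.Agent.Helper819.Dyn

noncomputable section

variable {k : Type} [Field k]

instance van_pt_prime {σ : Type} (c : σ → k) : (van {c} : Ideal (MvPolynomial σ k)).IsPrime :=
  (van_pt_maximal c).isPrime

/-- the local ring of affine space at a point -/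
abbrev LA {σ : Type} (c : σ → k) : Type :=
  Localization.AtPrime (van {c} : Ideal (MvPolynomial σ k))

/-- to the local ring -/
def toLA {σ : Type} (c : σ → k) : MvPolynomial σ k →+* LA c := algebraMap _ _

theorem toLA_max {σ : Type} (c : σ → k) :
    (van {c} : Ideal (MvPolynomial σ k)).map (toLA c) = maximalIdeal (LA c) :=
  Localization.AtPrime.map_eq_maximalIdeal

theorem height_LA {σ : Type} (c : σ → k) :
    (maximalIdeal (LA c)).height = (van {c} : Ideal (MvPolynomial σ k)).height := by
  have h1 := IsLocalization.AtPrime.ringKrullDim_eq_height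
    (van {c} : Ideal (MvPolynomial σ k)) (LA c)
  rw [← IsLocalRing.maximalIdeal_height_eq_ringKrullDim] at h1
  exact WithBot.coe_injective h1

instance noeth_LA {σ : Type} [Finite σ] (c : σ → k) : IsNoetherianRing (LA c) :=
  IsLocalization.isNoetherianRing (van {c} : Ideal (MvPolynomial σ k)).primeCompl _ inferInstance

/-- generators of the maximal ideal -/
theorem gen_LA {σ : Type} [Finite σ] (c : σ → k) (J : Ideal (MvPolynomial σ k)) (hJ : J ≤ van {c})
    (h : (van {c} : Ideal (MvPolynomial σ k)) ≤ J ⊔ van {c} * van {c}) :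
    maximalIdeal (LA c) = J.map (toLA c) := by
  apply le_antisymm
  · apply Submodule.le_of_le_smul_of_le_jacobson_bot (I := maximalIdeal (LA c))
      (IsNoetherian.noetherian _) (IsLocalRing.maximalIdeal_le_jacobson _)
    rw [smul_eq_mul, ← toLA_max, ← Ideal.map_mul, ← Ideal.map_sup]
    exact Ideal.map_mono h
  · rw [← toLA_max]
    exact Ideal.map_mono hJ

variable [IsAlgClosed k] [CharZero k] {N d : ℕ}

/-- Near a free point, functions vanishing on the orbit are generated by semi-invariants with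
independent differentials. -/
theorem local_claim (hd : 2 ≤ d) {f : Ix N d → k} (hf : NZ (tup f)) {e : ℕ}
    (P : Fin e → SS k N d) (hcard : e + (N + 1) * (N + 1) = Fintype.card (Ix N d))
    (hP : ∀ j, P j ∈ van (GO f)) (hli : LinearIndependent k (fun j => grd (P j) f))
    {q : SS k N d} (hq : q ∈ van (GO f)) :
    ∃ s : SS k N d, eval f s ≠ 0 ∧ s * q ∈ Ideal.span (Set.range P) := by
  classical
  have hinf : Infinite k := inferInstance
  have hfGO : f ∈ GO f := ⟨1, by simp, actT_one f⟩
  obtain ⟨y, hy0, hy⟩ := exists_coord (r := (N + 1) * (N + 1)) f P hcard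
    (fun j => hP j f hfGO) hli
  have hPv : Ideal.span (Set.range P) ≤ (van {f} : Ideal (SS k N d)) := by
    rw [Ideal.span_le]
    rintro _ ⟨j, rfl⟩ z hz
    rw [Set.mem_singleton_iff.mp hz]
    exact hP j f hfGO
  have hyv : Ideal.span (Set.range y) ≤ (van {f} : Ideal (SS k N d)) := by
    rw [Ideal.span_le]
    rintro _ ⟨j, rfl⟩ z hz
    rw [Set.mem_singleton_iff.mp hz]
    exact hy0 j
  have hgen := gen_LA f _ (sup_le hPv hyv) hy
  rw [Ideal.map_sup, Ideal.map_span, Ideal.map_span, ← Set.range_comp, ← Set.range_comp] at hgen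
  have hA : (((N + 1) * (N + 1) + e : ℕ) : ℕ∞) ≤ (maximalIdeal (LA f)).height := by
    rw [height_LA]
    have h1 := card_le_height f
    rwa [← hcard, add_comm] at h1
  -- the orbit map
  let 𝔭 : Ideal (KA k N) := van {ent (1 : Matrix (Fin (N + 1)) (Fin (N + 1)) k)}
  have hcomap : (van {f} : Ideal (SS k N d)) =
      𝔭.comap (aeval (orb f) : SS k N d →ₐ[k] KA k N).toRingHom := by
    ext Q
    rw [Ideal.mem_comap, mem_van, mem_van]
    simp only [Set.mem_singleton_iff, forall_eq]
    change _ ↔ eval (ent 1) (aeval (orb f) Q) = 0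
    rw [eval_aeval_orb, actT_one]
  let φ : LA f →+* LA (ent (1 : Matrix (Fin (N + 1)) (Fin (N + 1)) k)) :=
    Localization.localRingHom (van {f}) 𝔭 (aeval (orb f) : SS k N d →ₐ[k] KA k N).toRingHom hcomap
  have hφl : IsLocalHom φ := Localization.isLocalHom_localRingHom _ _ _ _
  have hφe : ∀ Q : SS k N d, φ (toLA f Q) = toLA _ (aeval (orb f) Q) := fun Q =>
    Localization.localRingHom_to_map _ _ _ hcomap Q
  have hφm : maximalIdeal (LA (ent (1 : Matrix (Fin (N + 1)) (Fin (N + 1)) k))) ≤
      (maximalIdeal (LA f)).map φ := by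
    have h1 : fI f f ≤ 𝔭 := by
      have := fI_le f (1 : Matrix (Fin (N + 1)) (Fin (N + 1)) k)
      rwa [actT_one] at this
    have h2 := unram hd hf (1 : Matrix (Fin (N + 1)) (Fin (N + 1)) k) (by simp)
    rw [actT_one] at h2
    rw [gen_LA _ _ h1 h2]
    unfold fI
    rw [Ideal.map_span, Ideal.span_le]
    rintro _ ⟨_, ⟨p, rfl⟩, rfl⟩
    have h3 : orb f p - C (f p) = aeval (orb f) (X p - C (f p)) := by
      rw [map_sub, aeval_X, algHom_C, algebraMap_eq]
    change toLA _ (orb f p - C (f p)) ∈ (maximalIdeal (LA f)).map φ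
    rw [h3, ← hφe]
    apply Ideal.mem_map_of_mem
    rw [← toLA_max]
    apply Ideal.mem_map_of_mem
    intro z hz
    rw [Set.mem_singleton_iff.mp hz, map_sub, eval_X, eval_C, sub_self]
  have hT : (((N + 1) * (N + 1) : ℕ) : ℕ∞) ≤
      (maximalIdeal (LA (ent (1 : Matrix (Fin (N + 1)) (Fin (N + 1)) k)))).height := by
    rw [height_LA]
    have h1 := card_le_height (ent (1 : Matrix (Fin (N + 1)) (Fin (N + 1)) k))
    rwa [Fintype.card_prod, Fintype.card_fin] at h1
  have hkill : ∀ Q ∈ van (GO f), φ (toLA f Q) = 0 := by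
    intro Q hQ
    rw [hφe, (mem_van_GO f Q).mp hQ, map_zero]
  have h1 := mem_of_dim (fun j => toLA f (P j)) (fun l => toLA f (y l)) hgen hA φ hφm hT
    (fun j => hkill _ (hP j)) (hkill q hq)
  have h2 : Ideal.span (Set.range fun j => toLA f (P j)) =
      (Ideal.span (Set.range P)).map (algebraMap (SS k N d) (LA f)) := by
    rw [Ideal.map_span, ← Set.range_comp]
    rfl
  rw [h2] at h1
  obtain ⟨s, hs, hsq⟩ := (IsLocalization.algebraMap_mem_map_algebraMap_iff
    (van {f} : Ideal (SS k N d)).primeCompl (LA f) _ q).mp h1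
  refine ⟨s, ?_, hsq⟩
  intro h0
  apply hs
  intro z hz
  rw [Set.mem_singleton_iff.mp hz]
  exact h0

end

end Pool.Agent.Y217
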