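import Pool.Agent.Y217.Conv3

/-!
Local generators of the maximal ideal of a point of the moduli space whose automorphism group is
trivial.
-/

open MvPolynomial IsLocalRing

namespace Pool.Agent.Y217

open Pool.Agent.Helper819 Pool.Agent.Helper819.Apolar Pool.Agent.Helper819.Dyn

noncomputable section

variable {k : Type} [Field k] [IsAlgClosed k] [CharZero k] {N d : ℕ} {D : SS k N d} {w : ℕ}

omit [CharZero k] in
theorem compT_semi {a : ℕ} {P : SS k N d} (hP : Dyn.IsSemi a P)
    (B : Matrix (Fin (N + 1)) (Fin (N + 1)) k) : compT B P = C (B.det ^ a) * P := by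
  have hinf : Infinite k := IsAlgClosed.instInfinite
  apply MvPolynomial.funext
  intro c
  rw [eval_compT, map_mul, eval_C, hP B c]

theorem semi_mem_van {a : ℕ} {P : SS k N d} (hP : Dyn.IsSemi a P) {f : Ix N d → k}
    (h0 : eval f P = 0) : P ∈ van (GO f) := by
  rintro _ ⟨A, _, rfl⟩
  rw [hP A f, h0, mul_zero]

/-- An ideal stable under the group which does not vanish at `f` contains a semi-invariant which
does not vanish at `f`. -/
theorem exists_unit_semi (hd : 2 ≤ d) (hw : 0 < w) {f : Ix N d → k} (hf : NZ (tup f))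
    (J : Ideal (SS k N d))
    (hJ : ∀ A : Matrix (Fin (N + 1)) (Fin (N + 1)) k, A.det ≠ 0 → ∀ s ∈ J, compT A s ∈ J)
    (hJf : ∃ s ∈ J, eval f s ≠ 0) :
    ∃ (l : ℕ) (u : SS k N d), Dyn.IsSemi (w * l) u ∧ eval f u ≠ 0 ∧ u ∈ J := by
  let Z : Set (Ix N d → k) := {c | ∀ P ∈ J, eval c P = 0}
  obtain ⟨w', R, hR, hRf, hRZ⟩ := exists_semi hd hf Z
    (by
      intro c hc P hP
      exact hc P fun z hz => hz P hP)
    (by
      intro A hA z hz P hP
      rw [← eval_compT]
      exact hz _ (hJ A hA P hP))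
    (by
      intro h
      obtain ⟨s, hs, hne⟩ := hJf
      exact hne (h s hs))
  have hrad : R ∈ J.radical := by
    rw [← vanishingIdeal_zeroLocus_eq_radical (K := k), mem_vanishingIdeal_iff]
    intro c hc
    have h4 : aeval c R = eval c R := by
      rw [← coe_aeval_eq_eval]
      rfl
    rw [h4]
    apply hRZ
    intro P hP
    have h3 := (mem_zeroLocus_iff.mp hc) P hP
    rw [← coe_aeval_eq_eval]
    exact h3
  obtain ⟨r, hr⟩ := hrad
  refine ⟨w' * r, R ^ (r * w), ?_, ?_, ?_⟩
  · have h1 := hR.pow (r * w)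
    have h2 : w' * (r * w) = w * (w' * r) := by ring
    rwa [h2] at h1
  · rw [map_pow]
    exact pow_ne_zero _ hRf
  · rw [pow_mul]
    exact J.pow_mem_of_mem hr w hw

/-- the maximal ideal is generated, locally, by `e` elements -/
theorem gen_ptIdeal (hd : 2 ≤ d) (hw : 0 < w) (hD : Dyn.IsSemi w D)
    (hDN : ∀ c, eval c D ≠ 0 ↔ NZ (tup c)) (hDne : D ≠ 0) {f : Ix N d → k} (hf : NZ (tup f))
    {e : ℕ} (m : Fin e → ℕ) (P : Fin e → SS k N d)
    (hcard : e + (N + 1) * (N + 1) = Fintype.card (Ix N d))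
    (hP0 : ∀ j, eval f (P j) = 0) (hli : LinearIndependent k (fun j => grd (P j) f))
    (b : Fin e → coordRing k N d) (hb : ∀ j, Rep D w (b j).1 (m j) (P j))
    (h : coordRing k N d) (hh : h ∈ ptIdeal (cls (mkE f hf))) :
    ∃ s ∉ ptIdeal (cls (mkE f hf)), ∃ a : Fin e → coordRing k N d, s * h = ∑ j, a j * b j := by
  obtain ⟨n, Q, hQ⟩ := exists_rep (by omega) hD hDN hDne h
  have hQ0 : eval f Q = 0 := by
    rw [mem_ptIdeal] at hh
    rw [← hQ.2 f hf, hh, zero_mul]
  obtain ⟨s0, hs0, hs0Q⟩ := local_claim hd hf P hcard (fun j => semi_mem_van (hb j).1 (hP0 j)) hli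
    (semi_mem_van hQ.1 hQ0)
  let J : Ideal (SS k N d) := (Ideal.span (Set.range P)).colon {Q}
  have hJmem : ∀ s, s ∈ J ↔ s * Q ∈ Ideal.span (Set.range P) := by
    intro s
    rw [Submodule.mem_colon_singleton, smul_eq_mul]
  have hstab : ∀ A : Matrix (Fin (N + 1)) (Fin (N + 1)) k, A.det ≠ 0 → ∀ s ∈ J, compT A s ∈ J := by
    intro A hA s hs
    rw [hJmem] at hs ⊢
    have h1 : (Ideal.span (Set.range P)).map (compT A) ≤ Ideal.span (Set.range P) := by
      rw [Ideal.map_span, Ideal.span_le]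
      rintro _ ⟨_, ⟨j, rfl⟩, rfl⟩
      change compT A (P j) ∈ Ideal.span (Set.range P)
      rw [compT_semi (hb j).1]
      exact Ideal.mul_mem_left _ _ (Ideal.subset_span ⟨j, rfl⟩)
    have h2 := h1 (Ideal.mem_map_of_mem (compT A) hs)
    rw [map_mul, compT_semi hQ.1] at h2
    have h3 : compT A s * Q = C ((A.det ^ (w * n))⁻¹) * (compT A s * (C (A.det ^ (w * n)) * Q)) := by
      have h4 : (C ((A.det ^ (w * n))⁻¹) : SS k N d) * C (A.det ^ (w * n)) = 1 := by
        rw [← map_mul, inv_mul_cancel₀ (pow_ne_zero _ hA), map_one]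
      linear_combination (-(compT A s * Q)) * h4
    rw [h3]
    exact Ideal.mul_mem_left _ _ h2
  obtain ⟨l, u, hu, huf, huJ⟩ := exists_unit_semi hd hw hf J hstab ⟨s0, (hJmem _).mpr hs0Q, hs0⟩
  obtain ⟨s, hs⟩ := exists_of_semi (by omega) hD hDN hu
  refine ⟨s, ?_, ?_⟩
  · rw [mem_ptIdeal]
    intro h0
    apply huf
    rw [← hs.2 f hf, h0, zero_mul]
  · rw [hJmem, Ideal.mem_span_range_iff_exists_fun] at huJ
    obtain ⟨q, hq⟩ := huJ
    exact mem_of_numerator (by omega) hD hDN b m P hb (hs.mul hQ) q hq.symm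

/-- Functoriality of the coordinate ring. -/
theorem exists_lift (hNd : 0 < N + d) (hD : Dyn.IsSemi w D)
    (hDN : ∀ c, eval c D ≠ 0 ↔ NZ (tup c)) (hDne : D ≠ 0) {T : Type} [CommRing T]
    (π : SS k N d →+* T) (hπ : IsUnit (π D)) :
    ∃ j : coordRing k N d →+* T, ∀ (h : coordRing k N d) (m : ℕ) (P : SS k N d),
      Rep D w h.1 m P → j h * π D ^ m = π P := by
  obtain ⟨v, hv⟩ := hπ.exists_left_inv
  choose μ Q hQ using fun h : coordRing k N d => exists_rep hNd hD hDN hDne h
  let f : coordRing k N d → T := fun h => π (Q h) * v ^ μ h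
  have hvm : ∀ m : ℕ, v ^ m * π D ^ m = 1 := fun m => by rw [← mul_pow, hv, one_pow]
  have hf : ∀ (h : coordRing k N d) (m : ℕ) (P : SS k N d), Rep D w h.1 m P →
      f h * π D ^ m = π P := by
    intro h m P hP
    have h1 := congrArg π (Rep.unique hDN hDne (hQ h) hP)
    rw [map_mul, map_mul, map_pow, map_pow] at h1
    change π (Q h) * v ^ μ h * π D ^ m = _
    linear_combination (v ^ μ h) * h1 + (π P) * hvm (μ h)
  have huni : ∀ (m : ℕ) {a b : T}, a * π D ^ m = b * π D ^ m → a = b := by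
    intro m a b hab
    have h1 := congrArg (fun z => z * v ^ m) hab
    simp only [mul_assoc] at h1
    rwa [mul_comm (π D ^ m), hvm, mul_one, mul_one] at h1
  let j : coordRing k N d →+* T :=
    { toFun := f
      map_one' := by
        have h1 := hf 1 0 (C 1 * D ^ 0) (Rep.const hD 1 0)
        rwa [pow_zero, pow_zero, mul_one, mul_one, C_1, map_one] at h1
      map_zero' := by
        have h1 := hf 0 0 (C 0 * D ^ 0) (Rep.const hD 0 0)
        rwa [pow_zero, pow_zero, mul_one, mul_one, C_0, map_zero] at h1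
      map_mul' := by
        intro a b
        have h1 := hf (a * b) _ _ ((hQ a).mul (hQ b))
        have h2 := hf a _ _ (hQ a)
        have h3 := hf b _ _ (hQ b)
        rw [map_mul, ← h2, ← h3] at h1
        apply huni (μ a + μ b)
        rw [h1, pow_add]
        ring
      map_add' := by
        intro a b
        have h1 := hf (a + b) _ _ (((hQ a).lift hD (μ b)).add_same
          (by rw [add_comm]; exact (hQ b).lift hD (μ a)))
        have h2 := hf a _ _ (hQ a)
        have h3 := hf b _ _ (hQ b)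
        rw [map_add, map_mul, map_mul, map_pow, map_pow, ← h2, ← h3] at h1
        apply huni (μ a + μ b)
        rw [h1, pow_add]
        ring }
  exact ⟨j, hf⟩

end

end Pool.Agent.Y217
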