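import Pool.Agent.Y217.Conv4

/-!
The moduli space is regular at the points with trivial automorphism group.
-/

open MvPolynomial IsLocalRing

namespace Pool.Agent.Y217

open Pool.Agent.Helper819 Pool.Agent.Helper819.Apolar Pool.Agent.Helper819.Dyn

noncomputable section

variable {k : Type} [Field k] [IsAlgClosed k] [CharZero k] {N d : ℕ} {D : SS k N d} {w : ℕ}

/-- Lower bound for the dimension. -/
theorem dim_ge (hd : 2 ≤ d) (hD : Dyn.IsSemi w D)
    (hDN : ∀ c, eval c D ≠ 0 ↔ NZ (tup c)) (hDne : D ≠ 0) {f : Ix N d → k} (hf : NZ (tup f))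
    {e : ℕ} (m : Fin e → ℕ) (P : Fin e → SS k N d)
    (hcard : e + (N + 1) * (N + 1) = Fintype.card (Ix N d))
    (hP0 : ∀ j, eval f (P j) = 0) (hli : LinearIndependent k (fun j => grd (P j) f))
    (b : Fin e → coordRing k N d) (hb : ∀ j, Rep D w (b j).1 (m j) (P j)) :
    (e : ℕ∞) ≤ (ptIdeal (cls (mkE f hf))).height := by
  classical
  have hnoe : IsNoetherianRing (coordRing k N d) := noeth_coordRing hd
  have hmem : ∀ Q : SS k N d, toLA f Q ∈ maximalIdeal (LA f) ↔ eval f Q = 0 := by
    intro Q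
    have h1 : toLA f Q ∈ maximalIdeal (LA f) ↔ Q ∈ (van {f} : Ideal (SS k N d)) :=
      IsLocalization.AtPrime.to_map_mem_maximal_iff (LA f) (van {f} : Ideal (SS k N d)) Q
    rw [h1, mem_van]
    simp
  have hDu : IsUnit (toLA f D) := by
    by_contra hcon
    have h1 : toLA f D ∈ maximalIdeal (LA f) := (mem_maximalIdeal _).mpr hcon
    rw [hmem] at h1
    exact (hDN f).mpr hf h1
  obtain ⟨j, hj⟩ := exists_lift (by omega) hD hDN hDne (toLA f) hDu
  letI : Algebra (coordRing k N d) (LA f) := j.toAlgebra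
  have hover : (maximalIdeal (LA f)).LiesOver (ptIdeal (cls (mkE f hf))) := by
    constructor
    ext h
    change _ ↔ j h ∈ maximalIdeal (LA f)
    obtain ⟨n, Q, hQ⟩ := exists_rep (by omega) hD hDN hDne h
    have h1 := hj h n Q hQ
    have h2 : j h ∈ maximalIdeal (LA f) ↔ toLA f Q ∈ maximalIdeal (LA f) := by
      rw [← h1]
      exact (Ideal.mul_unit_mem_iff_mem _ (hDu.pow n)).symm
    rw [h2, hmem, ← hQ.2 f hf, mem_ptIdeal]
    constructor
    · intro h0
      rw [h0, zero_mul]
    · intro h0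
      exact (mul_eq_zero.mp h0).resolve_right (pow_ne_zero _ ((hDN f).mpr hf))
  obtain ⟨y, hy0, hy⟩ := exists_coord (r := (N + 1) * (N + 1)) f P hcard hP0 hli
  have hPv : Ideal.span (Set.range P) ≤ (van {f} : Ideal (SS k N d)) := by
    rw [Ideal.span_le]
    rintro _ ⟨j, rfl⟩ z hz
    rw [Set.mem_singleton_iff.mp hz]
    exact hP0 j
  have hyv : Ideal.span (Set.range y) ≤ (van {f} : Ideal (SS k N d)) := by
    rw [Ideal.span_le]
    rintro _ ⟨j, rfl⟩ z hz
    rw [Set.mem_singleton_iff.mp hz]
    exact hy0 j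
  have hgen := gen_LA f _ (sup_le hPv hyv) hy
  rw [Ideal.map_sup, Ideal.map_span, Ideal.map_span, ← Set.range_comp, ← Set.range_comp] at hgen
  obtain ⟨K, hK⟩ : ∃ K, K = (ptIdeal (cls (mkE f hf))).map
    (algebraMap (coordRing k N d) (LA f)) := ⟨_, rfl⟩
  have hKm : K ≤ maximalIdeal (LA f) := by
    rw [hK, Ideal.map_le_iff_le_comap]
    exact hover.over.le
  have hPK : Ideal.span (Set.range (toLA f ∘ P)) ≤ K := by
    rw [Ideal.span_le]
    rintro _ ⟨i, rfl⟩
    change toLA f (P i) ∈ K
    rw [← hj _ _ _ (hb i)]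
    apply Ideal.mul_mem_right
    rw [hK]
    apply Ideal.mem_map_of_mem
    rw [mem_ptIdeal]
    have h1 := (hb i).2 f hf
    rw [hP0] at h1
    exact (mul_eq_zero.mp h1).resolve_right (pow_ne_zero _ ((hDN f).mpr hf))
  have h1 := Ideal.height_le_height_add_of_liesOver (ptIdeal (cls (mkE f hf)))
    (maximalIdeal (LA f))
  rw [← hK] at h1
  have hlocK : IsLocalRing (LA f ⧸ K) := loc_quot hKm
  have h2 : (maximalIdeal (LA f)).map (Ideal.Quotient.mk K) =
      Ideal.span (Set.range fun l => Ideal.Quotient.mk K (toLA f (y l))) := by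
    rw [hgen, Ideal.map_sup]
    have h3 : (Ideal.span (Set.range (toLA f ∘ P))).map (Ideal.Quotient.mk K) = ⊥ := by
      rw [Ideal.map_eq_bot_iff_le_ker, Ideal.mk_ker]
      exact hPK
    rw [h3, bot_sup_eq, Ideal.map_span, ← Set.range_comp]
    rfl
  have h3 : ((maximalIdeal (LA f)).map (Ideal.Quotient.mk K)).height ≤
      (((N + 1) * (N + 1) : ℕ) : ℕ∞) := by
    have h4 := Ideal.height_le_spanFinrank ((maximalIdeal (LA f)).map (Ideal.Quotient.mk K))
      (by rw [map_max']; exact Ideal.IsPrime.ne_top')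
    refine h4.trans ?_
    rw [h2]
    have h6 := Submodule.spanFinrank_span_le_ncard_of_finite (R := LA f ⧸ K)
      (Set.finite_range fun l => Ideal.Quotient.mk K (toLA f (y l)))
    have h7 : (Set.range fun l => Ideal.Quotient.mk K (toLA f (y l))).ncard ≤
        (N + 1) * (N + 1) := by
      rw [Set.ncard]
      exact ENat.toNat_le_of_le_coe (encard_range_le _)
    exact_mod_cast h6.trans h7
  have h4 : ((e + (N + 1) * (N + 1) : ℕ) : ℕ∞) ≤ (maximalIdeal (LA f)).height := by
    rw [height_LA, hcard]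
    exact card_le_height f
  have h5 := h4.trans (h1.trans (add_le_add_right h3 _))
  rw [Nat.cast_add] at h5
  exact (ENat.add_le_add_iff_right (ENat.coe_ne_top _)).mp h5

/-- At a map without automorphisms the moduli space is regular. -/
theorem regular_of_free (hd : 2 ≤ d) {f : Ix N d → k} (hf : NZ (tup f)) (hst : Free f) :
    IsRegularLocalRing (Localization.AtPrime (ptIdeal (cls (mkE f hf)))) := by
  classical
  obtain ⟨D, w, hw, hD, hDN⟩ := exists_resultant (k := k) (N := N) (d := d) (by omega)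
  have hDne : D ≠ 0 := by
    rintro rfl
    have := (hDN (Gr.pwt k N d)).mpr (Gr.NZ_pwt (by omega))
    rw [map_zero] at this
    exact this rfl
  obtain ⟨e, m, P, hcard, hP, hP0, hli⟩ := exists_indep hd hw hD hDN hf hst
  choose b hb using fun j => exists_of_semi (k := k) (N := N) (d := d) (by omega) hD hDN (hP j)
  have hnoe : IsNoetherianRing (coordRing k N d) := noeth_coordRing hd
  let 𝔭 := ptIdeal (cls (mkE f hf))
  let R := Localization.AtPrime 𝔭
  have hnoeR : IsNoetherianRing R := IsLocalization.isNoetherianRing 𝔭.primeCompl _ hnoe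
  have hgen : maximalIdeal R ≤ Ideal.span (Set.range fun j => algebraMap _ R (b j)) := by
    have h1 : 𝔭.map (algebraMap _ R) = maximalIdeal R := Localization.AtPrime.map_eq_maximalIdeal
    rw [← h1, Ideal.map_le_iff_le_comap]
    intro h hh
    rw [Ideal.mem_comap]
    obtain ⟨s, hs, a, ha⟩ := gen_ptIdeal hd hw hD hDN hDne hf m P hcard hP0 hli b hb h hh
    have hsu : IsUnit (algebraMap (coordRing k N d) R s) :=
      IsLocalization.map_units R (⟨s, hs⟩ : 𝔭.primeCompl)
    rw [← Ideal.unit_mul_mem_iff_mem _ hsu, ← map_mul, ha, map_sum]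
    apply Ideal.sum_mem
    intro j _
    rw [map_mul]
    exact Ideal.mul_mem_left _ _ (Ideal.subset_span ⟨j, rfl⟩)
  have hbp : ∀ j, b j ∈ 𝔭 := by
    intro j
    change b j ∈ ptIdeal (cls (mkE f hf))
    rw [mem_ptIdeal]
    have h1 := (hb j).2 f hf
    rw [hP0] at h1
    exact (mul_eq_zero.mp h1).resolve_right (pow_ne_zero _ ((hDN f).mpr hf))
  have hgen' : maximalIdeal R = Ideal.span (Set.range fun j => algebraMap _ R (b j)) := by
    apply le_antisymm hgen
    have h1 : 𝔭.map (algebraMap _ R) = maximalIdeal R := Localization.AtPrime.map_eq_maximalIdeal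
    rw [← h1, Ideal.span_le]
    rintro _ ⟨j, rfl⟩
    exact Ideal.mem_map_of_mem _ (hbp j)
  have hle : (maximalIdeal R).spanFinrank ≤ e := by
    rw [hgen']
    have h6 := Submodule.spanFinrank_span_le_ncard_of_finite (R := R)
      (Set.finite_range fun j => algebraMap (coordRing k N d) R (b j))
    refine h6.trans ?_
    rw [Set.ncard]
    exact ENat.toNat_le_of_le_coe (encard_range_le _)
  have hdim := dim_ge hd hD hDN hDne hf m P hcard hP0 hli b hb
  apply IsRegularLocalRing.of_spanFinrank_maximalIdeal_le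
  change ((maximalIdeal R).spanFinrank : WithBot ℕ∞) ≤ ringKrullDim R
  rw [IsLocalization.AtPrime.ringKrullDim_eq_height 𝔭 R]
  have h8 : (((maximalIdeal R).spanFinrank : ℕ) : ℕ∞) ≤ 𝔭.height :=
    le_trans (by exact_mod_cast hle) hdim
  exact_mod_cast h8

/-- The singular locus of the moduli space: the classes of the maps with automorphisms. -/
theorem singular_iff (hN : 2 ≤ N) (hd : 2 ≤ d) (F : EndTuple k N d) :
    IsSingularPoint (cls F) ↔ HasAut F := by
  constructor
  · intro hs
    obtain ⟨f, hf, rfl⟩ := exists_mkE F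
    rw [hasAut_iff (by omega)]
    intro hfree
    exact hs (regular_of_free hd hf hfree)
  · exact singular_of_hasAut hN hd F

end

end Pool.Agent.Y217
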