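import Pool.Agent.Helper819.DynDefs

/-!
The coordinate ring and the local rings of the moduli space of endomorphisms of projective space.
-/

open MvPolynomial

namespace Pool.Agent.Y217

open Pool.Agent.Helper819.Dyn

noncomputable section

/-- The coordinate ring of the affine variety `M_d^N = End_d^N / PGL_{N+1}`: the functions on the
set of conjugacy classes of endomorphisms whose pull-back to the coefficient tuples of
endomorphisms is a quotient `P / Q` of two polynomials in the coefficients, where `Q` vanishes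
at no coefficient tuple of an endomorphism. -/
def coordRing (k : Type) [Field k] (N d : ℕ) : Subalgebra k (Moduli k N d → k) where
  carrier := {h | ∃ P Q : MvPolynomial (Fin (N + 1) × (Fin (N + 1) →₀ ℕ)) k,
    ∀ F : EndTuple k N d, eval (coords F) Q ≠ 0 ∧ h (cls F) = eval (coords F) P / eval (coords F) Q}
  mul_mem' := by
    rintro a b ⟨P, Q, h⟩ ⟨P', Q', h'⟩
    refine ⟨P * P', Q * Q', fun F => ⟨?_, ?_⟩⟩
    · rw [map_mul]
      exact mul_ne_zero (h F).1 (h' F).1
    · rw [Pi.mul_apply, (h F).2, (h' F).2, map_mul, map_mul, div_mul_div_comm]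
  add_mem' := by
    rintro a b ⟨P, Q, h⟩ ⟨P', Q', h'⟩
    refine ⟨P * Q' + Q * P', Q * Q', fun F => ⟨?_, ?_⟩⟩
    · rw [map_mul]
      exact mul_ne_zero (h F).1 (h' F).1
    · rw [Pi.add_apply, (h F).2, (h' F).2, div_add_div _ _ (h F).1 (h' F).1, map_add, map_mul,
        map_mul, map_mul]
  algebraMap_mem' := by
    intro a
    refine ⟨C a, 1, fun F => ⟨?_, ?_⟩⟩
    · rw [map_one]
      exact one_ne_zero
    · rw [map_one, eval_C, div_one]
      rfl

/-- Evaluation of the elements of the coordinate ring at the point `x`. -/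
def evalAt {k : Type} [Field k] {N d : ℕ} (x : Moduli k N d) : coordRing k N d →ₐ[k] k :=
  (Pi.evalAlgHom k (fun _ => k) x).comp (coordRing k N d).val

/-- The ideal of the elements of the coordinate ring which vanish at the point `x`. -/
def ptIdeal {k : Type} [Field k] {N d : ℕ} (x : Moduli k N d) : Ideal (coordRing k N d) :=
  RingHom.ker (evalAt x)

instance {k : Type} [Field k] {N d : ℕ} (x : Moduli k N d) : (ptIdeal x).IsPrime :=
  RingHom.ker_isPrime _

/-- `x` is a singular point of `M_d^N`: the local ring of `M_d^N` at `x` is not regular. -/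
def IsSingularPoint {k : Type} [Field k] {N d : ℕ} (x : Moduli k N d) : Prop :=
  ¬ IsRegularLocalRing (Localization.AtPrime (ptIdeal x))

/-- `Aut(f) ≠ 1`: there is `φ` in `GL_{N+1}(k)`, not a scalar matrix, such that `φ⁻¹ ∘ f ∘ φ = f`
as maps of projective space. -/
def HasAut {k : Type} [Field k] {N d : ℕ} (F : EndTuple k N d) : Prop :=
  ∃ φ : GL (Fin (N + 1)) k, (∀ a : k, (φ : Matrix (Fin (N + 1)) (Fin (N + 1)) k) ≠ a • 1) ∧
    ∃ c : kˣ, conj φ F.1 = fun i => C (c : k) * F.1 i

end

end Pool.Agent.Y217
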