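import Pool.Agent.Y217.Tang
import Pool.Agent.Y217.Comb

/-!
The action of diagonal matrices.
-/

open MvPolynomial

namespace Pool.Agent.Y217

open Pool.Agent.Helper819 Pool.Agent.Helper819.Apolar Pool.Agent.Helper819.Dyn

noncomputable section

variable {N d : ℕ}

theorem act_diag {R : Type} [CommRing R] (l : Fin (N + 1) → R) (F : Tuple R N)
    (i : Fin (N + 1)) (m : Fin (N + 1) →₀ ℕ) :
    coeff m (act (Matrix.diagonal l) F i) =
      (Matrix.diagonal l).adjugate i i * (∏ j, l j ^ m j) * coeff m (F i) := by
  classical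
  unfold act
  have h1 : (fun a => ∑ m, C ((Matrix.diagonal l) a m) * X m :
      Fin (N + 1) → MvPolynomial (Fin (N + 1)) R) = fun a => C (l a) * X a := by
    funext a
    rw [Finset.sum_eq_single a]
    · rw [Matrix.diagonal_apply_eq]
    · intro b _ hb
      rw [Matrix.diagonal_apply_ne _ hb.symm, C_0, zero_mul]
    · simp
  rw [h1, Finset.sum_eq_single i]
  · rw [coeff_C_mul, mul_assoc]
    congr 1
    -- scaling of the variables
    generalize F i = G
    induction G using MvPolynomial.induction_on' with
    | monomial u a =>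
      rw [bind₁_monomial, coeff_monomial]
      have h2 : C a * ∏ i ∈ u.support, (C (l i) * X i : MvPolynomial (Fin (N + 1)) R) ^ u i =
          monomial u (a * ∏ j, l j ^ u j) := by
        simp_rw [mul_pow, Finset.prod_mul_distrib, ← C_pow, ← map_prod]
        have h3 : ∏ i ∈ u.support, l i ^ u i = ∏ j, l j ^ u j := by
          apply Finset.prod_subset (Finset.subset_univ _)
          intro j _ hj
          rw [Finsupp.notMem_support_iff.mp hj, pow_zero]
        rw [h3, ← mul_assoc, ← C_mul, monomial_eq, Finsupp.prod]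
      rw [h2, coeff_monomial]
      split_ifs with hm
      · rw [hm, mul_comm]
      · rw [mul_zero]
    | add p q hp hq => rw [map_add, coeff_add, coeff_add, hp, hq, mul_add]
  · intro j _ hj
    rw [Matrix.adjugate_diagonal, Matrix.diagonal_apply_ne _ hj.symm, C_0, zero_mul]
  · simp

/-- eigenvalues of a diagonal matrix -/
def evl {R : Type} [CommRing R] (l : Fin (N + 1) → R) (p : Ix N d) : R :=
  (Matrix.diagonal l).adjugate p.1 p.1 * (∏ j, l j ^ p.2.1 j)

theorem actT_diag {R : Type} [CommRing R] (l : Fin (N + 1) → R) (y : Ix N d → R)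
    (p : Ix N d) : actT (Matrix.diagonal l) y p = evl l p * y p := by
  unfold actT cf
  rw [act_diag, coeff_tup]
  rfl

/-- the fixed coordinates -/
def TD {K : Type} [Field K] [DecidableEq K] (d : ℕ) (l : Fin (N + 1) → K) : Finset (Ix N d) :=
  Finset.univ.filter fun p => evl l p = 1

theorem mem_TD {K : Type} [Field K] [DecidableEq K] (l : Fin (N + 1) → K) (p : Ix N d) :
    p ∈ TD d l ↔ evl l p = 1 := by
  unfold TD
  simp

theorem TD_inj {K : Type} [Field K] [DecidableEq K] (l : Fin (N + 1) → K) (hl : ∀ i, l i ≠ 0)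
    (i j : Fin (N + 1)) (m : Ex N d) (h1 : (i, m) ∈ TD d l) (h2 : (j, m) ∈ TD d l) :
    l i = l j := by
  rw [mem_TD] at h1 h2
  unfold evl at h1 h2
  have hP : (∏ a, l a ^ m.1 a) ≠ 0 := right_ne_zero_of_mul (by rw [h1]; exact one_ne_zero)
  have h3 : (Matrix.diagonal l).adjugate i i = (Matrix.diagonal l).adjugate j j :=
    mul_right_cancel₀ hP (h1.trans h2.symm)
  have h4 : ∀ i, (Matrix.diagonal l).adjugate i i * l i = (Matrix.diagonal l).det := by
    intro i
    have := congrFun (congrFun (Matrix.adjugate_mul (Matrix.diagonal l)) i) i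
    rw [Matrix.mul_diagonal, Matrix.smul_apply, Matrix.one_apply_eq, smul_eq_mul, mul_one] at this
    exact this
  have h5 : (Matrix.diagonal l).det ≠ 0 := by
    rw [Matrix.det_diagonal]
    exact Finset.prod_ne_zero_iff.mpr fun i _ => hl i
  have h6 : (Matrix.diagonal l).adjugate j j ≠ 0 := by
    intro h0
    have := h4 j
    rw [h0, zero_mul] at this
    exact h5 this.symm
  have h7 := h4 i
  rw [h3, ← h4 j] at h7
  exact mul_left_cancel₀ h6 h7

/-- equivariance of the infinitesimal action -/
theorem xi_conj {R : Type} [CommRing R] (B Z Z' : Matrix (Fin (N + 1)) (Fin (N + 1)) R)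
    (h : Z * B = B * Z') (c : Ix N d → R) : actT B (xi Z c) = xi Z' (actT B c) := by
  let e : DualNumber R := DualNumber.eps
  have he : e * e = 0 := DualNumber.eps_mul_eps
  let ι := algebraMap R (DualNumber R)
  have h1 : oneEps e Z * B.map ι = B.map ι * oneEps e Z' := by
    unfold oneEps
    rw [add_mul, mul_add, one_mul, mul_one, Matrix.smul_mul, Matrix.mul_smul, ← Matrix.map_mul,
      ← Matrix.map_mul, h]
  have h2 := actT_actT (oneEps e Z) (B.map ι) (fun p => ι (c p))
  rw [h1, ← actT_actT] at h2
  have h3 : actT (oneEps e Z) (fun p => ι (c p)) =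
      (fun p => ι (c p)) + e • (fun p => ι (xi Z c p)) := by
    funext q
    exact actT_eps e he Z c q
  have h4 : actT (B.map ι) (fun p => ι (c p)) = fun p => ι (actT B c p) := by
    funext q
    rw [map_actT]
  have h5 : actT (B.map ι) (fun p => ι (xi Z c p)) = fun p => ι (actT B (xi Z c) p) := by
    funext q
    rw [map_actT]
  rw [h3, h4, actT_add, actT_smul, h4, h5] at h2
  funext p
  have h6 := congrFun h2 p
  rw [actT_eps e he] at h6
  simp only [Pi.add_apply, Pi.smul_apply, smul_eq_mul] at h6
  have h7 := congrArg TrivSqZeroExt.snd h6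
  have h8 : ∀ a b : R, TrivSqZeroExt.snd (ι a + e * ι b) = b := by
    intro a b
    change TrivSqZeroExt.snd (algebraMap R (DualNumber R) a +
      DualNumber.eps * algebraMap R (DualNumber R) b) = b
    rw [TrivSqZeroExt.algebraMap_eq_inl]
    simp
  rw [h8, h8] at h7
  exact h7

/-- vectors supported on `T` -/
def suppT (K : Type) [Field K] (T : Finset (Ix N d)) : Submodule K (Ix N d → K) where
  carrier := {y | ∀ p, p ∉ T → y p = 0}
  add_mem' := by
    intro a b ha hb p hp
    rw [Pi.add_apply, ha p hp, hb p hp, add_zero]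
  zero_mem' := fun _ _ => rfl
  smul_mem' := by
    intro r a ha p hp
    rw [Pi.smul_apply, ha p hp, smul_zero]

theorem mem_suppT {K : Type} [Field K] (T : Finset (Ix N d)) (y : Ix N d → K) :
    y ∈ suppT K T ↔ ∀ p, p ∉ T → y p = 0 := Iff.rfl

theorem suppT_fix {K : Type} [Field K] [DecidableEq K] {l : Fin (N + 1) → K} {y : Ix N d → K} :
    y ∈ suppT K (TD d l) ↔ actT (Matrix.diagonal l) y = y := by
  constructor
  · intro h
    funext p
    rw [actT_diag]
    by_cases hp : p ∈ TD d l
    · rw [(mem_TD l p).mp hp, one_mul]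
    · rw [h p hp, mul_zero]
  · intro h p hp
    have h1 := congrFun h p
    rw [actT_diag] at h1
    rw [mem_TD] at hp
    have h2 : (evl l p - 1) * y p = 0 := by rw [sub_mul, one_mul, h1, sub_self]
    exact (mul_eq_zero.mp h2).resolve_left (sub_ne_zero.mpr hp)

/-- Dimension of the tangent space of the family with given support. -/
theorem dim_bound {K : Type} [Field K] [DecidableEq K] (l : Fin (N + 1) → K)
    (y : Ix N d → K) (hy : y ∈ suppT K (TD d l)) :
    Module.finrank K ↥(suppT K (TD d l) ⊔ LinearMap.range (xiL y)) ≤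
      (TD d l).card +
      (Finset.univ.filter fun p : Fin (N + 1) × Fin (N + 1) => l p.1 ≠ l p.2).card := by
  classical
  let U := Finset.univ.filter fun p : Fin (N + 1) × Fin (N + 1) => l p.1 ≠ l p.2
  let s1 : Finset (Ix N d → K) := (TD d l).image fun p => Pi.single p 1
  let s2 : Finset (Ix N d → K) := U.image fun q => xi (Matrix.single q.1 q.2 1) y
  have hT : suppT K (TD d l) ≤ Submodule.span K (↑(s1 ∪ s2) : Set (Ix N d → K)) := by
    intro z hz
    have h1 : z = ∑ p ∈ TD d l, z p • (Pi.single p (1 : K) : Ix N d → K) := by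
      funext q
      rw [Finset.sum_apply]
      simp only [Pi.smul_apply, Pi.single_apply, smul_eq_mul, mul_ite, mul_one, mul_zero]
      rw [Finset.sum_ite_eq]
      split_ifs with hq
      · rfl
      · exact hz q hq
    rw [h1]
    refine Submodule.sum_mem _ fun p hp => Submodule.smul_mem _ _ (Submodule.subset_span ?_)
    rw [Finset.coe_union]
    exact Or.inl (by
      rw [Finset.mem_coe, Finset.mem_image]
      exact ⟨p, hp, rfl⟩)
  have hle : suppT K (TD d l) ⊔ LinearMap.range (xiL y) ≤
      Submodule.span K (↑(s1 ∪ s2) : Set (Ix N d → K)) := by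
    apply sup_le hT
    rintro _ ⟨Z, rfl⟩
    change xi Z y ∈ _
    rw [xi_sum]
    refine Submodule.sum_mem _ fun i _ => Submodule.sum_mem _ fun j _ => Submodule.smul_mem _ _ ?_
    by_cases hij : l i = l j
    · apply hT
      rw [suppT_fix] at hy ⊢
      rw [xi_conj (Matrix.diagonal l) (Matrix.single i j 1) (Matrix.single i j 1), hy]
      ext a b
      rw [Matrix.mul_diagonal, Matrix.diagonal_mul, Matrix.single_apply]
      split_ifs with h
      · obtain ⟨rfl, rfl⟩ := h
        rw [hij, one_mul, mul_one]
      · rw [zero_mul, mul_zero]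
    · apply Submodule.subset_span
      rw [Finset.coe_union]
      exact Or.inr (by
        rw [Finset.mem_coe, Finset.mem_image]
        exact ⟨(i, j), by simpa [U] using hij, rfl⟩)
  calc _ ≤ Module.finrank K (Submodule.span K (↑(s1 ∪ s2) : Set (Ix N d → K))) :=
        Submodule.finrank_mono hle
    _ ≤ (s1 ∪ s2).card := finrank_span_finset_le_card _
    _ ≤ s1.card + s2.card := Finset.card_union_le _ _
    _ ≤ _ := add_le_add Finset.card_image_le Finset.card_image_le

end

end Pool.Agent.Y217
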