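import Pool.Agent.Y217.Om

/-!
Upper bound for the transcendence degree of the coordinate ring.
-/

open MvPolynomial

namespace Pool.Agent.Y217

open Pool.Agent.Helper819 Pool.Agent.Helper819.Apolar Pool.Agent.Helper819.Dyn

noncomputable section

variable {k : Type} [Field k] {N d : ℕ}

/-- rational functions in the coefficients -/
abbrev LS (k : Type) [Field k] (N d : ℕ) : Type := FractionRing (SS k N d)

instance ess_LS : Algebra.EssFiniteType k (LS k N d) := by
  have h1 : Algebra.EssFiniteType (SS k N d) (LS k N d) :=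
    Algebra.EssFiniteType.of_isLocalization _ (nonZeroDivisors (SS k N d))
  exact Algebra.EssFiniteType.comp k (SS k N d) (LS k N d)

/-- inclusion -/
def ps (k : Type) [Field k] (N d : ℕ) : SS k N d →ₐ[k] LS k N d :=
  IsScalarTower.toAlgHom k (SS k N d) _

theorem ps_inj : Function.Injective (ps k N d) := IsFractionRing.injective (SS k N d) (LS k N d)

theorem ps_eq_zero {x : SS k N d} : ps k N d x = 0 ↔ x = 0 := by
  rw [← map_zero (ps k N d)]
  exact ps_inj.eq_iff

variable [IsAlgClosed k] {D : SS k N d} {w : ℕ}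

/-- The coordinate ring embeds into the field of rational functions. -/
theorem exists_emb [CharZero k] (hNd : 0 < N + d) (hD : Dyn.IsSemi w D)
    (hDN : ∀ c, eval c D ≠ 0 ↔ NZ (tup c)) (hDne : D ≠ 0) :
    ∃ j : coordRing k N d →ₐ[k] LS k N d, Function.Injective j ∧
      ∀ (h : coordRing k N d) (m : ℕ) (P : SS k N d), Rep D w h.1 m P →
        j h * ps k N d D ^ m = ps k N d P := by
  have hDs : ps k N d D ≠ 0 := by rwa [Ne, ps_eq_zero]
  choose μ Q hQ using fun h : coordRing k N d => exists_rep hNd hD hDN hDne h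
  let f : coordRing k N d → LS k N d := fun h => ps k N d (Q h) / ps k N d D ^ μ h
  have hf : ∀ (h : coordRing k N d) (m : ℕ) (P : SS k N d), Rep D w h.1 m P →
      f h * ps k N d D ^ m = ps k N d P := by
    intro h m P hP
    have h1 := congrArg (ps k N d) (Rep.unique hDN hDne (hQ h) hP)
    rw [map_mul, map_mul, map_pow, map_pow] at h1
    change ps k N d (Q h) / ps k N d D ^ μ h * ps k N d D ^ m = _
    rw [div_mul_eq_mul_div, h1, mul_div_cancel_right₀ _ (pow_ne_zero _ hDs)]
  have hc : ∀ a : k, f (algebraMap k _ a) = algebraMap k _ a := by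
    intro a
    have h1 := hf (algebraMap k _ a) 0 (C a * D ^ 0) (Rep.const hD a 0)
    rw [pow_zero, pow_zero, mul_one, mul_one, algHom_C] at h1
    exact h1
  let j : coordRing k N d →ₐ[k] LS k N d :=
    { toFun := f
      map_one' := by
        have := hc 1
        rwa [map_one, map_one] at this
      map_zero' := by
        have := hc 0
        rwa [map_zero, map_zero] at this
      map_mul' := by
        intro a b
        have h1 := hf (a * b) _ _ ((hQ a).mul (hQ b))
        have h2 := hf a _ _ (hQ a)
        have h3 := hf b _ _ (hQ b)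
        rw [map_mul, ← h2, ← h3, pow_add] at h1
        have h4 : ps k N d D ^ μ a * ps k N d D ^ μ b ≠ 0 :=
          mul_ne_zero (pow_ne_zero _ hDs) (pow_ne_zero _ hDs)
        apply mul_right_cancel₀ h4
        rw [h1]
        ring
      map_add' := by
        intro a b
        have h1 := hf (a + b) _ _ (((hQ a).lift hD (μ b)).add_same
          (by rw [add_comm]; exact (hQ b).lift hD (μ a)))
        have h2 := hf a _ _ (hQ a)
        have h3 := hf b _ _ (hQ b)
        rw [map_add, map_mul, map_mul, map_pow, map_pow, ← h2, ← h3, pow_add] at h1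
        have h4 : ps k N d D ^ μ a * ps k N d D ^ μ b ≠ 0 :=
          mul_ne_zero (pow_ne_zero _ hDs) (pow_ne_zero _ hDs)
        apply mul_right_cancel₀ h4
        rw [h1]
        ring
      commutes' := hc }
  refine ⟨j, ?_, hf⟩
  rw [injective_iff_map_eq_zero]
  intro h hh
  have h1 := hf h _ _ (hQ h)
  have h2 : f h = 0 := hh
  rw [h2, zero_mul, eq_comm, ps_eq_zero] at h1
  apply Subtype.ext
  funext x
  obtain ⟨F, rfl⟩ := cls_surjective x
  obtain ⟨c, hc, rfl⟩ := exists_mkE F
  have h3 := (hQ h).2 c hc
  rw [h1, map_zero] at h3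
  exact (mul_eq_zero.mp h3).resolve_right (pow_ne_zero _ ((hDN c).mpr hc))

/-- differentials of semi-invariants vanish on the tangent space -/
theorem om_xi [CharZero k] (hD : Dyn.IsSemi w D) {m : ℕ} {P : SS k N d}
    (hP : Dyn.IsSemi (w * m) P) (Z : Matrix (Fin (N + 1)) (Fin (N + 1)) k) (c : Ix N d → k) :
    ∑ p, xi Z c p * eval c (om D P m p) = 0 := by
  have hinf : Infinite k := inferInstance
  rw [eval_om, semi_lie hP, semi_lie hD]
  push_cast
  ring

theorem om_xi_gen [CharZero k] (hD : Dyn.IsSemi w D) {m : ℕ} {P : SS k N d}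
    (hP : Dyn.IsSemi (w * m) P) (Z : Matrix (Fin (N + 1)) (Fin (N + 1)) (LS k N d)) :
    ∑ p, xi Z (fun p => ps k N d (X p)) p * ps k N d (om D P m p) = 0 := by
  have hinf : Infinite k := inferInstance
  have h1 : ∀ i j, ∑ p, xi (Matrix.single i j (1 : SS k N d)) X p * om D P m p = 0 := by
    intro i j
    apply MvPolynomial.funext
    intro c
    rw [map_zero, map_sum, ← om_xi hD hP (Matrix.single i j 1) c]
    refine Finset.sum_congr rfl fun p _ => ?_
    rw [map_mul, map_xi]
    congr 2
    · ext a b
      simp [Matrix.single_apply]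
    · funext q
      exact eval_X _
  have h2 : ∀ i j p, xi (Matrix.single i j (1 : LS k N d)) (fun p => ps k N d (X p)) p =
      ps k N d (xi (Matrix.single i j (1 : SS k N d)) X p) := by
    intro i j p
    have := map_xi (ps k N d).toRingHom (Matrix.single i j (1 : SS k N d)) X p
    change ps k N d (xi (Matrix.single i j (1 : SS k N d)) X p) = _ at this
    rw [this]
    congr 1
    ext a b
    simp [Matrix.single_apply]
  rw [xi_sum Z]
  simp only [Finset.sum_apply, Pi.smul_apply, smul_eq_mul, Finset.sum_mul]
  rw [Finset.sum_comm]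
  apply Finset.sum_eq_zero
  intro i _
  rw [Finset.sum_comm]
  apply Finset.sum_eq_zero
  intro j _
  have h3 := congrArg (ps k N d) (h1 i j)
  rw [map_zero, map_sum] at h3
  calc _ = Z i j * ∑ p, ps k N d (xi (Matrix.single i j (1 : SS k N d)) X p * om D P m p) := by
        rw [Finset.mul_sum]
        refine Finset.sum_congr rfl fun p _ => ?_
        rw [h2, map_mul]
        ring
    _ = 0 := by rw [h3, mul_zero]

/-- the generic infinitesimal stabilizer vanishes -/
theorem xi_gen_inj [CharZero k] (hd : 2 ≤ d) (hDN : ∀ c, eval c D ≠ 0 ↔ NZ (tup c))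
    (hDne : D ≠ 0) : LinearMap.ker (xiL fun p => ps k N d (X p)) = ⊥ := by
  have hinf : Infinite k := inferInstance
  rw [LinearMap.ker_eq_bot']
  intro Z hZ
  have hZ' : xi Z (fun p => ps k N d (X p)) = 0 := hZ
  obtain ⟨s, hs⟩ := IsLocalization.exist_integer_multiples_of_finite
    (nonZeroDivisors (SS k N d)) (fun q : Fin (N + 1) × Fin (N + 1) => Z q.1 q.2)
  choose B hB using hs
  let Bm : Matrix (Fin (N + 1)) (Fin (N + 1)) (SS k N d) := Matrix.of fun i j => B (i, j)
  have hBm : Bm.map (ps k N d) = ps k N d s • Z := by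
    ext i j
    rw [Matrix.map_apply, Matrix.smul_apply]
    change ps k N d (B (i, j)) = _
    have := hB (i, j)
    change ps k N d (B (i, j)) = _ at this
    rw [this]
    change (s : SS k N d) • Z i j = ps k N d s * Z i j
    rw [Algebra.smul_def]
    rfl
  have h1 : xi Bm X = 0 := by
    funext p
    rw [Pi.zero_apply, ← ps_eq_zero]
    have h2 := map_xi (ps k N d).toRingHom Bm X p
    change ps k N d (xi Bm X p) = xi (Bm.map (ps k N d)) (fun p => ps k N d (X p)) p at h2
    rw [h2, hBm, xi_smul, hZ', smul_zero, Pi.zero_apply]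
  have h2 : ∀ i j, Bm i j = 0 := by
    intro i j
    by_contra hne
    have h3 : D * Bm i j ≠ 0 := mul_ne_zero hDne hne
    have h4 : ∃ c, eval c (D * Bm i j) ≠ 0 := by
      by_contra hcon
      push Not at hcon
      exact h3 (MvPolynomial.funext fun c => by rw [hcon c, map_zero])
    obtain ⟨c, hc⟩ := h4
    rw [map_mul, mul_ne_zero_iff] at hc
    have h5 : xi (Bm.map (eval c)) c = 0 := by
      funext p
      have h6 := map_xi (eval c) Bm X p
      rw [h1, Pi.zero_apply, map_zero] at h6
      simp only [eval_X] at h6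
      exact h6.symm
    have h7 := xi_inj hd ((hDN c).mp hc.1) h5
    exact hc.2 (congrFun (congrFun h7 i) j)
  have hs0 : ps k N d s ≠ 0 := by
    rw [Ne, ps_eq_zero]
    exact nonZeroDivisors.ne_zero s.2
  ext i j
  have h3 := congrFun (congrFun hBm i) j
  rw [Matrix.map_apply, h2, map_zero, Matrix.smul_apply, smul_eq_mul] at h3
  exact (mul_eq_zero.mp h3.symm).resolve_left hs0

/-- chain rule for ring homomorphisms to the dual numbers -/
theorem dual_ps (φ : LS k N d →+* DualNumber (LS k N d)) (h1 : ∀ a, (φ a).fst = a)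
    (h2 : ∀ a : k, φ (algebraMap k (LS k N d) a) = algebraMap k (DualNumber (LS k N d)) a)
    (Q : SS k N d) : (φ (ps k N d Q)).snd =
      ∑ p, (φ (ps k N d (X p))).snd * ps k N d (pderiv p Q) := by
  let ι := algebraMap (LS k N d) (DualNumber (LS k N d))
  let u : Ix N d → LS k N d := fun p => (φ (ps k N d (X p))).snd
  have e1 : φ (ps k N d Q) = aeval (fun p => ι (ps k N d (X p)) +
      DualNumber.eps * ι (u p)) Q := by
    induction Q using MvPolynomial.induction_on with
    | C a => rw [algHom_C, algHom_C, h2]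
    | add p q hp hq => rw [map_add, map_add, map_add, hp, hq]
    | mul_X p i hp =>
      rw [map_mul, map_mul, map_mul, hp, aeval_X]
      congr 1
      apply TrivSqZeroExt.ext
      · rw [h1, fst_form]
      · rw [snd_form]
  rw [e1, aeval_dual, snd_form]
  refine Finset.sum_congr rfl fun p _ => ?_
  have e2 : ∀ R : SS k N d, aeval (fun p => ps k N d (X p)) R = ps k N d R := by
    intro R
    have := comp_aeval_apply (X : Ix N d → SS k N d) (ps k N d) R
    rw [aeval_X_left_apply] at this
    exact this.symm
  rw [e2]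

/-- Upper bound for the transcendence degree of the coordinate ring. -/
theorem dim_le [CharZero k] (hd : 2 ≤ d) (hD : Dyn.IsSemi w D)
    (hDN : ∀ c, eval c D ≠ 0 ↔ NZ (tup c)) (hDne : D ≠ 0) {e : ℕ}
    (x : Fin e → coordRing k N d) (hx : ∀ f : MvPolynomial (Fin e) k, aeval x f = 0 → f = 0) :
    e + (N + 1) * (N + 1) ≤ Fintype.card (Ix N d) := by
  obtain ⟨j, hj1, hj2⟩ := exists_emb (by omega) hD hDN hDne
  choose m P hP using fun i => exists_rep (by omega) hD hDN hDne (x i)
  have hDs : ps k N d D ≠ 0 := by rwa [Ne, ps_eq_zero]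
  have hind : ∀ f : MvPolynomial (Fin e) k, aeval (fun i => j (x i)) f = 0 → f = 0 := by
    intro f hf
    apply hx
    apply hj1
    rw [map_zero, ← hf]
    exact comp_aeval_apply x j f
  let T : (Ix N d → LS k N d) →ₗ[LS k N d] (Fin e → LS k N d) :=
    { toFun := fun u i => ∑ p, u p * ps k N d (om D (P i) (m i) p)
      map_add' := by
        intro u v
        funext i
        simp only [Pi.add_apply, add_mul, Finset.sum_add_distrib]
      map_smul' := by
        intro r u
        funext i
        simp only [Pi.smul_apply, smul_eq_mul, RingHom.id_apply, Finset.mul_sum, mul_assoc] }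
  have hT : Function.Surjective T := by
    intro v
    obtain ⟨φ, h1, h2, h3⟩ := exists_dual_ext (k := k) (L := LS k N d)
      (fun i => j (x i)) (fun i => v i / ps k N d D ^ (m i + 1)) (by
      intro Q hQ
      rw [hind Q hQ]
      simp)
    refine ⟨fun p => (φ (ps k N d (X p))).snd, ?_⟩
    funext i
    change ∑ p, (φ (ps k N d (X p))).snd * ps k N d (om D (P i) (m i) p) = v i
    have e1 := hj2 (x i) (m i) (P i) (hP i)
    have e2 := congrArg (fun z => (φ z).snd) e1
    simp only [map_mul, DualNumber.snd_mul] at e2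
    rw [h1, h3, ← map_pow, h1, dual_ps φ h1 h2, dual_ps φ h1 h2] at e2
    -- derivative of the power
    have e3 : ps k N d D * ∑ p, (φ (ps k N d (X p))).snd * ps k N d (pderiv p (D ^ m i)) =
        (m i : LS k N d) * ps k N d D ^ m i *
          ∑ p, (φ (ps k N d (X p))).snd * ps k N d (pderiv p D) := by
      rw [Finset.mul_sum, Finset.mul_sum]
      refine Finset.sum_congr rfl fun p _ => ?_
      rw [Derivation.leibniz_pow]
      simp only [smul_eq_mul, nsmul_eq_mul, map_mul, map_natCast, map_pow]
      cases hm : m i with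
      | zero => simp
      | succ m' =>
        rw [Nat.add_sub_cancel, pow_succ]
        ring
    have e4 : ∑ p, (φ (ps k N d (X p))).snd * ps k N d (om D (P i) (m i) p) =
        ps k N d D * ∑ p, (φ (ps k N d (X p))).snd * ps k N d (pderiv p (P i)) -
        (m i : LS k N d) * ps k N d (P i) *
          ∑ p, (φ (ps k N d (X p))).snd * ps k N d (pderiv p D) := by
      rw [Finset.mul_sum, Finset.mul_sum, ← Finset.sum_sub_distrib]
      refine Finset.sum_congr rfl fun p _ => ?_
      unfold om
      rw [map_sub, map_mul, map_mul, map_mul, map_natCast]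
      ring
    rw [map_pow] at e2
    rw [e4, ← e2, ← e1]
    have e5 : v i / ps k N d D ^ (m i + 1) * ps k N d D ^ m i * ps k N d D = v i := by
      rw [mul_assoc, ← pow_succ, div_mul_cancel₀ _ (pow_ne_zero _ hDs)]
    linear_combination (j (x i)) * e3 + e5
  have hle : LinearMap.range (xiL fun p => ps k N d (X p)) ≤ LinearMap.ker T := by
    rintro _ ⟨Z, rfl⟩
    rw [LinearMap.mem_ker]
    funext i
    exact om_xi_gen hD (hP i).1 Z
  have h1 := Submodule.finrank_mono hle
  have h2 : Module.finrank (LS k N d) (LinearMap.range (xiL fun p => ps k N d (X p))) =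
      (N + 1) * (N + 1) := by
    rw [LinearMap.finrank_range_of_inj (LinearMap.ker_eq_bot.mp (xi_gen_inj hd hDN hDne)),
      Module.finrank_matrix]
    simp
  have h3 := LinearMap.finrank_range_add_finrank_ker T
  rw [LinearMap.range_eq_top.mpr hT, finrank_top, Module.finrank_fintype_fun_eq_card,
    Module.finrank_fintype_fun_eq_card, Fintype.card_fin] at h3
  omega

end

end Pool.Agent.Y217
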