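import Pool.Agent.Y593.LG.Defs
set_option autoImplicit false
open Set Filter Topology
open scoped ContDiff

/-!
# Project HG (helper593), job HG-D: non-degeneracy (helper217, after helper480)
-/

namespace Pool.Agent.Y217.HGD

open Pool.Agent.H660R3 Real Pool.Agent.Y593.LG

variable {n : ℕ}

theorem sum_sig (S : CS n) (f : Fin n → ℝ) : ∑ i : Fin n, f (S.σ i) = ∑ i : Fin n, f i :=
  Equiv.sum_comp (Function.Involutive.toPerm S.σ S.inv) f

theorem n2_pos {y : EE n} (h : y ≠ 0) : 0 < n2 y := by
  have h1 : 0 ≤ n2 y := by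
    unfold n2
    exact Finset.sum_nonneg fun i _ => sq_nonneg _
  refine lt_of_le_of_ne h1 fun h2 => h ?_
  unfold n2 at h2
  have h3 := (Finset.sum_eq_zero_iff_of_nonneg
    (fun i (_ : i ∈ (Finset.univ : Finset (Fin n))) => sq_nonneg (y i))).1 h2.symm
  ext i
  have h4 := h3 i (Finset.mem_univ i)
  have h5 : y i = 0 := by simpa using h4
  simpa using h5

theorem ip_self (y : EE n) : ip y y = n2 y := by
  unfold ip n2
  exact Finset.sum_congr rfl fun i _ => by ring

theorem jp_self (S : CS n) (y : EE n) : jp S y y = 0 := by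
  have h1 := sum_sig S (fun i => S.s i * y i * y (S.σ i))
  have h2 : ∑ i : Fin n, S.s (S.σ i) * y (S.σ i) * y (S.σ (S.σ i)) =
      - ∑ i : Fin n, S.s i * y i * y (S.σ i) := by
    rw [← Finset.sum_neg_distrib]
    refine Finset.sum_congr rfl fun i _ => ?_
    rw [S.neg, S.inv]
    ring
  simp only at h1
  rw [h2] at h1
  unfold jp
  linarith

theorem jp_swap (S : CS n) (y u : EE n) : jp S u y = - jp S y u := by
  have h1 := sum_sig S (fun i => S.s i * u i * y (S.σ i))
  have h2 : ∑ i : Fin n, S.s (S.σ i) * u (S.σ i) * y (S.σ (S.σ i)) =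
      - ∑ i : Fin n, S.s i * y i * u (S.σ i) := by
    rw [← Finset.sum_neg_distrib]
    refine Finset.sum_congr rfl fun i _ => ?_
    rw [S.neg, S.inv]
    ring
  simp only at h1
  rw [h2] at h1
  unfold jp
  exact h1.symm

/-- the vector `Jy` -/
noncomputable def JJ (S : CS n) (y : EE n) : EE n :=
  WithLp.toLp 2 (fun j => - S.s j * y (S.σ j))

theorem JJ_apply (S : CS n) (y : EE n) (j : Fin n) : JJ S y j = - S.s j * y (S.σ j) := rfl

theorem jp_JJ (S : CS n) (y u : EE n) : jp S u (JJ S y) = ip y u := by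
  unfold jp ip
  refine Finset.sum_congr rfl fun i _ => ?_
  rw [JJ_apply, S.neg, S.inv]
  have := S.sq i
  linear_combination (u i * y i) * this

theorem jp_single (S : CS n) (u : EE n) (i : Fin n) :
    jp S u (EuclideanSpace.single (S.σ i) (1 : ℝ)) = S.s i * u i := by
  unfold jp
  rw [Finset.sum_eq_single i]
  · simp
  · intro j _ hj
    have : S.σ j ≠ S.σ i := fun e => hj (by rw [← S.inv j, e, S.inv])
    simp [this]
  · intro h
    exact absurd (Finset.mem_univ i) h

theorem nondeg (S : CS n) {ε K : ℝ} (hε : 0 ≤ ε) (hK : ∀ t, |ee n t| ≤ K) (hεK : ε * (1 + K) < 1)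
    {y : EE n} (hy : y ≠ 0) (u : EE n)
    (h : ∀ v, ε * (dW y u * (jp S y v / n2 y) - dW y v * (jp S y u / n2 y)) + d0 S y u v -
      (al y u * (jp S y v / n2 y) - al y v * (jp S y u / n2 y)) = 0) : u = 0 := by
  have hn : 0 < n2 y := n2_pos hy
  have hL : 0 < Real.log 2 := Real.log_pos (by norm_num)
  have hn' := hn.ne'
  have hL' := hL.ne'
  have hipy : ip y y = n2 y := ip_self y
  have hjpy : jp S y y = 0 := jp_self S y
  have hjuy : jp S u y = - jp S y u := jp_swap S y u
  -- the value of `dW y y`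
  have hdW : dW y y =
      ∑ i : Fin n, y i ^ 2 / n2 y * ((1 - ee n (th y - (i : ℕ) / n)) / Real.log 2) := by
    unfold dW
    refine Finset.sum_congr rfl fun i _ => ?_
    rw [hipy]
    field_simp
    ring
  have hsum : ∑ i : Fin n, y i ^ 2 / n2 y = 1 := by
    rw [← Finset.sum_div, div_eq_one_iff_eq hn']
    rfl
  have hb : |dW y y| ≤ (1 + K) / Real.log 2 := by
    rw [hdW]
    calc |∑ i : Fin n, y i ^ 2 / n2 y * ((1 - ee n (th y - (i : ℕ) / n)) / Real.log 2)|
        ≤ ∑ i : Fin n, |y i ^ 2 / n2 y * ((1 - ee n (th y - (i : ℕ) / n)) / Real.log 2)| :=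
          Finset.abs_sum_le_sum_abs _ _
      _ ≤ ∑ i : Fin n, y i ^ 2 / n2 y * ((1 + K) / Real.log 2) := by
          refine Finset.sum_le_sum fun i _ => ?_
          have h0 : 0 ≤ y i ^ 2 / n2 y := by positivity
          rw [abs_mul, abs_of_nonneg h0, abs_div, abs_of_pos hL]
          refine mul_le_mul_of_nonneg_left ?_ h0
          refine div_le_div_of_nonneg_right ?_ hL.le
          have h1 := hK (th y - (i : ℕ) / n)
          rw [abs_le] at h1 ⊢
          constructor <;> linarith [h1.1, h1.2]
      _ = _ := by rw [← Finset.sum_mul, hsum, one_mul]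
  have hpos : 0 < 1 / Real.log 2 - ε * dW y y := by
    have h1 : ε * dW y y ≤ ε * ((1 + K) / Real.log 2) :=
      mul_le_mul_of_nonneg_left ((le_abs_self _).trans hb) hε
    have h2 : ε * ((1 + K) / Real.log 2) < 1 / Real.log 2 := by
      rw [← mul_div_assoc]
      exact div_lt_div_of_pos_right hεK hL
    linarith
  have haly : al y y = 1 / Real.log 2 := by
    unfold al
    rw [hipy]
    field_simp
  -- first: `jp y u = 0`
  have hju : jp S y u = 0 := by
    have h1 := h y
    rw [hjpy, haly] at h1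
    have h2 : d0 S y u y = 0 := by
      unfold d0
      rw [hjuy, hjpy, hipy]
      field_simp
      ring
    rw [h2] at h1
    have h3 : (1 / Real.log 2 - ε * dW y y) * (jp S y u / n2 y) = 0 := by
      linear_combination h1
    rcases mul_eq_zero.1 h3 with h4 | h4
    · exact absurd h4 hpos.ne'
    · exact (div_eq_zero_iff.1 h4).resolve_right hn'
  -- second: `ε dW y u = al y u`
  have hd0 : ∀ v, d0 S y u v = 2 * jp S u v / n2 y - 2 * (ip y u * jp S y v) / n2 y ^ 2 := by
    intro v
    unfold d0
    rw [hju]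
    ring
  have he : ε * dW y u = al y u := by
    have h1 := h (JJ S y)
    rw [hju, hd0] at h1
    have a1 : jp S y (JJ S y) = n2 y := by rw [jp_JJ, ip_self]
    have a2 : jp S u (JJ S y) = ip y u := jp_JJ S y u
    rw [a1, a2] at h1
    have a3 : 2 * ip y u / n2 y - 2 * (ip y u * n2 y) / n2 y ^ 2 = 0 := by
      field_simp
      ring
    rw [a3, div_self hn'] at h1
    linear_combination h1
  -- third: `jp u v = c jp y v`
  obtain ⟨c, hc⟩ : ∃ c, c = ip y u / n2 y := ⟨_, rfl⟩
  have hv : ∀ v, jp S u v = c * jp S y v := by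
    intro v
    have h1 := h v
    rw [hju, hd0] at h1
    have h2 : 2 * jp S u v / n2 y - 2 * (ip y u * jp S y v) / n2 y ^ 2 = 0 := by
      linear_combination h1 - jp S y v / n2 y * he
    rw [hc]
    field_simp at h2 ⊢
    linarith
  have hu : u = c • y := by
    ext i
    have h1 := hv (EuclideanSpace.single (S.σ i) (1 : ℝ))
    rw [jp_single, jp_single] at h1
    have h2 := S.sq i
    simp only [PiLp.smul_apply, smul_eq_mul]
    linear_combination (S.s i) * h1 - (u i - c * y i) * h2
  have hipc : ip y u = c * n2 y := by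
    rw [hc]
    field_simp
  have hdWc : dW y u = c * dW y y := by
    unfold dW
    rw [Finset.mul_sum]
    refine Finset.sum_congr rfl fun i _ => ?_
    rw [hipc, hipy, hu]
    simp only [PiLp.smul_apply, smul_eq_mul]
    ring
  have halc : al y u = c * (1 / Real.log 2) := by
    unfold al
    rw [hipc]
    field_simp
  rw [hdWc, halc] at he
  have h3 : c * (1 / Real.log 2 - ε * dW y y) = 0 := by linear_combination -he
  rcases mul_eq_zero.1 h3 with h4 | h4
  · rw [hu, h4, zero_smul]
  · exact absurd h4 hpos.ne'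

end Pool.Agent.Y217.HGD
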