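import Pool.Agent.Y217.Reg
import Pool.Agent.Y217.Bad2

/-!
The Jacobian determinant of a system of generators of the maximal ideal.
-/

open MvPolynomial

namespace Pool.Agent.Y217

open Pool.Agent.Helper819 Pool.Agent.Helper819.Apolar Pool.Agent.Helper819.Dyn

noncomputable section

variable {k : Type} [Field k] [IsAlgClosed k] [CharZero k] {N d : ℕ} {D : SS k N d} {w : ℕ}

/-- A complement of the tangent space, and a polynomial detecting transversality. -/
theorem exists_compl (hd : 2 ≤ d) {f : Ix N d → k} (hf : NZ (tup f)) :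
    ∃ (e : ℕ) (u : Fin e → Ix N d → k) (g : SS k N d),
      e + (N + 1) * (N + 1) = Fintype.card (Ix N d) ∧ eval f g ≠ 0 ∧
      (∀ v : Ix N d → k, ∃ (Z : Matrix (Fin (N + 1)) (Fin (N + 1)) k) (t : Fin e → k),
        v = xi Z f + ∑ i, t i • u i) ∧
      ∀ c : Ix N d → k, eval c g ≠ 0 → ∀ (Z : Matrix (Fin (N + 1)) (Fin (N + 1)) k)
        (t : Fin e → k), xi Z c = ∑ i, t i • u i → t = 0 := by
  classical
  let W : Submodule k (Ix N d → k) := LinearMap.range (xiL f)
  obtain ⟨Cc, hC⟩ := Submodule.exists_isCompl W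
  let e := Module.finrank k Cc
  let bb := Module.finBasis k Cc
  let u : Fin e → Ix N d → k := fun i => (bb i : Ix N d → k)
  have hinj : Function.Injective (xiL f) := by
    rw [← LinearMap.ker_eq_bot, LinearMap.ker_eq_bot']
    intro Z hZ
    exact xi_inj hd hf hZ
  have hcard : e + (N + 1) * (N + 1) = Fintype.card (Ix N d) := by
    have h1 := Submodule.finrank_add_eq_of_isCompl hC
    have h2 : Module.finrank k W = (N + 1) * (N + 1) := by
      change Module.finrank k (LinearMap.range (xiL f)) = _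
      rw [LinearMap.finrank_range_of_inj hinj, Module.finrank_matrix]
      simp
    rw [h2, Module.finrank_fintype_fun_eq_card] at h1
    change Module.finrank k Cc + _ = _
    omega
  have hcard2 : Fintype.card ((Fin (N + 1) × Fin (N + 1)) ⊕ Fin e) = Fintype.card (Ix N d) := by
    rw [Fintype.card_sum, Fintype.card_prod, Fintype.card_fin, Fintype.card_fin, ← hcard]
    ring
  let ε : (Fin (N + 1) × Fin (N + 1)) ⊕ Fin e ≃ Ix N d := Fintype.equivOfCardEq hcard2
  -- the family of vectors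
  let fam : ((Fin (N + 1) × Fin (N + 1)) ⊕ Fin e) → Ix N d → SS k N d := fun s =>
    Sum.elim (fun q => xi (Matrix.single q.1 q.2 1) X) (fun i p => C (u i p)) s
  let Mt : Matrix (Ix N d) (Ix N d) (SS k N d) := Matrix.of fun p q => fam (ε.symm q) p
  have hev : ∀ (c : Ix N d → k) (Z : Matrix (Fin (N + 1)) (Fin (N + 1)) k) (t : Fin e → k),
      (Mt.map (eval c)).mulVec (fun q => Sum.elim (ent Z) t (ε.symm q)) =
        xi Z c + ∑ i, t i • u i := by
    intro c Z t
    funext p
    rw [Matrix.mulVec, dotProduct]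
    have h1 : ∑ q, (Mt.map (eval c)) p q * Sum.elim (ent Z) t (ε.symm q) =
        ∑ s, eval c (fam s p) * Sum.elim (ent Z) t s := by
      rw [← Equiv.sum_comp ε]
      refine Finset.sum_congr rfl fun s _ => ?_
      rw [ε.symm_apply_apply, Matrix.map_apply]
      change eval c (fam (ε.symm (ε s)) p) * _ = _
      rw [ε.symm_apply_apply]
    rw [h1, Fintype.sum_sum_type, Pi.add_apply, xi_sum Z, Finset.sum_apply, Finset.sum_apply,
      Fintype.sum_prod_type]
    congr 1
    · refine Finset.sum_congr rfl fun i _ => ?_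
      rw [Finset.sum_apply]
      refine Finset.sum_congr rfl fun j _ => ?_
      rw [Pi.smul_apply, smul_eq_mul, mul_comm]
      congr 1
      change eval c (xi (Matrix.single i j 1) X p) = _
      rw [map_xi]
      congr 1
      · ext a b
        simp [Matrix.single_apply]
      · funext q
        exact eval_X _
    · refine Finset.sum_congr rfl fun i _ => ?_
      rw [Pi.smul_apply, smul_eq_mul, mul_comm]
      congr 1
      change eval c (C (u i p)) = _
      rw [eval_C]
  have hdetne : ∀ c : Ix N d → k, eval c Mt.det ≠ 0 ↔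
      ∀ (Z : Matrix (Fin (N + 1)) (Fin (N + 1)) k) (t : Fin e → k),
        xi Z c + ∑ i, t i • u i = 0 → Z = 0 ∧ t = 0 := by
    intro c
    rw [RingHom.map_det, RingHom.mapMatrix_apply]
    constructor
    · intro hne Z t h0
      rw [← hev] at h0
      have h1 := Matrix.eq_zero_of_mulVec_eq_zero hne h0
      constructor
      · ext i j
        have h2 := congrFun h1 (ε (Sum.inl (i, j)))
        simp only [ε.symm_apply_apply] at h2
        exact h2
      · funext i
        have h2 := congrFun h1 (ε (Sum.inr i))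
        simp only [ε.symm_apply_apply] at h2
        exact h2
    · intro h h0
      obtain ⟨v, hv0, hv⟩ := Matrix.exists_mulVec_eq_zero_iff.mpr h0
      let Z : Matrix (Fin (N + 1)) (Fin (N + 1)) k :=
        Matrix.of fun i j => v (ε (Sum.inl (i, j)))
      let t : Fin e → k := fun i => v (ε (Sum.inr i))
      have h1 : v = fun q => Sum.elim (ent Z) t (ε.symm q) := by
        funext q
        obtain ⟨s, rfl⟩ := ε.surjective q
        rw [ε.symm_apply_apply]
        cases s with
        | inl s => rfl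
        | inr s => rfl
      rw [h1, hev] at hv
      obtain ⟨h2, h3⟩ := h Z t hv
      apply hv0
      rw [h1, h2, h3]
      funext q
      cases ε.symm q with
      | inl s => rfl
      | inr s => rfl
  refine ⟨e, u, Mt.det, hcard, ?_, ?_, ?_⟩
  · rw [hdetne]
    intro Z t h0
    have h1 : xi Z f = -∑ i, t i • u i := eq_neg_of_add_eq_zero_left h0
    have hmC : ∑ i, t i • u i ∈ Cc := Submodule.sum_mem _ fun i _ =>
      Submodule.smul_mem _ _ (bb i).2
    have hmW : xi Z f ∈ W := ⟨Z, rfl⟩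
    have h2 : xi Z f ∈ W ⊓ Cc := ⟨hmW, by rw [h1]; exact Submodule.neg_mem _ hmC⟩
    rw [hC.inf_eq_bot, Submodule.mem_bot] at h2
    refine ⟨xi_inj hd hf h2, ?_⟩
    rw [h2, zero_add] at h0
    have h3 : ∑ i, t i • bb i = 0 := by
      apply Subtype.ext
      rw [Submodule.coe_sum]
      exact h0
    funext i
    exact Fintype.linearIndependent_iff.mp bb.linearIndependent t h3 i
  · intro v
    have h1 : v ∈ W ⊔ Cc := by rw [hC.sup_eq_top]; trivial
    obtain ⟨a, ⟨Z, hZ⟩, b, hb, hab⟩ := Submodule.mem_sup.mp h1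
    refine ⟨Z, bb.repr ⟨b, hb⟩, ?_⟩
    have h2 := congrArg Subtype.val (bb.sum_repr ⟨b, hb⟩)
    rw [Submodule.coe_sum] at h2
    have h3 : ∑ i, (bb.repr ⟨b, hb⟩) i • u i = b := h2
    rw [h3, ← hab, ← hZ]
    rfl
  · intro c hc Z t h
    have h' := ((hdetne c).mp hc Z (-t) (by rw [h]; simp)).2
    exact neg_eq_zero.mp h'

/-- The Jacobian matrix on a complement of the tangent space. -/
def JM {e : ℕ} (D : SS k N d) (u : Fin e → Ix N d → k) (mb : Fin e → ℕ) (Pb : Fin e → SS k N d) :
    Matrix (Fin e) (Fin e) (SS k N d) :=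
  Matrix.of fun i j => ∑ p, C (u i p) * om D (Pb j) (mb j) p

theorem eval_JM {e : ℕ} (u : Fin e → Ix N d → k) (mb : Fin e → ℕ) (Pb : Fin e → SS k N d)
    (c : Ix N d → k) (t : Fin e → k) (j : Fin e) :
    (Matrix.vecMul t ((JM D u mb Pb).map (eval c))) j =
      ∑ p, (∑ i, t i • u i) p * eval c (om D (Pb j) (mb j) p) := by
  rw [Matrix.vecMul, dotProduct]
  simp only [JM, Matrix.map_apply, Matrix.of_apply, map_sum, map_mul, eval_C, Finset.sum_apply,
    Pi.smul_apply, smul_eq_mul, Finset.sum_mul, Finset.mul_sum]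
  rw [Finset.sum_comm]
  exact Finset.sum_congr rfl fun p _ => Finset.sum_congr rfl fun i _ => by ring

theorem jac_free (hd : 2 ≤ d) (hw : 0 < w) (hD : Dyn.IsSemi w D)
    (hDN : ∀ c, eval c D ≠ 0 ↔ NZ (tup c)) {e : ℕ} (u : Fin e → Ix N d → k)
    (mb : Fin e → ℕ) (Pb : Fin e → SS k N d) {r g : SS k N d}
    (hr : ∀ (h : coordRing k N d) (m : ℕ) (P : SS k N d),
      Rep D w h.1 m P → r • om D P m ∈
        Submodule.span (SS k N d) (Set.range fun j => om D (Pb j) (mb j)))
    (hg : ∀ c : Ix N d → k, eval c g ≠ 0 → ∀ (Z : Matrix (Fin (N + 1)) (Fin (N + 1)) k)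
        (t : Fin e → k), xi Z c = ∑ i, t i • u i → t = 0)
    {c : Ix N d → k} (hc : NZ (tup c)) (hrc : eval c r ≠ 0) (hgc : eval c g ≠ 0)
    (hfree : Free c) : eval c (JM D u mb Pb).det ≠ 0 := by
  rw [RingHom.map_det, RingHom.mapMatrix_apply]
  intro h0
  obtain ⟨t, ht0, ht⟩ := Matrix.exists_vecMul_eq_zero_iff.mpr h0
  obtain ⟨Z, hZ⟩ := kernel_free hd hw hD hDN mb Pb hr hc hrc hfree (∑ i, t i • u i) (by
    intro j
    rw [← eval_JM, ht]
    rfl)
  exact ht0 (hg c hgc Z t hZ)

/-- The Jacobian determinant does not vanish at `f`. -/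
theorem jac_ne (hN : 2 ≤ N) (hd : 2 ≤ d) (hw : 0 < w) (hD : Dyn.IsSemi w D)
    (hDN : ∀ c, eval c D ≠ 0 ↔ NZ (tup c)) {f : Ix N d → k} (hf : NZ (tup f))
    {e : ℕ} (u : Fin e → Ix N d → k)
    (mb : Fin e → ℕ) (Pb : Fin e → SS k N d) {r g : SS k N d} (hrf : eval f r ≠ 0)
    (hgf : eval f g ≠ 0)
    (hr : ∀ (h : coordRing k N d) (m : ℕ) (P : SS k N d),
      Rep D w h.1 m P → r • om D P m ∈
        Submodule.span (SS k N d) (Set.range fun j => om D (Pb j) (mb j)))
    (hg : ∀ c : Ix N d → k, eval c g ≠ 0 → ∀ (Z : Matrix (Fin (N + 1)) (Fin (N + 1)) k)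
        (t : Fin e → k), xi Z c = ∑ i, t i • u i → t = 0) :
    eval f (JM D u mb Pb).det ≠ 0 := by
  intro h0
  have hDf : eval f D ≠ 0 := (hDN f).mpr hf
  have hG : eval f (D * (r * g)) ≠ 0 := by
    rw [map_mul, map_mul]
    exact mul_ne_zero hDf (mul_ne_zero hrf hgf)
  obtain ⟨π, hπ, hπΔ, hπf⟩ : ∃ π : SS k N d, Prime π ∧ π ∣ (JM D u mb Pb).det ∧ eval f π = 0 := by
    by_cases hz : (JM D u mb Pb).det = 0
    · obtain ⟨F, hF⟩ := UniqueFactorizationMonoid.exists_prime_factors
        (X (0, ⟨Finsupp.single 0 d, (mem_Ex _).mpr (Finsupp.degree_single _ _)⟩) -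
          C (f (0, ⟨Finsupp.single 0 d, (mem_Ex _).mpr (Finsupp.degree_single _ _)⟩)) :
            SS k N d) (by
        intro h
        have h1 := congrArg (eval (fun p => f p + 1)) h
        rw [map_sub, eval_X, eval_C, map_zero] at h1
        simp at h1)
      obtain ⟨v, hv⟩ := hF.2
      have h1 : eval f F.prod = 0 := by
        have h2 := congrArg (eval f) hv
        rw [map_mul, map_sub, eval_X, eval_C, sub_self] at h2
        exact (mul_eq_zero.mp h2).resolve_right (v.isUnit.map (eval f)).ne_zero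
      rw [map_multiset_prod, Multiset.prod_eq_zero_iff, Multiset.mem_map] at h1
      obtain ⟨π, hπ, hπ0⟩ := h1
      exact ⟨π, hF.1 π hπ, by rw [hz]; exact dvd_zero _, hπ0⟩
    · obtain ⟨F, hF⟩ := UniqueFactorizationMonoid.exists_prime_factors _ hz
      obtain ⟨v, hv⟩ := hF.2
      have h1 : eval f F.prod = 0 := by
        have h2 := congrArg (eval f) hv
        rw [map_mul, h0] at h2
        exact (mul_eq_zero.mp h2).resolve_right (v.isUnit.map (eval f)).ne_zero
      rw [map_multiset_prod, Multiset.prod_eq_zero_iff, Multiset.mem_map] at h1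
      obtain ⟨π, hπ, hπ0⟩ := h1
      refine ⟨π, hF.1 π hπ, ?_, hπ0⟩
      rw [← hv]
      exact (Multiset.dvd_prod hπ).mul_right _
  obtain ⟨c, hc1, hc2, hc3⟩ := exists_free_zero hN hd hDN hπ (g := D * (r * g)) (by
    rintro ⟨q, hq⟩
    rw [hq, map_mul, hπf, zero_mul] at hG
    exact hG rfl) (dvd_mul_right _ _)
  rw [map_mul, map_mul, mul_ne_zero_iff, mul_ne_zero_iff] at hc2
  have h1 := jac_free hd hw hD hDN u mb Pb hr hg ((hDN c).mp hc2.1) hc2.2.1 hc2.2.2 hc3
  obtain ⟨q, hq⟩ := hπΔ
  rw [hq, map_mul, hc1, zero_mul] at h1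
  exact h1 rfl

end

end Pool.Agent.Y217
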