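import Pool.Agent.Y217.Orb

/-!
For a map without automorphisms the orbit map is a closed immersion modulo scalars.
-/

open MvPolynomial

namespace Pool.Agent.Y217

open Pool.Agent.Helper819 Pool.Agent.Helper819.Apolar Pool.Agent.Helper819.Dyn

noncomputable section

theorem int_of_val {L : Type} [Field L] (B : Subring L) (x : L)
    (h : ∀ V : ValuationSubring L, B ≤ V.toSubring → x ∈ V) : IsIntegral B x := by
  by_contra hx
  let R : Subring L := (integralClosure B L).toSubring
  have hR : IsIntegrallyClosedIn R L :=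
    inferInstanceAs (IsIntegrallyClosedIn (integralClosure B L) L)
  have hxR : x ∉ R := hx
  obtain ⟨V, hV, hxV⟩ := Subring.exists_le_valuationSubring_of_isIntegrallyClosedIn hxR
  apply hxV
  apply h
  intro b hb
  apply hV
  change IsIntegral B b
  exact isIntegral_algebraMap (R := B) (x := ⟨b, hb⟩)

variable {k : Type} [Field k] {N d : ℕ}

theorem Cd_orb [Infinite k] (c : Ix N d → k) (p : Ix N d) : Cd (N + d) (orb c p) :=
  Cd.of_homog (orb_homog c p) dvd_rfl

theorem Cd_aeval_orb [Infinite k] (c : Ix N d → k) (P : SS k N d) :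
    Cd (N + d) (aeval (orb c) P) := Cd.aeval (Cd_orb c) P

theorem semi_orb [Infinite k] {D : SS k N d} {w : ℕ} (hD : Dyn.IsSemi w D) (c : Ix N d → k) :
    aeval (orb c) D = C (eval c D) * dt (N + 1) k ^ w := by
  apply poly_ext
  intro A _
  rw [eval_aeval_orb, map_mul, map_pow, eval_dt, eval_C, mul_comm]
  exact hD A c

theorem Cd_dt [IsAlgClosed k] [CharZero k] {D : SS k N d} {w : ℕ} (hD : Dyn.IsSemi w D)
    {c : Ix N d → k} (hc : eval c D ≠ 0) : Cd (N + d) (dt (N + 1) k ^ w) := by
  have hinf : Infinite k := inferInstance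
  have h1 : dt (N + 1) k ^ w = C (eval c D)⁻¹ * aeval (orb c) D := by
    rw [semi_orb hD c, ← mul_assoc, ← C_mul, inv_mul_cancel₀ hc, C_1, one_mul]
  rw [h1]
  exact (Cd.C _).mul (Cd_aeval_orb c D)

end

end Pool.Agent.Y217
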