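import Pool.Agent.Y217.LemQ

/-!
For a map without automorphisms the orbit map is a closed immersion modulo scalars.
-/

open MvPolynomial

namespace Pool.Agent.Y217

open Pool.Agent.Helper819 Pool.Agent.Helper819.Apolar Pool.Agent.Helper819.Dyn

noncomputable section

variable {k : Type} [Field k] {N d : ℕ}

abbrev LL (k : Type) [Field k] (N : ℕ) : Type := FractionRing (KA k N)

/-- inclusion -/
def pj (k : Type) [Field k] (N : ℕ) : KA k N →ₐ[k] LL k N := IsScalarTower.toAlgHom k (KA k N) _

theorem pj_inj : Function.Injective (pj k N) := IsFractionRing.injective (KA k N) (LL k N)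

theorem pj_eq_zero {x : KA k N} : pj k N x = 0 ↔ x = 0 := by
  rw [← map_zero (pj k N)]
  exact pj_inj.eq_iff

/-- the generic matrix over the field -/
def gM (k : Type) [Field k] (N : ℕ) : Matrix (Fin (N + 1)) (Fin (N + 1)) (LL k N) :=
  Matrix.of fun i j => pj k N (X (i, j))

theorem pj_eq (x : KA k N) : pj k N x = aeval (ent (gM k N)) x := by
  have : pj k N = aeval (ent (gM k N)) := by
    apply algHom_ext
    intro p
    rw [aeval_X]
    rfl
  rw [this]

theorem det_gM : (gM k N).det = pj k N (dt (N + 1) k) := by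
  rw [← aeval_dt_S (k := k), ← pj_eq]

theorem pj_orb (c : Ix N d → k) (p : Ix N d) :
    pj k N (orb c p) = actT (gM k N) (fun p => algebraMap k (LL k N) (c p)) p := by
  rw [pj_eq, aeval_orb_S]

theorem det_gM_ne : pj k N (dt (N + 1) k) ≠ 0 := by
  rw [Ne, pj_eq_zero]
  exact Matrix.det_mvPolynomialX_ne_zero _ _

/-- coordinates -/
def zz (D : SS k N d) (c : Ix N d → k) : Option (Ix N d) → LL k N := fun o =>
  o.elim (pj k N (aeval (orb c) D))⁻¹ (fun p => pj k N (orb c p))

theorem zz_some (D : SS k N d) (c : Ix N d → k) (P : SS k N d) :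
    aeval (zz D c) (rename some P) = pj k N (aeval (orb c) P) := by
  rw [aeval_rename, comp_aeval_apply (orb c) (pj k N) P]
  rfl

/-- the ring of functions on the orbit -/
abbrev BR (D : SS k N d) (c : Ix N d → k) : Subalgebra k (LL k N) :=
  (aeval (zz D c) : MvPolynomial (Option (Ix N d)) k →ₐ[k] LL k N).range

theorem orb_mem_BR (D : SS k N d) (c : Ix N d → k) (P : SS k N d) :
    pj k N (aeval (orb c) P) ∈ BR D c := ⟨rename some P, zz_some D c P⟩

theorem zz_mem_BR (D : SS k N d) (c : Ix N d → k) (o : Option (Ix N d)) :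
    zz D c o ∈ BR D c := ⟨X o, aeval_X _ _⟩

section

variable [IsAlgClosed k] [CharZero k] {D : SS k N d} {w : ℕ}

theorem val_facts (hd : 2 ≤ d) (hD : Dyn.IsSemi w D) (hw : 0 < w) {c : Ix N d → k}
    (hc : NZ (tup c)) (hDc : eval c D ≠ 0) (V : ValuationSubring (LL k N))
    (hV : (BR D c).toSubring ≤ V.toSubring) :
    (∀ q, pj k N (X q) ∈ V) ∧ (pj k N (dt (N + 1) k))⁻¹ ∈ V := by
  have hinf : Infinite k := inferInstance
  have hk : ∀ a : k, algebraMap k (LL k N) a ∈ V := fun a =>
    hV ((BR D c).algebraMap_mem a)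
  have hz : ∀ o, zz D c o ∈ V := fun o => hV (zz_mem_BR D c o)
  have hO : ∀ p, pj k N (orb c p) ∈ V := fun p => hz (some p)
  have hDorb : pj k N (aeval (orb c) D) =
      algebraMap k (LL k N) (eval c D) * pj k N (dt (N + 1) k) ^ w := by
    rw [semi_orb hD c, map_mul, map_pow, algHom_C]
  have hv1 : V.valuation (pj k N (dt (N + 1) k)) ^ w = 1 := by
    have h1 : V.valuation (algebraMap k (LL k N) (eval c D)) = 1 := by
      have h2 : V.valuation (algebraMap k (LL k N) (eval c D)) ≤ 1 :=
        (V.valuation_le_one_iff _).mpr (hk _)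
      have h3 : V.valuation (algebraMap k (LL k N) (eval c D)⁻¹) ≤ 1 :=
        (V.valuation_le_one_iff _).mpr (hk _)
      have h4 : V.valuation (algebraMap k (LL k N) (eval c D)⁻¹) *
          V.valuation (algebraMap k (LL k N) (eval c D)) = 1 := by
        rw [← map_mul, ← map_mul, inv_mul_cancel₀ hDc, map_one, map_one]
      apply le_antisymm h2
      calc (1 : _) = V.valuation (algebraMap k (LL k N) (eval c D)⁻¹) *
            V.valuation (algebraMap k (LL k N) (eval c D)) := h4.symm
        _ ≤ 1 * V.valuation (algebraMap k (LL k N) (eval c D)) := mul_le_mul' h3 le_rfl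
        _ = _ := one_mul _
    have h5 : V.valuation (pj k N (aeval (orb c) D)) ≤ 1 :=
      (V.valuation_le_one_iff _).mpr (hV (orb_mem_BR D c D))
    have h6 : V.valuation (pj k N (aeval (orb c) D))⁻¹ ≤ 1 :=
      (V.valuation_le_one_iff _).mpr (hz none)
    have hne : pj k N (aeval (orb c) D) ≠ 0 := by
      rw [hDorb]
      apply mul_ne_zero
      · rwa [Ne, map_eq_zero]
      · exact pow_ne_zero _ det_gM_ne
    have h7 : V.valuation (pj k N (aeval (orb c) D)) = 1 := by
      apply le_antisymm h5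
      have h8 : V.valuation (pj k N (aeval (orb c) D))⁻¹ *
          V.valuation (pj k N (aeval (orb c) D)) = 1 := by
        rw [← map_mul, inv_mul_cancel₀ hne, map_one]
      calc (1 : _) = V.valuation (pj k N (aeval (orb c) D))⁻¹ *
            V.valuation (pj k N (aeval (orb c) D)) := h8.symm
        _ ≤ 1 * V.valuation (pj k N (aeval (orb c) D)) := mul_le_mul' h6 le_rfl
        _ = _ := one_mul _
    rw [hDorb, map_mul, h1, one_mul, map_pow] at h7
    exact h7
  have hv : V.valuation (pj k N (dt (N + 1) k)) = 1 := by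
    rcases lt_trichotomy (V.valuation (pj k N (dt (N + 1) k))) 1 with h | h | h
    · exact absurd hv1 (pow_lt_one₀ zero_le' h hw.ne').ne
    · exact h
    · exact absurd hv1 (one_lt_pow₀ h hw.ne').ne'
  have hdetne : (gM k N).det ≠ 0 := by
    rw [det_gM]; exact det_gM_ne
  obtain ⟨i0, j0, hmax⟩ := exists_max_entry V.valuation (gM k N)
  have h0 := max_ne_zero V.valuation hdetne hmax
  have hkey := key_ineq V (good_const V hk hc) hd (gM k N) (by
    intro p
    have := hO p
    rwa [pj_orb] at this) i0 j0 hmax h0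
  rw [det_gM, hv, one_mul] at hkey
  have ha : V.valuation (gM k N i0 j0) ≤ 1 := by
    by_contra hcon
    push Not at hcon
    exact absurd hkey (not_le.mpr (one_lt_pow₀ hcon (by omega)))
  refine ⟨fun q => (V.valuation_le_one_iff _).mp ((hmax q.1 q.2).trans ha), ?_⟩
  rw [← V.valuation_le_one_iff, map_inv₀, hv, inv_one]

theorem int_X (hd : 2 ≤ d) (hD : Dyn.IsSemi w D) (hw : 0 < w) {c : Ix N d → k}
    (hc : NZ (tup c)) (hDc : eval c D ≠ 0) (q : Fin (N + 1) × Fin (N + 1)) :
    IsIntegral (BR D c) (pj k N (X q)) :=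
  int_of_val (BR D c).toSubring _ fun V hV => (val_facts hd hD hw hc hDc V hV).1 q

theorem int_dt (hd : 2 ≤ d) (hD : Dyn.IsSemi w D) (hw : 0 < w) {c : Ix N d → k}
    (hc : NZ (tup c)) (hDc : eval c D ≠ 0) :
    IsIntegral (BR D c) (pj k N (dt (N + 1) k))⁻¹ :=
  int_of_val (BR D c).toSubring _ fun V hV => (val_facts hd hD hw hc hDc V hV).2

end

end

end Pool.Agent.Y217
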