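import Pool.Agent.Y217.LemQ2

/-!
For a map without automorphisms the orbit map is a closed immersion modulo scalars.
-/

open MvPolynomial

namespace Pool.Agent.Y217

open Pool.Agent.Helper819 Pool.Agent.Helper819.Apolar Pool.Agent.Helper819.Dyn

noncomputable section

variable {k : Type} [Field k] [IsAlgClosed k] [CharZero k] {N d : ℕ} {D : SS k N d} {w : ℕ}

/-- functions on the group of degree divisible by `N + d` -/
def CS (hD : Dyn.IsSemi w D) {c : Ix N d → k} (hDc : eval c D ≠ 0) : Subalgebra k (LL k N) where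
  carrier := {x | ∃ (m : ℕ) (y : KA k N), Cd (N + d) y ∧
    x * pj k N (dt (N + 1) k ^ w) ^ m = pj k N y}
  mul_mem' := by
    rintro a b ⟨m, y, hy, h1⟩ ⟨m', y', hy', h2⟩
    refine ⟨m + m', y * y', hy.mul hy', ?_⟩
    rw [map_mul, ← h1, ← h2, pow_add]
    ring
  add_mem' := by
    rintro a b ⟨m, y, hy, h1⟩ ⟨m', y', hy', h2⟩
    refine ⟨m + m', y * (dt (N + 1) k ^ w) ^ m' + y' * (dt (N + 1) k ^ w) ^ m,
      (hy.mul ((Cd_dt hD hDc).pow _)).add (hy'.mul ((Cd_dt hD hDc).pow _)), ?_⟩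
    rw [map_add, map_mul, map_mul, ← h1, ← h2, map_pow _ _ m, map_pow _ _ m', pow_add]
    ring
  algebraMap_mem' := by
    intro a
    refine ⟨0, C a, Cd.C a, ?_⟩
    rw [pow_zero, mul_one, algHom_C]

theorem mem_CS (hD : Dyn.IsSemi w D) {c : Ix N d → k} (hDc : eval c D ≠ 0) (x : LL k N) :
    x ∈ CS hD hDc ↔ ∃ (m : ℕ) (y : KA k N), Cd (N + d) y ∧
      x * pj k N (dt (N + 1) k ^ w) ^ m = pj k N y := Iff.rfl

theorem pj_mem_CS (hD : Dyn.IsSemi w D) {c : Ix N d → k} (hDc : eval c D ≠ 0) {y : KA k N}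
    (hy : Cd (N + d) y) : pj k N y ∈ CS hD hDc := ⟨0, y, hy, by rw [pow_zero, mul_one]⟩

theorem dtinv_mem_CS (hD : Dyn.IsSemi w D) {c : Ix N d → k} (hDc : eval c D ≠ 0) :
    (pj k N (dt (N + 1) k ^ w))⁻¹ ∈ CS hD hDc := by
  refine ⟨1, 1, Cd.one, ?_⟩
  rw [pow_one, map_one, inv_mul_cancel₀]
  rw [map_pow]
  exact pow_ne_zero _ det_gM_ne

theorem none_eq (hD : Dyn.IsSemi w D) (c : Ix N d → k) :
    zz D c none = algebraMap k (LL k N) (eval c D)⁻¹ * (pj k N (dt (N + 1) k ^ w))⁻¹ := by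
  have hinf : Infinite k := inferInstance
  change (pj k N (aeval (orb c) D))⁻¹ = _
  rw [semi_orb hD c, map_mul, algHom_C, mul_inv, map_inv₀]

theorem BR_le_CS (hD : Dyn.IsSemi w D) {c : Ix N d → k} (hDc : eval c D ≠ 0) :
    BR D c ≤ CS hD hDc := by
  have hinf : Infinite k := inferInstance
  have hz : ∀ o, zz D c o ∈ CS hD hDc := by
    intro o
    cases o with
    | none =>
      rw [none_eq hD c]
      exact (CS hD hDc).mul_mem ((CS hD hDc).algebraMap_mem _) (dtinv_mem_CS hD hDc)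
    | some p => exact pj_mem_CS hD hDc (Cd_orb c p)
  rintro _ ⟨P, rfl⟩
  change aeval (zz D c) P ∈ CS hD hDc
  induction P using MvPolynomial.induction_on with
  | C a => rw [algHom_C]; exact (CS hD hDc).algebraMap_mem a
  | add p q hp hq => rw [map_add]; exact (CS hD hDc).add_mem hp hq
  | mul_X p i hp => rw [map_mul, aeval_X]; exact (CS hD hDc).mul_mem hp (hz i)

/-- as a module -/
def CB (hD : Dyn.IsSemi w D) {c : Ix N d → k} (hDc : eval c D ≠ 0) :
    Submodule (BR D c) (LL k N) where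
  carrier := CS hD hDc
  add_mem' := (CS hD hDc).add_mem
  zero_mem' := (CS hD hDc).zero_mem
  smul_mem' := by
    intro b x hx
    exact (CS hD hDc).mul_mem (BR_le_CS hD hDc b.2) hx

/-- the ring as a module -/
def BB (D : SS k N d) (c : Ix N d → k) : Submodule (BR D c) (LL k N) where
  carrier := BR D c
  add_mem' := (BR D c).add_mem
  zero_mem' := (BR D c).zero_mem
  smul_mem' := by
    intro b x hx
    exact (BR D c).mul_mem b.2 hx

instance noeth_BR (D : SS k N d) (c : Ix N d → k) : IsNoetherianRing (BR D c) :=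
  isNoetherianRing_of_surjective _ _
    (aeval (zz D c) : MvPolynomial (Option (Ix N d)) k →ₐ[k] LL k N).rangeRestrict.toRingHom
    (AlgHom.rangeRestrict_surjective _)

theorem CB_fg (hd : 2 ≤ d) (hw : 0 < w) (hD : Dyn.IsSemi w D) {c : Ix N d → k}
    (hc : NZ (tup c)) (hDc : eval c D ≠ 0) : (CB hD hDc).FG := by
  let s : Set (LL k N) := insert (pj k N (dt (N + 1) k))⁻¹
    (Set.range fun q : Fin (N + 1) × Fin (N + 1) => pj k N (X q))
  have hs : s.Finite := (Set.finite_range _).insert _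
  have hfg : (Algebra.adjoin (BR D c) s).toSubmodule.FG := by
    apply fg_adjoin_of_finite hs
    rintro x (rfl | ⟨q, rfl⟩)
    · exact int_dt hd hD hw hc hDc
    · exact int_X hd hD hw hc hDc q
  have hle : CB hD hDc ≤ (Algebra.adjoin (BR D c) s).toSubmodule := by
    rintro x ⟨m, y, _, hxy⟩
    have hy : ∀ y : KA k N, pj k N y ∈ Algebra.adjoin (BR D c) s := by
      intro y
      induction y using MvPolynomial.induction_on with
      | C a =>
        rw [algHom_C]
        exact (Algebra.adjoin (BR D c) s).algebraMap_mem (algebraMap k (BR D c) a)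
      | add p q hp hq => rw [map_add]; exact Subalgebra.add_mem _ hp hq
      | mul_X p i hp =>
        rw [map_mul]
        exact Subalgebra.mul_mem _ hp (Algebra.subset_adjoin (Set.mem_insert_of_mem _ ⟨i, rfl⟩))
    have hi : (pj k N (dt (N + 1) k))⁻¹ ∈ Algebra.adjoin (BR D c) s :=
      Algebra.subset_adjoin (Set.mem_insert _ _)
    have hx : x = pj k N y * (((pj k N (dt (N + 1) k))⁻¹) ^ w) ^ m := by
      rw [← hxy, map_pow, mul_assoc, ← mul_pow, ← mul_pow, mul_inv_cancel₀ det_gM_ne, one_pow,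
        one_pow, mul_one]
    rw [hx]
    exact Subalgebra.mul_mem _ (hy y) (Subalgebra.pow_mem _ (Subalgebra.pow_mem _ hi _) _)
  have hN : IsNoetherian (BR D c) (Algebra.adjoin (BR D c) s).toSubmodule :=
    isNoetherian_of_fg_of_noetherian _ hfg
  exact isNoetherian_submodule.mp hN _ hle

/-- the point of a maximal ideal -/
theorem exists_pt (hd : 2 ≤ d) (hDN : ∀ c, eval c D ≠ 0 ↔ NZ (tup c))
    {c : Ix N d → k} (hc : NZ (tup c)) (𝔪 : Ideal (BR D c)) (hm : 𝔪.IsMaximal) :
    ∃ A0 : Matrix (Fin (N + 1)) (Fin (N + 1)) k, A0.det ≠ 0 ∧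
      ∀ p, ∃ b ∈ 𝔪, (b : LL k N) = pj k N (orb c p - C (actT A0 c p)) := by
  let φ : MvPolynomial (Option (Ix N d)) k →ₐ[k] BR D c :=
    (aeval (zz D c) : MvPolynomial (Option (Ix N d)) k →ₐ[k] LL k N).rangeRestrict
  have hφs : Function.Surjective φ := AlgHom.rangeRestrict_surjective _
  have hφ : ∀ P, ((φ P : BR D c) : LL k N) = aeval (zz D c) P := fun P => rfl
  have hmc : (𝔪.comap φ).IsMaximal := Ideal.comap_isMaximal_of_surjective φ hφs
  obtain ⟨y0, hy0⟩ := isMaximal_iff_eq_vanishingIdeal_singleton.mp hmc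
  have hmem : ∀ P, φ P ∈ 𝔪 ↔ eval y0 P = 0 := by
    intro P
    have h1 : φ P ∈ 𝔪 ↔ P ∈ 𝔪.comap φ := Iff.rfl
    rw [h1, hy0, mem_vanishingIdeal_singleton_iff, ← coe_aeval_eq_eval]
    rfl
  have hker : ∀ P, aeval (zz D c) P = 0 → eval y0 P = 0 := by
    intro P hP
    rw [← hmem]
    have h1 : φ P = 0 := Subtype.ext ((hφ P).trans hP)
    rw [h1]
    exact Ideal.zero_mem _
  let c' : Ix N d → k := fun p => y0 (some p)
  have hren : ∀ P : SS k N d, eval y0 (rename some P) = eval c' P := by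
    intro P
    rw [eval_rename]
    rfl
  have hne : pj k N (aeval (orb c) D) ≠ 0 := by
    intro h0
    rw [pj_eq_zero] at h0
    have h1 := eval_aeval_orb 1 c D
    rw [h0, map_zero, actT_one] at h1
    exact (hDN c).mpr hc h1.symm
  have hc' : NZ (tup c') := by
    rw [← hDN]
    intro h0
    have h1 := hker (X none * rename some D - 1) (by
      rw [map_sub, map_mul, aeval_X, map_one, zz_some]
      change (pj k N (aeval (orb c) D))⁻¹ * pj k N (aeval (orb c) D) - 1 = 0
      rw [inv_mul_cancel₀ hne, sub_self])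
    rw [map_sub, map_mul, hren, h0, mul_zero, map_one, zero_sub] at h1
    exact one_ne_zero (neg_eq_zero.mp h1)
  have hinf : Infinite k := inferInstance
  obtain ⟨A0, hA0, hAc⟩ := closed_GL hd hc c' hc' (by
    intro P hP
    rw [← hren]
    apply hker
    rw [zz_some]
    have h1 : aeval (orb c) P = 0 := by
      apply poly_ext
      intro A hA
      rw [eval_aeval_orb, map_zero]
      exact hP A hA
    rw [h1, map_zero])
  refine ⟨A0, hA0, fun p => ?_⟩
  have h1 := (hmem (X (some p) - C (c' p))).mpr (by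
    rw [map_sub, eval_X, eval_C]; exact sub_self _)
  refine ⟨_, h1, ?_⟩
  rw [hφ, map_sub, aeval_X, algHom_C, hAc]
  change pj k N (orb c p) - _ = pj k N (orb c p - C (c' p))
  rw [map_sub, algHom_C]

end

end Pool.Agent.Y217
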