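import Pool.Agent.Y217.LemQ3

/-!
For a map without automorphisms the orbit map is a closed immersion modulo scalars.
-/

open MvPolynomial

namespace Pool.Agent.Y217

open Pool.Agent.Helper819 Pool.Agent.Helper819.Apolar Pool.Agent.Helper819.Dyn

noncomputable section

variable {k : Type} [Field k] [IsAlgClosed k] [CharZero k] {N d : ℕ} {D : SS k N d} {w : ℕ}

theorem dtinv_mem_BR (hD : Dyn.IsSemi w D) {c : Ix N d → k} (hDc : eval c D ≠ 0) :
    (pj k N (dt (N + 1) k ^ w))⁻¹ ∈ BR D c := by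
  have h1 : (pj k N (dt (N + 1) k ^ w))⁻¹ =
      algebraMap k (LL k N) (eval c D) * zz D c none := by
    rw [none_eq hD c, ← mul_assoc, ← map_mul, mul_inv_cancel₀ hDc, map_one, one_mul]
  rw [h1]
  exact (BR D c).mul_mem ((BR D c).algebraMap_mem _) (zz_mem_BR D c none)

/-- the automorphism group consists of scalars -/
def Free (c : Ix N d → k) : Prop :=
  ∀ A : Matrix (Fin (N + 1)) (Fin (N + 1)) k, A.det ≠ 0 → actT A c = c → ∃ ζ : k, A = ζ • 1

theorem fibre_expand (hd : 2 ≤ d) (hw : 0 < w) (hD : Dyn.IsSemi w D) {c : Ix N d → k}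
    (hc : NZ (tup c)) (hDc : eval c D ≠ 0) (hst : Free c)
    (A0 : Matrix (Fin (N + 1)) (Fin (N + 1)) k) (hA0 : A0.det ≠ 0) {y : KA k N}
    (hy : Cd (N + d) y) : ∃ (m : ℕ) (q : Ix N d → KA k N), (∀ p, Cd (N + d) (q p)) ∧
      (dt (N + 1) k ^ w) ^ m * (y - C (eval (ent A0) y)) =
        ∑ p, q p * (orb c p - C (actT A0 c p)) := by
  have hinf : Infinite k := inferInstance
  have hy1 : Cd (N + d) (y - C (eval (ent A0) y)) := hy.sub (Cd.C _)
  obtain ⟨m, hm⟩ := fibre_mem hd hc hst A0 hA0 hy1 (by rw [map_sub, eval_C, sub_self])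
  have h1 : (dt (N + 1) k ^ w) ^ m * (y - C (eval (ent A0) y)) ∈ fI c (actT A0 c) := by
    have h2 : (dt (N + 1) k ^ w) ^ m * (y - C (eval (ent A0) y)) =
        dt (N + 1) k ^ ((w - 1) * m) * (dt (N + 1) k ^ m * (y - C (eval (ent A0) y))) := by
      rw [← mul_assoc, ← pow_add, ← pow_mul]
      congr 2
      obtain ⟨w', rfl⟩ := Nat.exists_eq_add_of_lt hw
      rw [show 0 + w' + 1 - 1 = w' by omega]
      ring
    rw [h2]
    exact Ideal.mul_mem_left _ _ hm
  unfold fI at h1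
  rw [Ideal.mem_span_range_iff_exists_fun] at h1
  obtain ⟨q, hq⟩ := h1
  refine ⟨m, fun p => prE (N + d) (q p), fun p => Cd_prE _, ?_⟩
  have h3 := congrArg (prE (N + d)) hq
  rw [prE_sum, prE_of_Cd (((Cd_dt hD hDc).pow m).mul hy1)] at h3
  rw [← h3]
  exact Finset.sum_congr rfl fun p _ => prE_mul _ ((Cd_orb c p).sub (Cd.C _))

theorem nak (hd : 2 ≤ d) (hw : 0 < w) (hD : Dyn.IsSemi w D) {c : Ix N d → k}
    (hc : NZ (tup c)) (hDc : eval c D ≠ 0) (hst : Free c)
    (A0 : Matrix (Fin (N + 1)) (Fin (N + 1)) k) (hA0 : A0.det ≠ 0) (𝔪 : Ideal (BR D c))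
    (hm : ∀ p, ∃ b ∈ 𝔪, (b : LL k N) = pj k N (orb c p - C (actT A0 c p))) :
    CB hD hDc ≤ BB D c ⊔ 𝔪 • CB hD hDc := by
  rintro x ⟨m, y, hy, hxy⟩
  obtain ⟨m', q, hq, hyq⟩ := fibre_expand hd hw hD hc hDc hst A0 hA0 hy
  have hu : pj k N (dt (N + 1) k ^ w) ≠ 0 := by
    rw [map_pow]
    exact pow_ne_zero _ det_gM_ne
  have h1 : x = algebraMap k (LL k N) (eval (ent A0) y) * ((pj k N (dt (N + 1) k ^ w))⁻¹) ^ m +
      ∑ p, pj k N (orb c p - C (actT A0 c p)) *
        (pj k N (q p) * ((pj k N (dt (N + 1) k ^ w))⁻¹) ^ (m + m')) := by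
    have h2 := congrArg (pj k N) hyq
    rw [map_mul, map_sum, map_pow, map_sub, algHom_C, ← hxy] at h2
    simp only [map_mul] at h2
    have h3 : ∑ p, pj k N (orb c p - C (actT A0 c p)) *
        (pj k N (q p) * ((pj k N (dt (N + 1) k ^ w))⁻¹) ^ (m + m')) =
        ((pj k N (dt (N + 1) k ^ w))⁻¹) ^ (m + m') *
        ∑ p, pj k N (q p) * pj k N (orb c p - C (actT A0 c p)) := by
      rw [Finset.mul_sum]
      exact Finset.sum_congr rfl fun p _ => by ring
    rw [h3, ← h2]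
    have e1 : pj k N (dt (N + 1) k ^ w) ^ m * (pj k N (dt (N + 1) k ^ w))⁻¹ ^ m = 1 := by
      rw [← mul_pow, mul_inv_cancel₀ hu, one_pow]
    have e2 : pj k N (dt (N + 1) k ^ w) ^ m' * (pj k N (dt (N + 1) k ^ w))⁻¹ ^ m' = 1 := by
      rw [← mul_pow, mul_inv_cancel₀ hu, one_pow]
    rw [pow_add]
    linear_combination (-(x * (pj k N (dt (N + 1) k ^ w))⁻¹ ^ m * pj k N (dt (N + 1) k ^ w) ^ m -
      algebraMap k (LL k N) (eval (ent A0) y) * (pj k N (dt (N + 1) k ^ w))⁻¹ ^ m)) * e2 - x * e1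
  rw [h1]
  apply Submodule.add_mem
  · apply Submodule.mem_sup_left
    change _ ∈ BR D c
    exact (BR D c).mul_mem ((BR D c).algebraMap_mem _) ((BR D c).pow_mem (dtinv_mem_BR hD hDc) _)
  · apply Submodule.mem_sup_right
    apply Submodule.sum_mem
    intro p _
    obtain ⟨b, hb, hb2⟩ := hm p
    rw [← hb2]
    have hc1 : pj k N (q p) * ((pj k N (dt (N + 1) k ^ w))⁻¹) ^ (m + m') ∈ CB hD hDc :=
      (CS hD hDc).mul_mem (pj_mem_CS hD hDc (hq p))
      ((CS hD hDc).pow_mem (dtinv_mem_CS hD hDc) _)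
    exact Submodule.smul_mem_smul hb hc1

theorem CS_le_BR (hd : 2 ≤ d) (hw : 0 < w) (hD : Dyn.IsSemi w D)
    (hDN : ∀ c, eval c D ≠ 0 ↔ NZ (tup c)) {c : Ix N d → k}
    (hc : NZ (tup c)) (hst : Free c) {x : LL k N}
    (hx : x ∈ CS hD ((hDN c).mpr hc)) : x ∈ BR D c := by
  have hDc := (hDN c).mpr hc
  let J : Ideal (BR D c) :=
    { carrier := {b | ∀ x ∈ CB hD hDc, b • x ∈ BB D c}
      add_mem' := by
        intro a b ha hb x hx
        rw [add_smul]
        exact Submodule.add_mem _ (ha x hx) (hb x hx)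
      zero_mem' := by
        intro x _
        rw [zero_smul]
        exact Submodule.zero_mem _
      smul_mem' := by
        intro a b hb x hx
        rw [smul_eq_mul, mul_smul]
        exact Submodule.smul_mem _ _ (hb x hx) }
  have hJ : J = ⊤ := by
    by_contra hne
    obtain ⟨𝔪, hm, hle⟩ := Ideal.exists_le_maximal _ hne
    obtain ⟨A0, hA0, hpt⟩ := exists_pt hd hDN hc 𝔪 hm
    have h1 := nak hd hw hD hc hDc hst A0 hA0 𝔪 hpt
    obtain ⟨r, hr1, hr2⟩ := Submodule.exists_sub_one_mem_and_smul_le_of_fg_of_le_sup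
      (CB_fg hd hw hD hc hDc) le_rfl h1
    have h2 : r ∈ J := fun x hx => hr2 (Submodule.smul_mem_pointwise_smul _ _ _ hx)
    have h3 := 𝔪.sub_mem (hle h2) hr1
    rw [sub_sub_cancel] at h3
    exact hm.ne_top ((Ideal.eq_top_iff_one _).mpr h3)
  have h1 : (1 : BR D c) ∈ J := by rw [hJ]; trivial
  have h2 := h1 x hx
  rwa [one_smul] at h2

/-- Functions on the group of degree divisible by `N + d` come from the orbit. -/
theorem lemQ (hd : 2 ≤ d) (hw : 0 < w) (hD : Dyn.IsSemi w D)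
    (hDN : ∀ c, eval c D ≠ 0 ↔ NZ (tup c)) {c : Ix N d → k}
    (hc : NZ (tup c)) (hst : Free c) {y : KA k N} (hy : Cd (N + d) y) :
    ∃ (m : ℕ) (Q : SS k N d), dt (N + 1) k ^ (w * m) * y = aeval (orb c) Q := by
  have hinf : Infinite k := inferInstance
  have hDc := (hDN c).mpr hc
  have h1 : pj k N y ∈ BR D c := CS_le_BR hd hw hD hDN hc hst (pj_mem_CS hD hDc hy)
  have hu : pj k N (dt (N + 1) k ^ w) ≠ 0 := by
    rw [map_pow]
    exact pow_ne_zero _ det_gM_ne
  have h2 : ∀ P : MvPolynomial (Option (Ix N d)) k, ∃ (m : ℕ) (Q : SS k N d),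
      pj k N (dt (N + 1) k ^ w) ^ m * aeval (zz D c) P = pj k N (aeval (orb c) Q) := by
    intro P
    induction P using MvPolynomial.induction_on with
    | C a => exact ⟨0, C a, by rw [pow_zero, one_mul, algHom_C, algHom_C, AlgHom.commutes]⟩
    | add p q hp hq =>
      obtain ⟨m, Q, h1⟩ := hp
      obtain ⟨m', Q', h2⟩ := hq
      have h3 : ∀ m, pj k N (aeval (orb c) ((C (eval c D)⁻¹ * D) ^ m)) =
          pj k N (dt (N + 1) k ^ w) ^ m := by
        intro m
        rw [map_pow, map_pow, map_mul, algHom_C, semi_orb hD c, MvPolynomial.algebraMap_eq,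
          ← mul_assoc, ← C_mul, inv_mul_cancel₀ hDc, C_1, one_mul]
      refine ⟨m + m', (C (eval c D)⁻¹ * D) ^ m' * Q + (C (eval c D)⁻¹ * D) ^ m * Q', ?_⟩
      rw [map_add, map_add (aeval (orb c)), map_mul (aeval (orb c)) _ Q,
        map_mul (aeval (orb c)) _ Q', map_add (pj k N),
        map_mul (pj k N) _ (aeval (orb c) Q),
        map_mul (pj k N) _ (aeval (orb c) Q'), h3, h3, ← h1, ← h2]
      ring
    | mul_X p i hp =>
      obtain ⟨m, Q, h1⟩ := hp
      rw [map_mul, aeval_X]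
      cases i with
      | none =>
        refine ⟨m + 1, C (eval c D)⁻¹ * Q, ?_⟩
        rw [none_eq hD c, map_mul, map_mul, ← h1, algHom_C, AlgHom.commutes, pow_succ]
        field_simp
      | some q =>
        refine ⟨m, Q * X q, ?_⟩
        rw [map_mul, map_mul, ← h1, aeval_X]
        change _ = _ * pj k N (orb c q)
        rw [← mul_assoc]
        rfl
  obtain ⟨P, hP⟩ := h1
  obtain ⟨m, Q, hQ⟩ := h2 P
  refine ⟨m, Q, ?_⟩
  apply pj_inj
  have hP' : aeval (zz D c) P = pj k N y := hP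
  rw [← hQ, map_mul, pow_mul, map_pow, hP']

end

end Pool.Agent.Y217
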