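import Pool.Agent.Y217.Rep

/-!
Differentials of the elements of the coordinate ring.
-/

open MvPolynomial

namespace Pool.Agent.Y217

open Pool.Agent.Helper819 Pool.Agent.Helper819.Apolar Pool.Agent.Helper819.Dyn

noncomputable section

variable {k : Type} [Field k] {N d : ℕ}

/-- numerator of the differential of `P / D ^ m` -/
def om (D P : SS k N d) (m : ℕ) : Ix N d → SS k N d := fun p =>
  D * pderiv p P - (m : SS k N d) * (P * pderiv p D)

theorem om_add (D P P' : SS k N d) (m : ℕ) : om D (P + P') m = om D P m + om D P' m := by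
  funext p
  simp only [om, Pi.add_apply, map_add]
  ring

theorem om_sub (D P P' : SS k N d) (m : ℕ) : om D (P - P') m = om D P m - om D P' m := by
  funext p
  simp only [om, Pi.sub_apply, map_sub]
  ring

theorem om_zero (D : SS k N d) (m : ℕ) : om D 0 m = 0 := by
  funext p
  simp [om]

theorem om_sum {ι : Type} (s : Finset ι) (D : SS k N d) (P : ι → SS k N d) (m : ℕ) :
    om D (∑ i ∈ s, P i) m = ∑ i ∈ s, om D (P i) m := by
  classical
  induction s using Finset.induction_on with
  | empty => simp [om_zero]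
  | insert a s ha ih => rw [Finset.sum_insert ha, Finset.sum_insert ha, om_add, ih]

theorem om_mul (D P P' : SS k N d) (m m' : ℕ) :
    om D (P * P') (m + m') = P' • om D P m + P • om D P' m' := by
  funext p
  simp only [om, Pi.add_apply, Pi.smul_apply, smul_eq_mul, Derivation.leibniz]
  push_cast
  ring

theorem om_pow (D : SS k N d) (a : k) (m : ℕ) : om D (C a * D ^ m) m = 0 := by
  funext p
  simp only [om, Pi.zero_apply]
  rw [Derivation.leibniz, pderiv_C, Derivation.leibniz_pow]
  simp only [smul_eq_mul, nsmul_eq_mul, mul_zero, add_zero]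
  cases m with
  | zero => simp
  | succ m =>
    rw [Nat.add_sub_cancel, pow_succ]
    ring

theorem eval_om (D P : SS k N d) (m : ℕ) (c v : Ix N d → k) :
    ∑ p, v p * eval c (om D P m p) = eval c D * dd P c v - m * eval c P * dd D c v := by
  unfold om dd
  rw [Finset.mul_sum, Finset.mul_sum, ← Finset.sum_sub_distrib]
  refine Finset.sum_congr rfl fun p _ => ?_
  rw [map_sub, map_mul, map_mul, map_mul, map_natCast]
  ring

variable [IsAlgClosed k] {D : SS k N d} {w : ℕ}

/-- the module of differentials -/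
def mO (D : SS k N d) (w : ℕ) : Submodule (SS k N d) (Ix N d → SS k N d) :=
  Submodule.span (SS k N d) {v | ∃ (h : coordRing k N d) (m : ℕ) (P : SS k N d),
    Rep D w h.1 m P ∧ v = om D P m}

theorem mem_mO {h : coordRing k N d} {m : ℕ} {P : SS k N d} (hP : Rep D w h.1 m P) :
    om D P m ∈ mO D w := Submodule.subset_span ⟨h, m, P, hP, rfl⟩

theorem mem_ptIdeal (x : Moduli k N d) (h : coordRing k N d) : h ∈ ptIdeal x ↔ h.1 x = 0 :=
  Iff.rfl

theorem nak_om [CharZero k] (hNd : 0 < N + d) (hD : Dyn.IsSemi w D)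
    (hDN : ∀ c, eval c D ≠ 0 ↔ NZ (tup c)) (hDne : D ≠ 0) {f : Ix N d → k} (hf : NZ (tup f))
    {J : Type} [Fintype J] (b : J → coordRing k N d)
    (mb : J → ℕ) (Pb : J → SS k N d) (hPb : ∀ j, Rep D w (b j).1 (mb j) (Pb j))
    (hb : ∀ j, b j ∈ ptIdeal (cls (mkE f hf)))
    (hgen : ∀ h ∈ ptIdeal (cls (mkE f hf)), ∃ s ∉ ptIdeal (cls (mkE f hf)),
      ∃ a : J → coordRing k N d, s * h = ∑ j, a j * b j) :
    ∃ r : SS k N d, eval f r = 1 ∧ ∀ (h : coordRing k N d) (m : ℕ) (P : SS k N d),
      Rep D w h.1 m P → r • om D P m ∈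
        Submodule.span (SS k N d) (Set.range fun j => om D (Pb j) (mb j)) := by
  classical
  let 𝔫 : Ideal (SS k N d) := van {f}
  have hmem𝔫 : ∀ p, p ∈ 𝔫 ↔ eval f p = 0 := by
    intro p
    change p ∈ van {f} ↔ _
    rw [mem_van]
    simp
  set M' := Submodule.span (SS k N d) (Set.range fun j => om D (Pb j) (mb j)) with hM'
  have hM'j : ∀ j, om D (Pb j) (mb j) ∈ M' := fun j => Submodule.subset_span ⟨j, rfl⟩
  have hDf : eval f D ≠ 0 := (hDN f).mpr hf
  have hval : ∀ (h : coordRing k N d) (m : ℕ) (P : SS k N d), Rep D w h.1 m P →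
      (eval f P = 0 ↔ h ∈ ptIdeal (cls (mkE f hf))) := by
    intro h m P hP
    rw [mem_ptIdeal, ← hP.2 f hf]
    exact ⟨fun h1 => (mul_eq_zero.mp h1).resolve_right (pow_ne_zero _ hDf),
      fun h1 => by rw [h1, zero_mul]⟩
  have hle : mO D w ≤ M' ⊔ 𝔫 • mO D w := by
    unfold mO
    rw [Submodule.span_le]
    rintro _ ⟨h, m, P, hP, rfl⟩
    change om D P m ∈ M' ⊔ 𝔫 • mO D w
    let x := cls (mkE f hf)
    let a0 : k := h.1 x
    let h0 : coordRing k N d := h - algebraMap k _ a0
    have hP0 : Rep D w h0.1 m (P - C a0 * D ^ m) := hP.sub_same (Rep.const hD a0 m)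
    have hh0 : h0 ∈ ptIdeal x := by
      rw [mem_ptIdeal]
      exact sub_self _
    obtain ⟨s, hs, a, hsa⟩ := hgen h0 hh0
    obtain ⟨ms, Ps, hPs⟩ := exists_rep hNd hD hDN hDne s
    choose ma Pa hPa using fun j => exists_rep hNd hD hDN hDne (a j)
    let t : ℕ := ∑ j, (ma j + mb j)
    let K : ℕ := ms + t + m
    have htj : ∀ j, ma j + mb j ≤ t := fun j =>
      Finset.single_le_sum (f := fun j => ma j + mb j) (fun _ _ => Nat.zero_le _)
        (Finset.mem_univ j)
    let e : J → ℕ := fun j => K - (ma j + mb j)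
    have he : ∀ j, ma j + e j + mb j = K := by
      intro j
      have := htj j
      change ma j + (K - (ma j + mb j)) + mb j = K
      change ma j + (ms + t + m - (ma j + mb j)) + mb j = ms + t + m
      omega
    have hL : Rep D w (s * h0).1 K (Ps * D ^ t * (P - C a0 * D ^ m)) :=
      (hPs.lift hD t).mul hP0
    have hR : Rep D w (∑ j, a j * b j).1 K (∑ j, Pa j * D ^ e j * Pb j) := by
      have h1 : (∑ j, a j * b j).1 = ∑ j, (a j).1 * (b j).1 := by
        rw [AddSubmonoidClass.coe_finset_sum]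
        rfl
      rw [h1]
      apply Rep.sum_same
      intro j _
      have h2 := ((hPa j).lift hD (e j)).mul (hPb j)
      rwa [he j] at h2
    rw [hsa] at hL
    have heq : Ps * D ^ t * (P - C a0 * D ^ m) = ∑ j, Pa j * D ^ e j * Pb j := by
      have h1 := Rep.unique hDN hDne hL hR
      exact mul_right_cancel₀ (pow_ne_zero _ hDne) h1
    have hom := congrArg (fun Q => om D Q K) heq
    have hK1 : K = (ms + t) + m := rfl
    have hL2 : om D (Ps * D ^ t * (P - C a0 * D ^ m)) K =
        (P - C a0 * D ^ m) • om D (Ps * D ^ t) (ms + t) + (Ps * D ^ t) • om D P m := by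
      rw [hK1, om_mul, om_sub, om_pow, sub_zero]
    have hR2 : om D (∑ j, Pa j * D ^ e j * Pb j) K =
        ∑ j, (Pb j • om D (Pa j * D ^ e j) (ma j + e j) + (Pa j * D ^ e j) • om D (Pb j) (mb j)) := by
      rw [om_sum]
      refine Finset.sum_congr rfl fun j _ => ?_
      rw [← om_mul, he j]
    change om D (Ps * D ^ t * (P - C a0 * D ^ m)) K = om D (∑ j, Pa j * D ^ e j * Pb j) K at hom
    rw [hL2, hR2] at hom
    have h1 : (Ps * D ^ t) • om D P m ∈ M' ⊔ 𝔫 • mO D w := by
      have h2 : (Ps * D ^ t) • om D P m =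
          (∑ j, (Pb j • om D (Pa j * D ^ e j) (ma j + e j) +
            (Pa j * D ^ e j) • om D (Pb j) (mb j))) -
          (P - C a0 * D ^ m) • om D (Ps * D ^ t) (ms + t) := by
        rw [← hom]
        abel
      rw [h2]
      apply Submodule.sub_mem
      · refine Submodule.sum_mem _ fun j _ => Submodule.add_mem _ ?_ ?_
        · apply Submodule.mem_sup_right
          apply Submodule.smul_mem_smul
          · rw [hmem𝔫]
            exact (hval _ _ _ (hPb j)).mpr (hb j)
          · exact mem_mO ((hPa j).lift hD (e j))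
        · exact Submodule.mem_sup_left (Submodule.smul_mem _ _ (hM'j j))
      · apply Submodule.mem_sup_right
        apply Submodule.smul_mem_smul
        · rw [hmem𝔫]
          exact (hval _ _ _ hP0).mpr hh0
        · exact mem_mO (hPs.lift hD t)
    have hc0 : eval f (Ps * D ^ t) ≠ 0 := by
      intro h0
      exact hs ((hval _ _ _ (hPs.lift hD t)).mp h0)
    have h3 : (Ps * D ^ t - C (eval f (Ps * D ^ t))) • om D P m ∈ M' ⊔ 𝔫 • mO D w := by
      apply Submodule.mem_sup_right
      apply Submodule.smul_mem_smul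
      · rw [hmem𝔫, map_sub, eval_C, sub_self]
      · exact mem_mO hP
    have h4 : om D P m = (C (eval f (Ps * D ^ t))⁻¹ : SS k N d) • ((Ps * D ^ t) • om D P m -
        (Ps * D ^ t - C (eval f (Ps * D ^ t))) • om D P m) := by
      rw [← sub_smul, sub_sub_cancel, smul_smul, ← C_mul, inv_mul_cancel₀ hc0, C_1, one_smul]
    rw [h4]
    exact Submodule.smul_mem _ _ (Submodule.sub_mem _ h1 h3)
  obtain ⟨r, hr1, hr2⟩ := Submodule.exists_sub_one_mem_and_smul_le_of_fg_of_le_sup
    (IsNoetherian.noetherian (mO D w)) le_rfl hle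
  refine ⟨r, ?_, fun h m P hP => hr2 (Submodule.smul_mem_pointwise_smul _ _ _ (mem_mO hP))⟩
  rw [hmem𝔫, map_sub, map_one, sub_eq_zero] at hr1
  exact hr1

/-- At a free point near `f`, the common kernel of the differentials of the generators is the
tangent space of the orbit. -/
theorem kernel_free [CharZero k] (hd : 2 ≤ d) (hw : 0 < w) (hD : Dyn.IsSemi w D)
    (hDN : ∀ c, eval c D ≠ 0 ↔ NZ (tup c)) {J : Type} [Fintype J]
    (mb : J → ℕ) (Pb : J → SS k N d) {r : SS k N d}
    (hr : ∀ (h : coordRing k N d) (m : ℕ) (P : SS k N d),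
      Rep D w h.1 m P → r • om D P m ∈
        Submodule.span (SS k N d) (Set.range fun j => om D (Pb j) (mb j)))
    {c : Ix N d → k} (hc : NZ (tup c)) (hrc : eval c r ≠ 0) (hfree : Free c) (v : Ix N d → k)
    (hv : ∀ j, ∑ p, v p * eval c (om D (Pb j) (mb j) p) = 0) : ∃ Z, xi Z c = v := by
  by_contra hcon
  push Not at hcon
  obtain ⟨m, P, hP1, hP2, hP3⟩ := exists_semi_diff hd hw hD hDN hc hfree v hcon
  obtain ⟨h, hrep⟩ := exists_of_semi (by omega) hD hDN hP1
  have h1 := hr h m P hrep
  rw [Submodule.mem_span_range_iff_exists_fun] at h1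
  obtain ⟨a, ha⟩ := h1
  have h2 : ∑ p, v p * eval c ((r • om D P m) p) = 0 := by
    rw [← ha]
    simp only [Finset.sum_apply, Pi.smul_apply, smul_eq_mul, map_sum, map_mul, Finset.mul_sum]
    rw [Finset.sum_comm]
    apply Finset.sum_eq_zero
    intro j _
    have h3 : ∑ p, v p * (eval c (a j) * eval c (om D (Pb j) (mb j) p)) =
        eval c (a j) * ∑ p, v p * eval c (om D (Pb j) (mb j) p) := by
      rw [Finset.mul_sum]
      exact Finset.sum_congr rfl fun p _ => by ring
    rw [h3, hv j, mul_zero]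
  have h3 : ∑ p, v p * eval c ((r • om D P m) p) =
      eval c r * ∑ p, v p * eval c (om D P m p) := by
    rw [Finset.mul_sum]
    refine Finset.sum_congr rfl fun p _ => ?_
    rw [Pi.smul_apply, smul_eq_mul, map_mul]
    ring
  rw [h3, eval_om, hP2] at h2
  have h4 := (mul_eq_zero.mp h2).resolve_left hrc
  rw [mul_zero, zero_mul, sub_zero] at h4
  exact hP3 ((mul_eq_zero.mp h4).resolve_left ((hDN c).mpr hc))

end

end Pool.Agent.Y217
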