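import Pool.Agent.Y217.Proj

/-!
The orbit map: derivatives and local structure.
-/

open MvPolynomial

namespace Pool.Agent.Y217

open Pool.Agent.Helper819 Pool.Agent.Helper819.Apolar Pool.Agent.Helper819.Dyn

noncomputable section

variable {k : Type} [Field k] {N d : ℕ}

/-- no infinitesimal automorphisms -/
theorem xi_inj [IsAlgClosed k] [CharZero k] (hd : 2 ≤ d) {f : Ix N d → k} (hf : NZ (tup f))
    {A : Matrix (Fin (N + 1)) (Fin (N + 1)) k} (hA : xi A f = 0) : A = 0 := by
  apply lie_inj hd hf A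
  intro i
  have h1 : lieT A (tup f) i = 0 := by
    rw [← tup_xi (by omega) A f, hA]
    simp [tup]
  unfold lieT at h1
  linear_combination h1

/-- derivative of the orbit map -/
theorem dd_orb (c : Ix N d → k) (A : Matrix (Fin (N + 1)) (Fin (N + 1)) k) (hA : A.det ≠ 0)
    (Y : Matrix (Fin (N + 1)) (Fin (N + 1)) k) (p : Ix N d) :
    dd (orb c p) (ent A) (ent Y) = xi (A⁻¹ * Y) (actT A c) p := by
  let e : DualNumber k := DualNumber.eps
  have he : e * e = 0 := DualNumber.eps_mul_eps
  have h1 := eval_eps e he (ent A) (ent Y) (orb c p)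
  let M : Matrix (Fin (N + 1)) (Fin (N + 1)) (DualNumber k) :=
    A.map (algebraMap k (DualNumber k)) + e • Y.map (algebraMap k (DualNumber k))
  have hM : (fun q => algebraMap k (DualNumber k) (ent A q) +
      e * algebraMap k (DualNumber k) (ent Y q)) = ent M := by
    funext q
    simp [M, ent]
  have hM2 : M = A.map (algebraMap k (DualNumber k)) * oneEps e (A⁻¹ * Y) := by
    unfold oneEps
    rw [mul_add, mul_one, Matrix.mul_smul, ← Matrix.map_mul, ← mul_assoc,
      Matrix.mul_nonsing_inv _ (isUnit_iff_ne_zero.mpr hA), one_mul]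
  rw [hM, aeval_orb_S, hM2, ← actT_actT] at h1
  have h2 : actT (A.map (algebraMap k (DualNumber k))) (fun p => algebraMap k (DualNumber k) (c p)) =
      fun p => algebraMap k (DualNumber k) (actT A c p) := by
    funext q
    rw [map_actT]
  rw [h2, actT_eps e he, eval_orb] at h1
  have h3 := congrArg TrivSqZeroExt.snd h1
  rw [snd_form, snd_form] at h3
  exact h3.symm

theorem ent_smul (ζ : k) (A : Matrix (Fin (N + 1)) (Fin (N + 1)) k) :
    ent (ζ • A) = ζ • ent A := rfl

theorem ne_zero_of_NZ {c : Ix N d → k} (hc : NZ (tup c)) : c ≠ 0 := by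
  rintro rfl
  have h7 : tup (0 : Ix N d → k) = 0 := by
    funext i
    simp [tup]
  rw [h7] at hc
  have h8 := hc (fun _ => 1) (by intro i; simp)
  exact one_ne_zero (congrFun h8 0)

theorem scalar_pow {c : Ix N d → k} (hc : NZ (tup c)) {ζ : k}
    (h : actT (ζ • (1 : Matrix (Fin (N + 1)) (Fin (N + 1)) k)) c = c) : ζ ^ (N + d) = 1 := by
  rw [actT_scalar] at h
  obtain ⟨p, hp⟩ := Function.ne_iff.mp (ne_zero_of_NZ hc)
  have h1 := congrFun h p
  rw [Pi.smul_apply, smul_eq_mul] at h1
  exact mul_right_cancel₀ hp (by rw [h1, one_mul])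

/-- the maximal ideal of a matrix -/
def mI (A : Matrix (Fin (N + 1)) (Fin (N + 1)) k) : Ideal (KA k N) := van {ent A}

theorem mem_mI (A : Matrix (Fin (N + 1)) (Fin (N + 1)) k) (p : KA k N) :
    p ∈ mI A ↔ eval (ent A) p = 0 := by
  unfold mI
  rw [mem_van]
  simp

/-- the ideal of the fibre of the orbit map -/
def fI (c c' : Ix N d → k) : Ideal (KA k N) :=
  Ideal.span (Set.range fun p => orb c p - C (c' p))

theorem mem_fI (c c' : Ix N d → k) (p : Ix N d) : orb c p - C (c' p) ∈ fI c c' :=
  Ideal.subset_span ⟨p, rfl⟩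

theorem fI_le (c : Ix N d → k) (A : Matrix (Fin (N + 1)) (Fin (N + 1)) k) :
    fI c (actT A c) ≤ mI A := by
  unfold fI
  rw [Ideal.span_le]
  rintro _ ⟨p, rfl⟩
  change _ ∈ mI A
  rw [mem_mI, map_sub, eval_orb, eval_C, sub_self]

/-- The orbit map is unramified. -/
theorem unram [IsAlgClosed k] [CharZero k] (hd : 2 ≤ d) {c : Ix N d → k} (hc : NZ (tup c))
    (A : Matrix (Fin (N + 1)) (Fin (N + 1)) k) (hA : A.det ≠ 0) :
    mI A ≤ fI c (actT A c) ⊔ mI A * mI A := by
  classical
  have hNZ : NZ (tup (actT A c)) := by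
    rw [tup_actT]
    exact NZ_act hc A hA
  -- the derivative is injective
  let T : Matrix (Fin (N + 1)) (Fin (N + 1)) k →ₗ[k] (Ix N d → k) :=
    { toFun := fun Y p => dd (orb c p) (ent A) (ent Y)
      map_add' := by
        intro Y Z
        funext p
        simp only [dd, ent, Matrix.add_apply, add_mul, Finset.sum_add_distrib, Pi.add_apply]
      map_smul' := by
        intro r Y
        funext p
        simp only [dd, ent, Matrix.smul_apply, smul_eq_mul, Pi.smul_apply, RingHom.id_apply,
          Finset.mul_sum, mul_assoc] }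
  have hT : LinearMap.ker T = ⊥ := by
    rw [LinearMap.ker_eq_bot']
    intro Y hY
    have h1 : xi (A⁻¹ * Y) (actT A c) = 0 := by
      funext p
      rw [← dd_orb c A hA]
      exact congrFun hY p
    have h2 := xi_inj hd hNZ h1
    have h3 : A * (A⁻¹ * Y) = 0 := by rw [h2, mul_zero]
    rwa [← mul_assoc, Matrix.mul_nonsing_inv _ (isUnit_iff_ne_zero.mpr hA), one_mul] at h3
  obtain ⟨g, hg⟩ := LinearMap.exists_leftInverse_of_injective T hT
  have hX : ∀ q : Fin (N + 1) × Fin (N + 1), X q - C (ent A q) ∈ mI A := by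
    intro q
    rw [mem_mI, map_sub, eval_X, eval_C, sub_self]
  -- linear parts
  have hlin : ∀ p : Ix N d, ∑ q, C (eval (ent A) (pderiv q (orb c p))) *
      (X q - C (ent A q)) ∈ fI c (actT A c) ⊔ mI A * mI A := by
    intro p
    have h1 := taylor_one (ent A) (mI A) hX (orb c p)
    rw [eval_orb] at h1
    have h2 : orb c p - C (actT A c p) ∈ fI c (actT A c) ⊔ mI A * mI A :=
      Ideal.mem_sup_left (mem_fI c _ p)
    have h3 := Ideal.sub_mem _ h2 (Ideal.mem_sup_right h1)
    convert h3 using 1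
    ring
  have hcoef : ∀ q q' : Fin (N + 1) × Fin (N + 1),
      ∑ p, g (Pi.single p 1) q.1 q.2 * eval (ent A) (pderiv q' (orb c p)) =
        if q = q' then 1 else 0 := by
    intro q q'
    have h1 : T (Matrix.single q'.1 q'.2 1) =
        ∑ p, eval (ent A) (pderiv q' (orb c p)) • (Pi.single p (1 : k) : Ix N d → k) := by
      funext p
      rw [Finset.sum_apply]
      simp only [Pi.smul_apply, Pi.single_apply, smul_eq_mul, mul_ite, mul_one, mul_zero]
      rw [Finset.sum_ite_eq, if_pos (Finset.mem_univ p)]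
      change dd (orb c p) (ent A) (ent (Matrix.single q'.1 q'.2 1)) = _
      unfold dd
      rw [Finset.sum_eq_single q']
      · simp [ent, Matrix.single]
      · intro b _ hb
        have : ent (Matrix.single q'.1 q'.2 (1 : k)) b = 0 := by
          unfold ent
          rw [Matrix.single_apply, if_neg]
          rintro ⟨h1, h2⟩
          exact hb (Prod.ext h1.symm h2.symm)
        rw [this, zero_mul]
      · simp
    have h2 := congrArg (fun M => M q.1 q.2) (LinearMap.congr_fun hg (Matrix.single q'.1 q'.2 1))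
    simp only [LinearMap.comp_apply, h1, map_sum, map_smul, LinearMap.id_apply] at h2
    rw [Matrix.sum_apply] at h2
    simp only [Matrix.smul_apply, smul_eq_mul] at h2
    rw [Finset.sum_congr rfl fun p _ => mul_comm _ _, h2, Matrix.single_apply]
    by_cases hq : q = q'
    · subst hq
      simp
    · rw [if_neg hq, if_neg]
      rintro ⟨h1, h2⟩
      exact hq (Prod.ext h1.symm h2.symm)
  have hXmem : ∀ q, X q - C (ent A q) ∈ fI c (actT A c) ⊔ mI A * mI A := by
    intro q
    have h1 : X q - C (ent A q) = ∑ p, C (g (Pi.single p 1) q.1 q.2) *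
        ∑ q', C (eval (ent A) (pderiv q' (orb c p))) * (X q' - C (ent A q')) := by
      simp_rw [Finset.mul_sum, ← mul_assoc, ← C_mul]
      rw [Finset.sum_comm]
      simp_rw [← Finset.sum_mul, ← map_sum, hcoef]
      rw [Finset.sum_eq_single q]
      · simp
      · intro b _ hb
        rw [if_neg hb.symm, C_0, zero_mul]
      · simp
    rw [h1]
    exact Ideal.sum_mem _ fun p _ => Ideal.mul_mem_left _ _ (hlin p)
  intro p hp
  rw [mem_mI] at hp
  have h1 := taylor_one (ent A) (mI A) hX p
  rw [hp, C_0, sub_zero] at h1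
  have h2 : ∑ q, C (eval (ent A) (pderiv q p)) * (X q - C (ent A q)) ∈
      fI c (actT A c) ⊔ mI A * mI A :=
    Ideal.sum_mem _ fun q _ => Ideal.mul_mem_left _ _ (hXmem q)
  have h1' : p - ∑ q, C (eval (ent A) (pderiv q p)) * (X q - C (ent A q)) ∈
      fI c (actT A c) ⊔ mI A * mI A := Ideal.mem_sup_right h1
  have h3 := Ideal.add_mem _ h1' h2
  rwa [sub_add_cancel] at h3

/-- Near the orbit of a map without automorphisms, functions of degree divisible by `N + d` which
vanish at a point of the group are in the ideal of the fibre of the orbit map. -/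
theorem fibre_mem [IsAlgClosed k] [CharZero k] (hd : 2 ≤ d) {c : Ix N d → k} (hc : NZ (tup c))
    (hst : ∀ A : Matrix (Fin (N + 1)) (Fin (N + 1)) k, A.det ≠ 0 → actT A c = c →
      ∃ ζ : k, A = ζ • 1)
    (A0 : Matrix (Fin (N + 1)) (Fin (N + 1)) k) (hA0 : A0.det ≠ 0) {y : KA k N}
    (hy : Cd (N + d) y) (hy0 : eval (ent A0) y = 0) :
    ∃ m : ℕ, dt (N + 1) k ^ m * y ∈ fI c (actT A0 c) := by
  let 𝔠 : Ideal (KA k N) :=
    { carrier := {q | q * y ∈ fI c (actT A0 c)}
      add_mem' := by
        intro a b ha hb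
        change (a + b) * y ∈ fI c (actT A0 c)
        rw [add_mul]
        exact Ideal.add_mem _ ha hb
      zero_mem' := by
        change (0 : KA k N) * y ∈ fI c (actT A0 c)
        rw [zero_mul]
        exact Ideal.zero_mem _
      smul_mem' := by
        intro a b hb
        change (a • b) * y ∈ fI c (actT A0 c)
        rw [smul_eq_mul, mul_assoc]
        exact Ideal.mul_mem_left _ _ hb }
  suffices h : dt (N + 1) k ∈ 𝔠.radical by
    obtain ⟨m, hm⟩ := h
    exact ⟨m, hm⟩
  rw [← vanishingIdeal_zeroLocus_eq_radical (K := k), mem_vanishingIdeal_iff]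
  intro x hx
  obtain ⟨A, rfl⟩ := ent_surj x
  have hev : ∀ q ∈ 𝔠, eval (ent A) q = 0 := by
    intro q hq
    have h1 := (mem_zeroLocus_iff.mp hx) q hq
    rw [← coe_aeval_eq_eval]
    exact h1
  have h0 : aeval (ent A) (dt (N + 1) k) = eval (ent A) (dt (N + 1) k) := by
    rw [← coe_aeval_eq_eval]
    rfl
  rw [h0, eval_dt]
  by_contra hA
  have hfib : actT A c = actT A0 c := by
    funext p
    have h1 := hev (orb c p - C (actT A0 c p)) (by
      change _ * y ∈ fI c (actT A0 c)
      exact Ideal.mul_mem_right _ _ (mem_fI c _ p))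
    rw [map_sub, eval_orb, eval_C, sub_eq_zero] at h1
    exact h1
  have hA0u : IsUnit A0.det := isUnit_iff_ne_zero.mpr hA0
  have hs : actT (A * A0⁻¹) c = c := by
    rw [← actT_actT, hfib, actT_actT, Matrix.mul_nonsing_inv _ hA0u, actT_one]
  obtain ⟨ζ, hζ⟩ := hst _ (by
    rw [Matrix.det_mul, Matrix.det_nonsing_inv, Ring.inverse_eq_inv']
    exact mul_ne_zero hA (inv_ne_zero hA0)) hs
  have hζe : ζ ^ (N + d) = 1 := by
    apply scalar_pow hc
    rw [← hζ, hs]
  have hAζ : A = ζ • A0 := by
    calc A = (A * A0⁻¹) * A0 := by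
          rw [mul_assoc, Matrix.nonsing_inv_mul _ hA0u, mul_one]
      _ = ζ • A0 := by rw [hζ, Matrix.smul_mul, one_mul]
  have hyA : y ∈ mI A := by
    rw [mem_mI, hAζ, ent_smul, hy.eval hζe, hy0]
  have hun := unram hd hc A hA
  rw [hfib] at hun
  obtain ⟨r, hr1, hr2⟩ := Submodule.exists_sub_one_mem_and_smul_le_of_fg_of_le_sup
    (I := mI A) (N := fI c (actT A0 c)) (N' := mI A) (P := mI A)
    (IsNoetherian.noetherian _) le_rfl hun
  have h1 : r * y ∈ fI c (actT A0 c) := hr2 (Submodule.smul_mem_pointwise_smul _ _ _ hyA)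
  have h2 := hev r h1
  rw [mem_mI, map_sub, h2, map_one, zero_sub] at hr1
  exact one_ne_zero (neg_eq_zero.mp hr1)

end

end Pool.Agent.Y217
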