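import Pool.Agent.Y217.Base

/-!
Polynomials whose monomials have degree divisible by `e`.
-/

open MvPolynomial

namespace Pool.Agent.Y217

open Pool.Agent.Helper819 Pool.Agent.Helper819.Apolar Pool.Agent.Helper819.Dyn

noncomputable section

section cd

variable {σ k : Type} [Field k] {e : ℕ}

/-- all monomials have degree divisible by `e` -/
def Cd (e : ℕ) (p : MvPolynomial σ k) : Prop := ∀ m, coeff m p ≠ 0 → e ∣ m.degree

theorem Cd.zero : Cd e (0 : MvPolynomial σ k) := by
  intro m hm
  simp at hm

theorem Cd.C (a : k) : Cd e (C a : MvPolynomial σ k) := by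
  classical
  intro m hm
  rw [coeff_C] at hm
  split_ifs at hm with h
  · rw [← h]; simp
  · exact absurd rfl hm

theorem Cd.one : Cd e (1 : MvPolynomial σ k) := by
  have := Cd.C (σ := σ) (e := e) (1 : k)
  rwa [C_1] at this

theorem Cd.add {p q : MvPolynomial σ k} (hp : Cd e p) (hq : Cd e q) : Cd e (p + q) := by
  intro m hm
  rw [coeff_add] at hm
  by_cases h : coeff m p = 0
  · apply hq
    rw [h, zero_add] at hm
    exact hm
  · exact hp m h

theorem Cd.mul {p q : MvPolynomial σ k} (hp : Cd e p) (hq : Cd e q) : Cd e (p * q) := by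
  classical
  intro m hm
  rw [coeff_mul] at hm
  obtain ⟨x, hx, hne⟩ := Finset.exists_ne_zero_of_sum_ne_zero hm
  rw [Finset.HasAntidiagonal.mem_antidiagonal] at hx
  rw [← hx, map_add]
  exact dvd_add (hp _ (left_ne_zero_of_mul hne)) (hq _ (right_ne_zero_of_mul hne))

theorem Cd.neg {p : MvPolynomial σ k} (hp : Cd e p) : Cd e (-p) := by
  intro m hm
  rw [coeff_neg, neg_ne_zero] at hm
  exact hp m hm

theorem Cd.sub {p q : MvPolynomial σ k} (hp : Cd e p) (hq : Cd e q) : Cd e (p - q) := by
  rw [sub_eq_add_neg]
  exact hp.add hq.neg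

theorem Cd.pow {p : MvPolynomial σ k} (hp : Cd e p) (m : ℕ) : Cd e (p ^ m) := by
  induction m with
  | zero => rw [pow_zero]; exact Cd.one
  | succ m ih => rw [pow_succ]; exact ih.mul hp

theorem Cd.sum {ι : Type} (s : Finset ι) {p : ι → MvPolynomial σ k}
    (hp : ∀ i ∈ s, Cd e (p i)) : Cd e (∑ i ∈ s, p i) := by
  classical
  induction s using Finset.induction_on with
  | empty => rw [Finset.sum_empty]; exact Cd.zero
  | insert a s ha ih =>
    rw [Finset.sum_insert ha]
    exact (hp a (Finset.mem_insert_self a s)).add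
      (ih fun i hi => hp i (Finset.mem_insert_of_mem hi))

theorem Cd.of_homog {p : MvPolynomial σ k} {j : ℕ} (hp : p.IsHomogeneous j) (hj : e ∣ j) :
    Cd e p := by
  intro m hm
  have h1 : m.degree = j := by
    by_contra hne
    exact hm (hp.coeff_eq_zero hne)
  rwa [h1]

theorem Cd.aeval {τ : Type} {z : τ → MvPolynomial σ k} (hz : ∀ i, Cd e (z i))
    (P : MvPolynomial τ k) : Cd e (aeval z P) := by
  induction P using MvPolynomial.induction_on with
  | C a => rw [algHom_C]; exact Cd.C a
  | add p q hp hq => rw [map_add]; exact hp.add hq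
  | mul_X p i hp => rw [map_mul, aeval_X]; exact hp.mul (hz i)

theorem Cd.eval {p : MvPolynomial σ k} (hp : Cd e p) {ζ : k} (hζ : ζ ^ e = 1) (x : σ → k) :
    eval (ζ • x) p = eval x p := by
  rw [eval_eq, eval_eq]
  refine Finset.sum_congr rfl fun m hm => ?_
  obtain ⟨t, ht⟩ := hp m (mem_support_iff.mp hm)
  simp only [Pi.smul_apply, smul_eq_mul, mul_pow]
  rw [Finset.prod_mul_distrib, Finset.prod_pow_eq_pow_sum]
  have h1 : ∑ i ∈ m.support, m i = m.degree := rfl
  rw [h1, ht, pow_mul, hζ, one_pow, one_mul]

/-- projection to `Cd` -/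
def prE (e : ℕ) (p : MvPolynomial σ k) : MvPolynomial σ k :=
  ∑ m ∈ p.support.filter (fun m => e ∣ m.degree), monomial m (coeff m p)

theorem coeff_prE (p : MvPolynomial σ k) (m : σ →₀ ℕ) :
    coeff m (prE e p) = if e ∣ m.degree then coeff m p else 0 := by
  classical
  unfold prE
  rw [coeff_sum]
  simp only [coeff_monomial]
  rw [Finset.sum_ite_eq']
  by_cases h : e ∣ m.degree
  · rw [if_pos h]
    by_cases h2 : coeff m p = 0
    · rw [h2, ite_self]
    · rw [if_pos]
      rw [Finset.mem_filter, mem_support_iff]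
      exact ⟨h2, h⟩
  · rw [if_neg h, if_neg]
    rw [Finset.mem_filter]
    exact fun h2 => h h2.2

theorem Cd_prE (p : MvPolynomial σ k) : Cd e (prE e p) := by
  intro m hm
  rw [coeff_prE] at hm
  split_ifs at hm with h
  · exact h
  · exact absurd rfl hm

theorem prE_of_Cd {p : MvPolynomial σ k} (hp : Cd e p) : prE e p = p := by
  ext m
  rw [coeff_prE]
  split_ifs with h
  · rfl
  · by_contra hne
    exact h (hp m (Ne.symm hne))

theorem prE_mul (q : MvPolynomial σ k) {p : MvPolynomial σ k} (hp : Cd e p) :
    prE e (q * p) = prE e q * p := by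
  classical
  ext m
  rw [coeff_prE, coeff_mul, coeff_mul]
  by_cases h : e ∣ m.degree
  · rw [if_pos h]
    refine Finset.sum_congr rfl fun x hx => ?_
    rw [Finset.HasAntidiagonal.mem_antidiagonal] at hx
    by_cases h2 : coeff x.2 p = 0
    · rw [h2, mul_zero, mul_zero]
    · rw [coeff_prE, if_pos]
      have h3 := hp _ h2
      rw [← hx, map_add] at h
      exact (Nat.dvd_add_left h3).mp h
  · rw [if_neg h]
    symm
    apply Finset.sum_eq_zero
    intro x hx
    rw [Finset.HasAntidiagonal.mem_antidiagonal] at hx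
    by_cases h2 : coeff x.2 p = 0
    · rw [h2, mul_zero]
    · rw [coeff_prE, if_neg, zero_mul]
      intro h3
      apply h
      rw [← hx, map_add]
      exact dvd_add h3 (hp _ h2)

theorem prE_add (p q : MvPolynomial σ k) : prE e (p + q) = prE e p + prE e q := by
  ext m
  rw [coeff_add, coeff_prE, coeff_prE, coeff_prE, coeff_add]
  split_ifs <;> simp

theorem prE_zero : prE e (0 : MvPolynomial σ k) = 0 := by
  ext m
  rw [coeff_prE]
  simp

theorem prE_sum {ι : Type} (s : Finset ι) (p : ι → MvPolynomial σ k) :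
    prE e (∑ i ∈ s, p i) = ∑ i ∈ s, prE e (p i) := by
  classical
  induction s using Finset.induction_on with
  | empty => rw [Finset.sum_empty, Finset.sum_empty, prE_zero]
  | insert a s ha ih => rw [Finset.sum_insert ha, Finset.sum_insert ha, prE_add, ih]

/-- first order Taylor expansion -/
theorem taylor_one [Fintype σ] (x : σ → k) (I : Ideal (MvPolynomial σ k))
    (hI : ∀ p, X p - C (x p) ∈ I) (p : MvPolynomial σ k) :
    p - C (MvPolynomial.eval x p) -
      ∑ i, C (MvPolynomial.eval x (pderiv i p)) * (X i - C (x i)) ∈ I * I := by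
  classical
  induction p using MvPolynomial.induction_on with
  | C a => simp
  | add p q hp hq =>
    have := Ideal.add_mem _ hp hq
    convert this using 1
    simp only [map_add, add_mul, Finset.sum_add_distrib]
    ring
  | mul_X p l hp =>
    have h1 : ∑ i, C (MvPolynomial.eval x (pderiv i (p * X l))) * (X i - C (x i)) =
        C (x l) * (∑ i, C (MvPolynomial.eval x (pderiv i p)) * (X i - C (x i))) +
        C (MvPolynomial.eval x p) * (X l - C (x l)) := by
      rw [Finset.mul_sum]
      have h2 : ∀ i, C (MvPolynomial.eval x (pderiv i (p * X l))) * (X i - C (x i)) =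
          C (x l) * (C (MvPolynomial.eval x (pderiv i p)) * (X i - C (x i))) +
          (if i = l then C (MvPolynomial.eval x p) * (X i - C (x i)) else 0) := by
        intro i
        rw [Derivation.leibniz, smul_eq_mul, smul_eq_mul]
        by_cases hi : i = l
        · subst hi
          rw [pderiv_X_self, if_pos rfl]
          simp only [map_add, map_mul, eval_X, map_one, mul_one]
          ring
        · rw [pderiv_X_of_ne (fun h => hi h.symm), if_neg hi]
          simp only [map_add, map_mul, eval_X, map_zero, mul_zero]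
          ring
      rw [Finset.sum_congr rfl fun i _ => h2 i, Finset.sum_add_distrib, Finset.sum_ite_eq',
        if_pos (Finset.mem_univ l)]
    rw [h1]
    have h3 : (∑ i, C (MvPolynomial.eval x (pderiv i p)) * (X i - C (x i))) ∈ I :=
      Ideal.sum_mem _ fun i _ => Ideal.mul_mem_left _ _ (hI i)
    have h4 := Ideal.mul_mem_mul h3 (hI l)
    have h5 := Ideal.mul_mem_left (I * I) (X l) hp
    have h6 := Ideal.add_mem _ h4 h5
    convert h6 using 1
    simp only [map_mul, eval_X]
    ring

end cd

end

end Pool.Agent.Y217
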