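import Pool.Agent.Y217.Dim

/-!
Consequences of regularity of a local ring.
-/

open MvPolynomial

namespace Pool.Agent.Y217

noncomputable section

open Pool.Agent.Helper819

variable {k : Type} [Field k] {R : Type} [CommRing R] [Algebra k R]

/-- generators of the maximal ideal -/
theorem reg_gens (𝔭 : Ideal R) [𝔭.IsPrime] (e : ℕ)
    (hN : IsNoetherianRing (Localization.AtPrime 𝔭))
    (he : (IsLocalRing.maximalIdeal (Localization.AtPrime 𝔭)).spanFinrank = e) :
    ∃ b : Fin e → R, (∀ i, b i ∈ 𝔭) ∧ ∀ h ∈ 𝔭, ∃ s ∉ 𝔭, ∃ a : Fin e → R,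
      s * h = ∑ i, a i * b i := by
  classical
  let L := Localization.AtPrime 𝔭
  have hfg : (IsLocalRing.maximalIdeal L).FG := IsNoetherian.noetherian _
  obtain ⟨S, hS1, hS2⟩ := Submodule.FG.exists_span_finset_card_eq_spanFinrank hfg
  rw [he] at hS1
  let eq : S ≃ Fin e := S.equivFinOfCardEq hS1
  let y : Fin e → L := fun i => (eq.symm i : L)
  have hyS : Set.range y = S := by
    ext z
    constructor
    · rintro ⟨i, rfl⟩
      exact (eq.symm i).2
    · intro hz
      exact ⟨eq ⟨z, hz⟩, by simp [y]⟩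
  have hy : Ideal.span (Set.range y) = IsLocalRing.maximalIdeal L := by
    rw [hyS]
    exact hS2
  have hym : ∀ i, y i ∈ IsLocalRing.maximalIdeal L := by
    intro i
    rw [← hy]
    exact Ideal.subset_span ⟨i, rfl⟩
  choose b s hbs using fun i => IsLocalization.exists_mk'_eq 𝔭.primeCompl (y i)
  have hb : ∀ i, b i ∈ 𝔭 := by
    intro i
    have h1 := hym i
    rw [← hbs i, IsLocalization.AtPrime.mk'_mem_maximal_iff (S := L) (I := 𝔭)] at h1
    exact h1
  refine ⟨b, hb, fun h hh => ?_⟩
  have h1 : algebraMap R L h ∈ IsLocalRing.maximalIdeal L := by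
    rw [IsLocalization.AtPrime.to_map_mem_maximal_iff L 𝔭]
    exact hh
  rw [← hy, Ideal.mem_span_range_iff_exists_fun] at h1
  obtain ⟨c, hc⟩ := h1
  let c' : Fin e → L := fun i => c i * IsLocalization.mk' L 1 (s i)
  have hc' : ∑ i, c' i * algebraMap R L (b i) = algebraMap R L h := by
    rw [← hc]
    refine Finset.sum_congr rfl fun i _ => ?_
    rw [← hbs i]
    change c i * IsLocalization.mk' L 1 (s i) * algebraMap R L (b i) = _
    rw [mul_assoc]
    congr 1
    rw [mul_comm, IsLocalization.mul_mk'_eq_mk'_of_mul, mul_one]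
  obtain ⟨u, hu⟩ := IsLocalization.exist_integer_multiples_of_finite 𝔭.primeCompl c'
  choose a ha using hu
  have h2 : algebraMap R L ((u : R) * h) = algebraMap R L (∑ i, a i * b i) := by
    rw [map_mul, ← hc', map_sum, Finset.mul_sum]
    refine Finset.sum_congr rfl fun i _ => ?_
    rw [map_mul, ha i, Algebra.smul_def]
    exact (mul_assoc _ _ _).symm
  obtain ⟨v, hv⟩ := IsLocalization.exists_of_eq (M := 𝔭.primeCompl) h2
  refine ⟨v * u, ?_, fun i => v * a i, ?_⟩
  · exact (v * u).2
  · rw [mul_assoc, hv, Finset.mul_sum]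
    exact Finset.sum_congr rfl fun i _ => (mul_assoc _ _ _).symm

/-- algebraically independent elements -/
theorem reg_indep (𝔭 : Ideal R) [𝔭.IsPrime] (e : ℕ)
    (he : (e : WithBot ℕ∞) ≤ ringKrullDim (Localization.AtPrime 𝔭)) :
    ∃ y : Fin e → R, ∀ f : MvPolynomial (Fin e) k, aeval y f = 0 → f = 0 := by
  let L := Localization.AtPrime 𝔭
  obtain ⟨l, hl⟩ := Order.le_krullDim_iff.mp he
  subst hl
  let P : Fin (l.length + 1) → PrimeSpectrum R := fun i =>
    PrimeSpectrum.comap (algebraMap R L) (l.toFun i)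
  have hmono : Monotone (PrimeSpectrum.comap (algebraMap R L)) := by
    intro a b hab
    exact Ideal.comap_mono hab
  have hP : StrictMono P :=
    (hmono.strictMono_of_injective (PrimeSpectrum.localization_comap_injective L
      𝔭.primeCompl)).comp l.strictMono
  obtain ⟨x, hx⟩ := Zar.exists_indep (k := k) l.length P hP
  refine ⟨x, fun f hf => hx f ?_⟩
  rw [hf]
  exact Ideal.zero_mem _

end

end Pool.Agent.Y217
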