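import Pool.Agent.Y217.Tang

/-!
Semi-invariants whose differentials cut out the tangent space of a free orbit.
-/

open MvPolynomial

namespace Pool.Agent.Y217

open Pool.Agent.Helper819 Pool.Agent.Helper819.Apolar Pool.Agent.Helper819.Dyn

noncomputable section

variable {k : Type} [Field k] [IsAlgClosed k] [CharZero k] {N d : ℕ} {D : SS k N d} {w : ℕ}

theorem qq_add (c v : Ix N d → k) (P Q : SS k N d) : qq c v (P + Q) = qq c v P + qq c v Q := by
  unfold qq
  simp only [map_add, mul_add, Finset.sum_add_distrib]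

theorem qq_mul (c v : Ix N d → k) (P Q : SS k N d) :
    qq c v (P * Q) = aeval (orb c) P * qq c v Q + aeval (orb c) Q * qq c v P := by
  unfold qq
  rw [Finset.mul_sum, Finset.mul_sum, ← Finset.sum_add_distrib]
  refine Finset.sum_congr rfl fun p _ => ?_
  rw [Derivation.leibniz, smul_eq_mul, smul_eq_mul, map_add, map_mul, map_mul]
  ring

theorem qq_mul_van (c v : Ix N d → k) (Q : SS k N d) {P : SS k N d} (hP : P ∈ van (GO c)) :
    qq c v (Q * P) = aeval (orb c) Q * qq c v P := by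
  have hinf : Infinite k := inferInstance
  rw [qq_mul, (mem_van_GO c P).mp hP, zero_mul, add_zero]

theorem Cd_qq (c v : Ix N d → k) (P : SS k N d) : Cd (N + d) (qq c v P) := by
  have hinf : Infinite k := inferInstance
  unfold qq
  exact Cd.sum _ fun p _ => (Cd_orb v p).mul (Cd_aeval_orb c _)

/-- the normalized power of the resultant -/
theorem norm_pow (hD : Dyn.IsSemi w D) {c : Ix N d → k} (hDc : eval c D ≠ 0) (m : ℕ) :
    aeval (orb c) ((C (eval c D)⁻¹ * D) ^ m) = dt (N + 1) k ^ (w * m) := by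
  have hinf : Infinite k := inferInstance
  rw [map_pow, map_mul, algHom_C, semi_orb hD c, MvPolynomial.algebraMap_eq,
    ← mul_assoc, ← C_mul, inv_mul_cancel₀ hDc, C_1, one_mul, pow_mul]

/-- `y` times a power of the determinant is a derivative -/
def EE (w : ℕ) (c v : Ix N d → k) (y : KA k N) : Prop :=
  ∃ (m : ℕ) (P : SS k N d), P ∈ van (GO c) ∧ dt (N + 1) k ^ (w * m) * y = qq c v P

theorem EE_add (hD : Dyn.IsSemi w D) {c v : Ix N d → k} (hDc : eval c D ≠ 0) {y z : KA k N}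
    (hy : EE w c v y) (hz : EE w c v z) : EE w c v (y + z) := by
  obtain ⟨m, P, hP, h1⟩ := hy
  obtain ⟨m', P', hP', h2⟩ := hz
  refine ⟨m + m', (C (eval c D)⁻¹ * D) ^ m' * P + (C (eval c D)⁻¹ * D) ^ m * P', ?_, ?_⟩
  · exact Ideal.add_mem _ (Ideal.mul_mem_left _ _ hP) (Ideal.mul_mem_left _ _ hP')
  · rw [qq_add, qq_mul_van c v _ hP, qq_mul_van c v _ hP', norm_pow hD hDc, norm_pow hD hDc,
      ← h1, ← h2, mul_add w, pow_add]
    ring

theorem EE_mul (hd : 2 ≤ d) (hw : 0 < w) (hD : Dyn.IsSemi w D)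
    (hDN : ∀ c, eval c D ≠ 0 ↔ NZ (tup c)) {c : Ix N d → k}
    (hc : NZ (tup c)) (hst : Free c) {v : Ix N d → k} {a y : KA k N} (ha : Cd (N + d) a)
    (hy : EE w c v y) : EE w c v (a * y) := by
  obtain ⟨m, P, hP, h1⟩ := hy
  obtain ⟨m', Q, h2⟩ := lemQ hd hw hD hDN hc hst ha
  refine ⟨m + m', Q * P, Ideal.mul_mem_left _ _ hP, ?_⟩
  rw [qq_mul_van c v _ hP, ← h1, ← h2, mul_add w, pow_add]
  ring

theorem exists_dt_mem (c v : Ix N d → k) (hv : ∀ Z, xi Z c ≠ v) :
    ∃ m : ℕ, dt (N + 1) k ^ m ∈ Ideal.span {y | ∃ P ∈ van (GO c), y = qq c v P} := by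
  suffices h : dt (N + 1) k ∈ (Ideal.span {y | ∃ P ∈ van (GO c), y = qq c v P}).radical by
    obtain ⟨m, hm⟩ := h
    exact ⟨m, hm⟩
  rw [← vanishingIdeal_zeroLocus_eq_radical (K := k), mem_vanishingIdeal_iff]
  intro x hx
  obtain ⟨A, rfl⟩ := ent_surj x
  have h0 : aeval (ent A) (dt (N + 1) k) = eval (ent A) (dt (N + 1) k) := by
    rw [← coe_aeval_eq_eval]
    rfl
  rw [h0, eval_dt]
  by_contra hA
  have hAu : IsUnit A.det := isUnit_iff_ne_zero.mpr hA
  obtain ⟨Z, hZ⟩ := tangent c v (by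
    intro P hP
    have h1 : compT A (compT A⁻¹ P) = P := by
      have hinf : Infinite k := inferInstance
      apply MvPolynomial.funext
      intro x
      rw [eval_compT, eval_compT, actT_actT, Matrix.mul_nonsing_inv _ hAu, actT_one]
    have h2 : compT A⁻¹ P ∈ van (GO c) := by
      apply compT_mem_van c hP
      rw [Matrix.det_nonsing_inv, Ring.inverse_eq_inv']
      exact inv_ne_zero hA
    have h3 := (mem_zeroLocus_iff.mp hx) _ (Ideal.subset_span ⟨_, h2, rfl⟩)
    have h4 : aeval (ent A) (qq c v (compT A⁻¹ P)) = eval (ent A) (qq c v (compT A⁻¹ P)) := by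
      rw [← coe_aeval_eq_eval]
      rfl
    rw [h4, eval_qq, ← dd_compT, h1] at h3
    exact h3)
  exact hv Z hZ

/-- A semi-invariant, of weight divisible by that of the resultant, which vanishes on a free orbit
and whose differential does not vanish on a vector which is not tangent to the orbit. -/
theorem exists_semi_diff (hd : 2 ≤ d) (hw : 0 < w) (hD : Dyn.IsSemi w D)
    (hDN : ∀ c, eval c D ≠ 0 ↔ NZ (tup c)) {c : Ix N d → k}
    (hc : NZ (tup c)) (hst : Free c) (v : Ix N d → k) (hv : ∀ Z, xi Z c ≠ v) :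
    ∃ (m : ℕ) (P : SS k N d), Dyn.IsSemi (w * m) P ∧ eval c P = 0 ∧ dd P c v ≠ 0 := by
  have hinf : Infinite k := inferInstance
  have hDc := (hDN c).mpr hc
  obtain ⟨m, hm⟩ := exists_dt_mem c v hv
  have key : ∀ y ∈ Ideal.span {y | ∃ P ∈ van (GO c), y = qq c v P},
      ∀ a : KA k N, EE w c v (prE (N + d) (a * y)) := by
    intro y hy
    induction hy using Submodule.span_induction with
    | mem y hy =>
      obtain ⟨P, hP, rfl⟩ := hy
      intro a
      rw [prE_mul _ (Cd_qq c v P)]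
      apply EE_mul hd hw hD hDN hc hst (Cd_prE _)
      exact ⟨0, P, hP, by rw [mul_zero, pow_zero, one_mul]⟩
    | zero =>
      intro a
      rw [mul_zero, prE_zero]
      exact ⟨0, 0, Ideal.zero_mem _, by unfold qq; simp⟩
    | add y z _ _ hy hz =>
      intro a
      rw [mul_add, prE_add]
      exact EE_add hD hDc (hy a) (hz a)
    | smul b y _ hy =>
      intro a
      rw [smul_eq_mul, ← mul_assoc]
      exact hy _
  have h1 := key _ hm (dt (N + 1) k ^ ((w - 1) * m))
  have h2 : dt (N + 1) k ^ ((w - 1) * m) * dt (N + 1) k ^ m = (dt (N + 1) k ^ w) ^ m := by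
    rw [← pow_add, ← pow_mul]
    congr 1
    obtain ⟨w', rfl⟩ := Nat.exists_eq_add_of_lt hw
    rw [show 0 + w' + 1 - 1 = w' by omega]
    ring
  rw [h2, prE_of_Cd ((Cd_dt hD hDc).pow m)] at h1
  obtain ⟨m', P, hP, h3⟩ := h1
  refine ⟨m' + m, sharp (w * (m' + m)) P, isSemi_sharp _ P, ?_, ?_⟩
  · rw [eval_sharp, (mem_van_GO c P).mp hP, rho_zero]
  · rw [dd_sharp, ← h3, ← pow_mul, ← pow_add, ← mul_add, rho_dt]
    exact one_ne_zero

end

end Pool.Agent.Y217
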