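import Pool.Agent.Y217.Defs
import Pool.Agent.Y217.SDiff

/-!
Elements of the coordinate ring as quotients of semi-invariants by powers of the resultant.
-/

open MvPolynomial

namespace Pool.Agent.Y217

open Pool.Agent.Helper819 Pool.Agent.Helper819.Apolar Pool.Agent.Helper819.Dyn

noncomputable section

variable {k : Type} [Field k] [IsAlgClosed k] {N d : ℕ}

/-- the endomorphism with given coefficients -/
def mkE (c : Ix N d → k) (hc : NZ (tup c)) : EndTuple k N d :=
  ⟨tup c, (isEnd_iff_NZ _).mpr ⟨tup_homog c, hc⟩⟩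

theorem exists_mkE (F : EndTuple k N d) : ∃ (c : Ix N d → k) (hc : NZ (tup c)), F = mkE c hc := by
  have h1 : tup (cf (d := d) F.1) = F.1 := tup_cf F.2.1
  have h2 : NZ (tup (cf (d := d) F.1)) := by
    rw [h1]
    exact ((isEnd_iff_NZ F.1).mp F.2).2
  exact ⟨cf F.1, h2, Subtype.ext h1.symm⟩

theorem NZ_actT {c : Ix N d → k} (hc : NZ (tup c)) {A : Matrix (Fin (N + 1)) (Fin (N + 1)) k}
    (hA : A.det ≠ 0) : NZ (tup (actT A c)) := by
  rw [tup_actT]
  exact NZ_act hc A hA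

theorem cls_mkE_iff (hNd : 0 < N + d) {c c' : Ix N d → k} (hc : NZ (tup c)) (hc' : NZ (tup c')) :
    cls (mkE c hc) = cls (mkE c' hc') ↔
      ∃ A : Matrix (Fin (N + 1)) (Fin (N + 1)) k, A.det ≠ 0 ∧ actT A c = c' := by
  rw [cls_eq_iff hNd]
  constructor
  · rintro ⟨A, hA, h⟩
    refine ⟨A, hA, ?_⟩
    have h1 : tup c' = act A (tup c) := congrArg Subtype.val h
    rw [← cf_tup c', h1]
    rfl
  · rintro ⟨A, hA, rfl⟩
    exact ⟨A, hA, Subtype.ext (tup_actT A c)⟩

theorem cls_actT (hNd : 0 < N + d) {c : Ix N d → k} (hc : NZ (tup c))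
    {A : Matrix (Fin (N + 1)) (Fin (N + 1)) k} (hA : A.det ≠ 0) :
    cls (mkE (actT A c) (NZ_actT hc hA)) = cls (mkE c hc) :=
  ((cls_mkE_iff hNd hc _).mpr ⟨A, hA, rfl⟩).symm

/-- conversion of polynomials in the coefficients -/
def pull (k : Type) [Field k] (N d : ℕ) :
    MvPolynomial (Fin (N + 1) × (Fin (N + 1) →₀ ℕ)) k →ₐ[k] SS k N d :=
  aeval fun p => if h : p.2 ∈ Finset.finsuppAntidiag Finset.univ d then
    X (p.1, ⟨p.2, h⟩) else 0

theorem eval_pull (c : Ix N d → k) (hc : NZ (tup c))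
    (P : MvPolynomial (Fin (N + 1) × (Fin (N + 1) →₀ ℕ)) k) :
    eval c (pull k N d P) = eval (coords (mkE c hc)) P := by
  unfold pull
  rw [aeval_eq_bind₁]
  have h1 : ∀ q : Fin (N + 1) × (Fin (N + 1) →₀ ℕ) → SS k N d,
      eval c (bind₁ q P) = eval (fun i => eval c (q i)) P := fun q => eval_bind' _ _ _
  rw [h1]
  congr 2
  funext p
  change _ = coeff p.2 (tup c p.1)
  split_ifs with h
  · rw [eval_X]
    exact (coeff_tup c (p.1, ⟨p.2, h⟩)).symm
  · rw [map_zero]
    symm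
    apply (tup_homog c p.1).coeff_eq_zero
    intro h'
    exact h ((mem_Ex p.2).mpr h')

/-- conversion of polynomials in the coefficients -/
def push (k : Type) [Field k] (N d : ℕ) :
    SS k N d →ₐ[k] MvPolynomial (Fin (N + 1) × (Fin (N + 1) →₀ ℕ)) k :=
  rename fun p => (p.1, p.2.1)

theorem eval_push (c : Ix N d → k) (hc : NZ (tup c)) (P : SS k N d) :
    eval (coords (mkE c hc)) (push k N d P) = eval c P := by
  unfold push
  rw [eval_rename]
  congr 2
  funext p
  exact coeff_tup c p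

variable {D : SS k N d} {w : ℕ}

/-- `h = P / D ^ m` with `P` a semi-invariant. -/
def Rep (D : SS k N d) (w : ℕ) (h : Moduli k N d → k) (m : ℕ) (P : SS k N d) : Prop :=
  Dyn.IsSemi (w * m) P ∧ ∀ c (hc : NZ (tup c)), h (cls (mkE c hc)) * eval c D ^ m = eval c P

/-- polynomials which agree on the nondegenerate locus -/
theorem eq_of_NZ (hDN : ∀ c, eval c D ≠ 0 ↔ NZ (tup c)) (hDne : D ≠ 0) {P Q : SS k N d}
    (h : ∀ c, NZ (tup c) → eval c P = eval c Q) : P = Q := by
  have hinf : Infinite k := IsAlgClosed.instInfinite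
  have h1 : D * (P - Q) = 0 := by
    apply MvPolynomial.funext
    intro c
    rw [map_mul, map_sub, map_zero]
    by_cases hc : eval c D = 0
    · rw [hc, zero_mul]
    · rw [h c ((hDN c).mp hc), sub_self, mul_zero]
  exact sub_eq_zero.mp ((mul_eq_zero.mp h1).resolve_left hDne)

theorem Rep.unique (hDN : ∀ c, eval c D ≠ 0 ↔ NZ (tup c)) (hDne : D ≠ 0)
    {h : Moduli k N d → k} {m m' : ℕ} {P P' : SS k N d} (h1 : Rep D w h m P)
    (h2 : Rep D w h m' P') : P * D ^ m' = P' * D ^ m := by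
  apply eq_of_NZ hDN hDne
  intro c hc
  rw [map_mul, map_mul, map_pow, map_pow, ← h1.2 c hc, ← h2.2 c hc]
  ring

theorem Rep.mul {h h' : Moduli k N d → k} {m m' : ℕ} {P P' : SS k N d}
    (h1 : Rep D w h m P) (h2 : Rep D w h' m' P') : Rep D w (h * h') (m + m') (P * P') := by
  refine ⟨?_, fun c hc => ?_⟩
  · rw [mul_add]
    exact h1.1.mul h2.1
  · rw [Pi.mul_apply, map_mul, ← h1.2 c hc, ← h2.2 c hc, pow_add]
    ring

theorem semi_pow (hD : Dyn.IsSemi w D) (m : ℕ) : Dyn.IsSemi (w * m) (D ^ m) := hD.pow m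

theorem Rep.lift (hD : Dyn.IsSemi w D) {h : Moduli k N d → k} {m : ℕ} {P : SS k N d}
    (h1 : Rep D w h m P) (j : ℕ) : Rep D w h (m + j) (P * D ^ j) := by
  refine ⟨?_, fun c hc => ?_⟩
  · rw [mul_add]
    exact h1.1.mul (semi_pow hD j)
  · rw [map_mul, ← h1.2 c hc, pow_add, map_pow]
    ring

theorem Rep.add_same {h h' : Moduli k N d → k} {m : ℕ} {P P' : SS k N d}
    (h1 : Rep D w h m P) (h2 : Rep D w h' m P') : Rep D w (h + h') m (P + P') := by
  refine ⟨h1.1.add h2.1, fun c hc => ?_⟩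
  rw [Pi.add_apply, map_add, ← h1.2 c hc, ← h2.2 c hc]
  ring

theorem Rep.const (hD : Dyn.IsSemi w D) (a : k) (m : ℕ) :
    Rep D w (fun _ => a : Moduli k N d → k) m (C a * D ^ m) := by
  refine ⟨(semi_pow hD m).C_mul a, fun c hc => ?_⟩
  rw [map_mul, eval_C, map_pow]

theorem Rep.sub_same {h h' : Moduli k N d → k} {m : ℕ} {P P' : SS k N d}
    (h1 : Rep D w h m P) (h2 : Rep D w h' m P') : Rep D w (h - h') m (P - P') := by
  refine ⟨h1.1.sub h2.1, fun c hc => ?_⟩
  rw [Pi.sub_apply, map_sub, ← h1.2 c hc, ← h2.2 c hc]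
  ring

theorem Rep.sum_same {ι : Type} (s : Finset ι) {h : ι → Moduli k N d → k} {m : ℕ}
    {P : ι → SS k N d} (h1 : ∀ i ∈ s, Rep D w (h i) m (P i)) :
    Rep D w (∑ i ∈ s, h i) m (∑ i ∈ s, P i) := by
  refine ⟨Dyn.IsSemi.sum s fun i hi => (h1 i hi).1, fun c hc => ?_⟩
  rw [Finset.sum_apply, map_sum, Finset.sum_mul]
  exact Finset.sum_congr rfl fun i hi => (h1 i hi).2 c hc

theorem Rep.mem (hDN : ∀ c, eval c D ≠ 0 ↔ NZ (tup c)) {h : Moduli k N d → k} {m : ℕ}
    {P : SS k N d} (h1 : Rep D w h m P) : h ∈ coordRing k N d := by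
  refine ⟨push k N d P, push k N d (D ^ m), fun F => ?_⟩
  obtain ⟨c, hc, rfl⟩ := exists_mkE F
  rw [eval_push, eval_push, map_pow]
  have h2 : eval c D ^ m ≠ 0 := pow_ne_zero _ ((hDN c).mpr hc)
  exact ⟨h2, by rw [eq_div_iff h2, h1.2 c hc]⟩

/-- every semi-invariant of the right weight gives an element -/
theorem exists_of_semi (hNd : 0 < N + d) (hD : Dyn.IsSemi w D)
    (hDN : ∀ c, eval c D ≠ 0 ↔ NZ (tup c)) {m : ℕ}
    {P : SS k N d} (hP : Dyn.IsSemi (w * m) P) : ∃ h : coordRing k N d, Rep D w h.1 m P := by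
  have hwd : ∀ F G : EndTuple k N d, Rel k N d F G →
      eval (cf F.1) P / eval (cf F.1) D ^ m = eval (cf G.1) P / eval (cf G.1) D ^ m := by
    intro F G hFG
    obtain ⟨A, hA, rfl⟩ := (rel_iff hNd F G).mp hFG
    have h1 : cf (d := d) (actE A hA F).1 = actT A (cf F.1) := by
      change cf (act A F.1) = cf (act A (tup (cf F.1)))
      rw [tup_cf F.2.1]
    rw [h1, hP A, hD A, mul_pow, ← pow_mul, mul_div_mul_left _ _ (pow_ne_zero _ hA)]
  let h : Moduli k N d → k := Quot.lift (fun F => eval (cf F.1) P / eval (cf F.1) D ^ m) hwd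
  have h1 : Rep D w h m P := by
    refine ⟨hP, fun c hc => ?_⟩
    change eval (cf (tup c)) P / eval (cf (tup c)) D ^ m * _ = _
    rw [cf_tup, div_mul_cancel₀]
    exact pow_ne_zero _ ((hDN c).mpr hc)
  exact ⟨⟨h, h1.mem hDN⟩, h1⟩

/-- every element of the coordinate ring is of this form -/
theorem exists_rep [CharZero k] (hNd : 0 < N + d) (hD : Dyn.IsSemi w D)
    (hDN : ∀ c, eval c D ≠ 0 ↔ NZ (tup c)) (hDne : D ≠ 0) (h : coordRing k N d) :
    ∃ (m : ℕ) (P : SS k N d), Rep D w h.1 m P := by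
  have hinf : Infinite k := inferInstance
  obtain ⟨P0, Q0, h0⟩ := h.2
  let P := pull k N d P0
  let Q := pull k N d Q0
  have hQ : ∀ c, NZ (tup c) → eval c Q ≠ 0 := by
    intro c hc
    change eval c (pull k N d Q0) ≠ 0
    rw [eval_pull c hc]
    exact (h0 _).1
  have hv : ∀ c (hc : NZ (tup c)), h.1 (cls (mkE c hc)) * eval c Q = eval c P := by
    intro c hc
    rw [(h0 (mkE c hc)).2, div_mul_eq_mul_div, div_eq_iff (h0 _).1]
    change _ * eval c (pull k N d Q0) = eval c (pull k N d P0) * _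
    rw [eval_pull c hc, eval_pull c hc]
  have hrad : D ∈ (Ideal.span {Q} : Ideal (SS k N d)).radical := by
    rw [← vanishingIdeal_zeroLocus_eq_radical (K := k), mem_vanishingIdeal_iff]
    intro c hc
    have hcQ : eval c Q = 0 := by
      have h3 := (mem_zeroLocus_iff.mp hc) Q (Ideal.subset_span rfl)
      rw [← coe_aeval_eq_eval]
      exact h3
    have h4 : aeval c D = eval c D := by
      rw [← coe_aeval_eq_eval]
      rfl
    rw [h4]
    by_contra hne
    exact hQ c ((hDN c).mp hne) hcQ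
  obtain ⟨m, hm⟩ := hrad
  obtain ⟨t, ht⟩ := Ideal.mem_span_singleton.mp hm
  have hval : ∀ c (hc : NZ (tup c)), h.1 (cls (mkE c hc)) * eval c D ^ m = eval c (P * t) := by
    intro c hc
    rw [← map_pow, ht, map_mul, map_mul, ← hv c hc]
    ring
  refine ⟨m, P * t, ?_, hval⟩
  have h1 : ∀ (A : Matrix (Fin (N + 1)) (Fin (N + 1)) k), A.det ≠ 0 → ∀ c,
      eval (actT A c) (P * t) = A.det ^ (w * m) * eval c (P * t) := by
    intro A hA c
    have h2 : compT A (P * t) = C (A.det ^ (w * m)) * (P * t) := by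
      apply eq_of_NZ hDN hDne
      intro c hc
      rw [eval_compT, map_mul (eval c), eval_C, ← hval c hc, ← hval _ (NZ_actT hc hA),
        cls_actT hNd hc hA, hD A, mul_pow, ← pow_mul]
      ring
    rw [← eval_compT, h2, map_mul (eval c), eval_C]
  intro A c
  have h3 : aeval (orb c) (P * t) = C (eval c (P * t)) * dt (N + 1) k ^ (w * m) := by
    apply poly_ext
    intro A hA
    rw [eval_aeval_orb, h1 A hA, map_mul (eval (ent A)), eval_C, map_pow, eval_dt, mul_comm]
  rw [← eval_aeval_orb, h3, map_mul (eval (ent A)), eval_C, map_pow, eval_dt, mul_comm]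

end

end Pool.Agent.Y217
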