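import Pool.Agent.Y217.Jac

/-!
A regular point has no automorphisms.
-/

open MvPolynomial

namespace Pool.Agent.Y217

open Pool.Agent.Helper819 Pool.Agent.Helper819.Apolar Pool.Agent.Helper819.Dyn

noncomputable section

variable {k : Type} [Field k] [IsAlgClosed k] [CharZero k] {N d : ℕ} {D : SS k N d} {w : ℕ}

open scoped Classical in
theorem free_of_jac (hN : 2 ≤ N) (hd : 2 ≤ d) (hD : Dyn.IsSemi w D)
    (hDN : ∀ c, eval c D ≠ 0 ↔ NZ (tup c)) {f : Ix N d → k} (hf : NZ (tup f))
    {e : ℕ} (u : Fin e → Ix N d → k)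
    (mb : Fin e → ℕ) (Pb : Fin e → SS k N d) (hPb : ∀ j, Dyn.IsSemi (w * mb j) (Pb j))
    (hu : ∀ v : Ix N d → k, ∃ (Z : Matrix (Fin (N + 1)) (Fin (N + 1)) k) (t : Fin e → k),
        v = xi Z f + ∑ i, t i • u i)
    (hjac : eval f (JM D u mb Pb).det ≠ 0) : Free f := by
  have hinf : Infinite k := inferInstance
  by_contra hnf
  obtain ⟨l, hl, hlne, B, hB, y, hy, hBy⟩ := exists_family hd hf hnf
  have hBu : IsUnit B.det := isUnit_iff_ne_zero.mpr hB
  let A : Matrix (Fin (N + 1)) (Fin (N + 1)) k := B⁻¹ * Matrix.diagonal l * B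
  have hAz : ∀ z : Ix N d → k, actT A (actT B z) = actT B (actT (Matrix.diagonal l) z) := by
    intro z
    change actT (B⁻¹ * Matrix.diagonal l * B) (actT B z) = _
    rw [actT_actT, actT_actT, ← mul_assoc, ← mul_assoc, Matrix.mul_nonsing_inv _ hBu, one_mul]
  have hAf : actT A f = f := by
    rw [← hBy, hAz, hy]
  have hDf : eval f D ≠ 0 := (hDN f).mpr hf
  have hAw : A.det ^ w = 1 := by
    have h1 := hD A f
    rw [hAf] at h1
    exact mul_right_cancel₀ hDf (by rw [one_mul]; exact h1.symm)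
  -- invariance of the differentials
  have hinv : ∀ j v, ∑ p, (actT A v) p * eval f (om D (Pb j) (mb j) p) =
      ∑ p, v p * eval f (om D (Pb j) (mb j) p) := by
    intro j v
    rw [eval_om, eval_om]
    have h1 := semi_equiv (hPb j) A f v
    have h2 := semi_equiv hD A f v
    rw [hAf] at h1 h2
    rw [h1, h2, hAw, pow_mul, hAw, one_pow, one_mul, one_mul]
  have htan : ∀ v, ∃ Z, xi Z f = actT A v - v := by
    intro v
    obtain ⟨Z, t, h1⟩ := hu (actT A v - v)
    have h2 : ∀ j, ∑ p, (actT A v - v) p * eval f (om D (Pb j) (mb j) p) = 0 := by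
      intro j
      simp only [Pi.sub_apply, sub_mul, Finset.sum_sub_distrib]
      rw [hinv j v, sub_self]
    have h3 : Matrix.vecMul t ((JM D u mb Pb).map (eval f)) = 0 := by
      funext j
      rw [eval_JM, Pi.zero_apply]
      have h4 := h2 j
      rw [h1] at h4
      simp only [Pi.add_apply, add_mul, Finset.sum_add_distrib] at h4
      rw [om_xi hD (hPb j), zero_add] at h4
      exact h4
    have h4 : t = 0 := by
      rw [RingHom.map_det, RingHom.mapMatrix_apply] at hjac
      exact Matrix.eq_zero_of_vecMul_eq_zero hjac h3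
    refine ⟨Z, ?_⟩
    rw [h1, h4]
    simp
  have hrange : ∀ z, actT (Matrix.diagonal l) z - z ∈ LinearMap.range (xiL y) := by
    intro z
    obtain ⟨Z, hZ⟩ := htan (actT B z)
    refine ⟨B * Z * B⁻¹, ?_⟩
    change xi (B * Z * B⁻¹) y = _
    apply actT_inv_cancel B B⁻¹ (Matrix.mul_nonsing_inv _ hBu)
    rw [xi_conj B (B * Z * B⁻¹) Z (by
      rw [mul_assoc, Matrix.nonsing_inv_mul _ hBu, mul_one]), hBy, hZ, hAz]
    have h1 : actT B (actT (Matrix.diagonal l) z) = actT B ((actT (Matrix.diagonal l) z - z) + z) := by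
      rw [sub_add_cancel]
    rw [h1, actT_add, add_sub_cancel_right]
  have htop : suppT k (TD d l) ⊔ LinearMap.range (xiL y) = ⊤ := by
    rw [eq_top_iff]
    intro z _
    rw [pi_eq_sum_univ' z]
    refine Submodule.sum_mem _ fun p _ => Submodule.smul_mem _ _ ?_
    by_cases hp : p ∈ TD d l
    · apply Submodule.mem_sup_left
      intro q hq
      rw [Pi.single_apply, if_neg]
      rintro rfl
      exact hq hp
    · apply Submodule.mem_sup_right
      have h1 := hrange (Pi.single p 1)
      have h2 : actT (Matrix.diagonal l) (Pi.single p (1 : k)) - Pi.single p 1 =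
          (evl l p - 1) • (Pi.single p (1 : k) : Ix N d → k) := by
        funext q
        rw [Pi.sub_apply, actT_diag, Pi.smul_apply, smul_eq_mul]
        by_cases hq : q = p
        · subst hq
          ring
        · rw [Pi.single_apply, if_neg hq]
          ring
      rw [h2] at h1
      rw [mem_TD] at hp
      exact (Submodule.smul_mem_iff _ (sub_ne_zero.mpr hp)).mp h1
  have h1 := dim_bound l y (suppT_fix.mpr hy)
  rw [htop, finrank_top, Module.finrank_fintype_fun_eq_card] at h1
  have h2 := comb hN hd l hlne (TD d l) (TD_inj l hl)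
  omega

/-- A point of the moduli space whose local ring is regular has no automorphisms. -/
theorem free_of_regular (hN : 2 ≤ N) (hd : 2 ≤ d) {f : Ix N d → k} (hf : NZ (tup f))
    (hreg : IsRegularLocalRing (Localization.AtPrime (ptIdeal (cls (mkE f hf))))) : Free f := by
  obtain ⟨D, w, hw, hD, hDN⟩ := exists_resultant (k := k) (N := N) (d := d) (by omega)
  have hDne : D ≠ 0 := by
    rintro rfl
    have := (hDN f).mpr hf
    rw [map_zero] at this
    exact this rfl
  have hNoe : IsNoetherianRing (Localization.AtPrime (ptIdeal (cls (mkE f hf)))) := hreg.toIsNoetherian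
  have hdim := hreg.spanFinrank_maximalIdeal
  obtain ⟨e0, he0⟩ : ∃ e0 : ℕ, (IsLocalRing.maximalIdeal
    (Localization.AtPrime (ptIdeal (cls (mkE f hf))))).spanFinrank = e0 := ⟨_, rfl⟩
  rw [he0] at hdim
  obtain ⟨b0, hb01, hb02⟩ := reg_gens (ptIdeal (cls (mkE f hf))) e0 hNoe he0
  obtain ⟨y, hy⟩ := reg_indep (k := k) (ptIdeal (cls (mkE f hf))) e0 hdim.le
  have hle := dim_le hd hD hDN hDne y hy
  obtain ⟨e, u, g, hcard, hgf, hu, hg⟩ := exists_compl hd hf
  have he : e0 ≤ e := by omega
  -- pad the generators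
  let b : Fin e → coordRing k N d := fun i => if h : (i : ℕ) < e0 then b0 ⟨i, h⟩ else 0
  have hb1 : ∀ i, b i ∈ ptIdeal (cls (mkE f hf)) := by
    intro i
    change (if h : (i : ℕ) < e0 then b0 ⟨i, h⟩ else 0) ∈ _
    split_ifs with h
    · exact hb01 _
    · exact Ideal.zero_mem _
  have hb2 : ∀ h ∈ ptIdeal (cls (mkE f hf)), ∃ s ∉ ptIdeal (cls (mkE f hf)),
      ∃ a : Fin e → coordRing k N d, s * h = ∑ j, a j * b j := by
    intro h hh
    obtain ⟨s, hs, a, ha⟩ := hb02 h hh
    refine ⟨s, hs, fun i => if h : (i : ℕ) < e0 then a ⟨i, h⟩ else 0, ?_⟩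
    rw [ha]
    refine Finset.sum_bij_ne_zero (fun i _ _ => Fin.castLE he i) (fun i _ _ => Finset.mem_univ _)
      ?_ ?_ ?_
    · intro i _ _ j _ _ hij
      exact Fin.castLE_injective he hij
    · intro j _ hj
      by_cases h : (j : ℕ) < e0
      · refine ⟨⟨j, h⟩, Finset.mem_univ _, ?_, rfl⟩
        simp only [h, dif_pos, b] at hj
        exact hj
      · simp only [h, dif_neg, not_false_eq_true, zero_mul, ne_eq, not_true_eq_false] at hj
    · intro i _ _
      simp [b]
  choose mb Pb hPb using fun j => exists_rep (by omega) hD hDN hDne (b j)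
  obtain ⟨r, hr1, hr2⟩ := nak_om (by omega) hD hDN hDne hf b mb Pb hPb hb1 hb2
  have hjac := jac_ne hN hd hw hD hDN hf u mb Pb (by rw [hr1]; exact one_ne_zero) hgf hr2 hg
  exact free_of_jac hN hd hD hDN hf u mb Pb (fun j => (hPb j).1) hu hjac

end

end Pool.Agent.Y217
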