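import Pool.Agent.Y217.LemQ4

/-!
Tangent spaces of orbits.
-/

open MvPolynomial

namespace Pool.Agent.Y217

open Pool.Agent.Helper819 Pool.Agent.Helper819.Apolar Pool.Agent.Helper819.Dyn

noncomputable section

variable {k : Type} [Field k] {N d : ℕ}

instance ess_LL : Algebra.EssFiniteType k (LL k N) := by
  have h1 : Algebra.EssFiniteType (KA k N) (LL k N) :=
    Algebra.EssFiniteType.of_isLocalization _ (nonZeroDivisors (KA k N))
  exact Algebra.EssFiniteType.comp k (KA k N) (LL k N)

/-- the orbit -/
def GO (c : Ix N d → k) : Set (Ix N d → k) :=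
  {x | ∃ A : Matrix (Fin (N + 1)) (Fin (N + 1)) k, A.det ≠ 0 ∧ actT A c = x}

theorem mem_van_GO [Infinite k] (c : Ix N d → k) (P : SS k N d) :
    P ∈ van (GO c) ↔ aeval (orb c) P = 0 := by
  rw [mem_van]
  constructor
  · intro h
    apply poly_ext
    intro A hA
    rw [eval_aeval_orb, map_zero]
    exact h _ ⟨A, hA, rfl⟩
  · rintro h _ ⟨A, _, rfl⟩
    rw [← eval_aeval_orb, h, map_zero]

theorem compT_mem_van (c : Ix N d → k) {P : SS k N d} (hP : P ∈ van (GO c))
    {A : Matrix (Fin (N + 1)) (Fin (N + 1)) k} (hA : A.det ≠ 0) : compT A P ∈ van (GO c) := by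
  rw [mem_van]
  rintro _ ⟨B, hB, rfl⟩
  rw [eval_compT, actT_actT]
  exact hP _ ⟨B * A, by rw [Matrix.det_mul]; exact mul_ne_zero hB hA, rfl⟩

/-- chain rule -/
theorem dd_compT (A : Matrix (Fin (N + 1)) (Fin (N + 1)) k) (P : SS k N d)
    (c v : Ix N d → k) : dd (compT A P) c v = dd P (actT A c) (actT A v) := by
  have h3 : actT (A.map (algebraMap k (DualNumber k))) (fun p => algebraMap k (DualNumber k) (c p) +
    DualNumber.eps * algebraMap k (DualNumber k) (v p)) =
      fun p => algebraMap k (DualNumber k) (actT A c p) +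
        DualNumber.eps * algebraMap k (DualNumber k) (actT A v p) := by
    have e1 : (fun p => algebraMap k (DualNumber k) (c p) +
        DualNumber.eps * algebraMap k (DualNumber k) (v p)) =
        (fun p => algebraMap k (DualNumber k) (c p)) +
          (DualNumber.eps : DualNumber k) • (fun p => algebraMap k (DualNumber k) (v p)) := rfl
    rw [e1, actT_add, actT_smul]
    funext p
    simp only [Pi.add_apply, Pi.smul_apply, smul_eq_mul]
    rw [map_actT, map_actT]
  have h4 := eval_eps _ (DualNumber.eps_mul_eps (R := k)) c v (compT A P)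
  rw [aeval_compT_S, h3, eval_eps _ DualNumber.eps_mul_eps] at h4
  have h5 := congrArg TrivSqZeroExt.snd h4
  rw [snd_form, snd_form] at h5
  exact h5.symm

theorem actT_inv_cancel {R : Type} [CommRing R] (M M' : Matrix (Fin (N + 1)) (Fin (N + 1)) R)
    (h : M * M' = 1) {a b : Ix N d → R} (hab : actT M a = actT M b) : a = b := by
  rw [← actT_one a, ← actT_one b, ← h, ← actT_actT, ← actT_actT, hab]

theorem qq_eq_zero [IsAlgClosed k] [CharZero k] (c v : Ix N d → k)
    (h : ∀ P ∈ van (GO c), dd P c v = 0) {P : SS k N d} (hP : P ∈ van (GO c)) :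
    qq c v P = 0 := by
  have hinf : Infinite k := inferInstance
  apply poly_ext
  intro A hA
  rw [eval_qq, map_zero, ← dd_compT]
  exact h _ (compT_mem_van c hP hA)

theorem xi_sum {R : Type} [CommRing R] (Z : Matrix (Fin (N + 1)) (Fin (N + 1)) R)
    (c : Ix N d → R) : xi Z c = ∑ i, ∑ j, Z i j • xi (Matrix.single i j 1) c := by
  have h1 : Z = ∑ i, ∑ j, Z i j • Matrix.single i j (1 : R) := by
    conv_lhs => rw [Matrix.matrix_eq_sum_single Z]
    refine Finset.sum_congr rfl fun i _ => Finset.sum_congr rfl fun j _ => ?_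
    rw [Matrix.smul_single, smul_eq_mul, mul_one]
  have h2 := congrArg (xiL c) h1
  simp only [map_sum, map_smul] at h2
  exact h2

theorem tangent [IsAlgClosed k] [CharZero k] (c v : Ix N d → k)
    (h : ∀ P ∈ van (GO c), dd P c v = 0) :
    ∃ Z : Matrix (Fin (N + 1)) (Fin (N + 1)) k, xi Z c = v := by
  have hinf : Infinite k := inferInstance
  obtain ⟨φ, h1, h2, h3⟩ := exists_dual_ext (k := k) (L := LL k N)
    (fun p => pj k N (orb c p)) (fun p => pj k N (orb v p)) (by
    intro P hP
    have e1 : aeval (fun p => pj k N (orb c p)) P = pj k N (aeval (orb c) P) :=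
      (comp_aeval_apply (orb c) (pj k N) P).symm
    rw [e1, pj_eq_zero, ← mem_van_GO] at hP
    have e2 := congrArg (pj k N) (qq_eq_zero c v h hP)
    unfold qq at e2
    rw [map_zero, map_sum] at e2
    rw [← e2]
    refine Finset.sum_congr rfl fun p _ => ?_
    rw [map_mul, comp_aeval_apply (orb c) (pj k N)])
  let M := gM k N
  have hMu : IsUnit M.det := by
    rw [isUnit_iff_ne_zero]
    change (gM k N).det ≠ 0
    rw [det_gM]
    exact det_gM_ne
  let Z : Matrix (Fin (N + 1)) (Fin (N + 1)) (LL k N) :=
    (Matrix.of fun i j => (φ (M i j)).snd) * M⁻¹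
  let e : DualNumber (LL k N) := DualNumber.eps
  have he : e * e = 0 := DualNumber.eps_mul_eps
  have hφM : M.map φ = oneEps e Z * M.map (algebraMap (LL k N) (DualNumber (LL k N))) := by
    have e1 : Z * M = Matrix.of fun i j => (φ (M i j)).snd := by
      change (Matrix.of fun i j => (φ (M i j)).snd) * M⁻¹ * M = _
      rw [mul_assoc, Matrix.nonsing_inv_mul _ hMu, mul_one]
    unfold oneEps
    rw [add_mul, one_mul, Matrix.smul_mul, ← Matrix.map_mul, e1]
    refine Matrix.ext fun i j => ?_
    rw [Matrix.map_apply, Matrix.add_apply, Matrix.smul_apply, Matrix.map_apply, Matrix.map_apply,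
      Matrix.of_apply, smul_eq_mul]
    apply TrivSqZeroExt.ext
    · rw [h1, fst_form]
    · rw [snd_form]
  have hZ : xi Z (fun p => algebraMap k (LL k N) (c p)) = fun p => algebraMap k (LL k N) (v p) := by
    apply actT_inv_cancel M M⁻¹ (Matrix.mul_nonsing_inv _ hMu)
    funext p
    have e1 := h3 p
    rw [pj_orb, pj_orb] at e1
    have e2 : φ (actT (gM k N) (fun p => algebraMap k (LL k N) (c p)) p) =
        actT (M.map φ) (fun p => φ (algebraMap k (LL k N) (c p))) p := map_actT φ _ _ p
    have e3 : (fun p => φ (algebraMap k (LL k N) (c p))) =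
        fun p => algebraMap (LL k N) (DualNumber (LL k N)) (algebraMap k (LL k N) (c p)) := by
      funext q
      rw [h2]
      rfl
    have e4 : actT (oneEps e Z) (fun p => algebraMap (LL k N) (DualNumber (LL k N))
        (algebraMap k (LL k N) (c p))) =
        (fun p => algebraMap (LL k N) (DualNumber (LL k N)) (algebraMap k (LL k N) (c p))) +
        e • (fun p => algebraMap (LL k N) (DualNumber (LL k N))
          (xi Z (fun p => algebraMap k (LL k N) (c p)) p)) := by
      funext q
      exact actT_eps e he Z (fun p => algebraMap k (LL k N) (c p)) q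
    rw [e2, hφM, ← actT_actT, e3, e4, actT_add, actT_smul] at e1
    simp only [Pi.add_apply, Pi.smul_apply, smul_eq_mul] at e1
    rw [← map_actT, ← map_actT, snd_form] at e1
    exact e1
  -- descend
  by_contra hcon
  push Not at hcon
  have hv : v ∉ LinearMap.range (xiL c) := by
    rintro ⟨Z, hZ⟩
    exact hcon Z hZ
  obtain ⟨g, hg1, hg2⟩ := Submodule.exists_le_ker_of_notMem hv
  have hg : ∀ x : Ix N d → k, g x = ∑ p, x p * g (Pi.single p 1) := by
    intro x
    conv_lhs => rw [pi_eq_sum_univ' x, map_sum]
    refine Finset.sum_congr rfl fun p _ => ?_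
    rw [map_smul, smul_eq_mul]
  have hL : ∀ W : Matrix (Fin (N + 1)) (Fin (N + 1)) (LL k N),
      ∑ p, xi W (fun p => algebraMap k (LL k N) (c p)) p *
        algebraMap k (LL k N) (g (Pi.single p 1)) = 0 := by
    intro W
    rw [xi_sum W]
    simp only [Finset.sum_apply, Pi.smul_apply, smul_eq_mul, Finset.sum_mul]
    rw [Finset.sum_comm]
    apply Finset.sum_eq_zero
    intro i _
    rw [Finset.sum_comm]
    apply Finset.sum_eq_zero
    intro j _
    have e1 : ∀ p, xi (Matrix.single i j 1) (fun p => algebraMap k (LL k N) (c p)) p =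
        algebraMap k (LL k N) (xi (Matrix.single i j 1) c p) := by
      intro p
      rw [map_xi]
      congr 1
      ext a b
      simp [Matrix.single_apply]
    have e2 : ∑ p, xi (Matrix.single i j 1) c p * g (Pi.single p 1) = 0 := by
      rw [← hg]
      exact hg2 ⟨Matrix.single i j 1, rfl⟩
    have e3 := congrArg (algebraMap k (LL k N)) e2
    rw [map_zero, map_sum] at e3
    calc _ = W i j * ∑ p, algebraMap k (LL k N) (xi (Matrix.single i j 1) c p *
          g (Pi.single p 1)) := by
          rw [Finset.mul_sum]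
          refine Finset.sum_congr rfl fun p _ => ?_
          rw [e1, map_mul]
          ring
      _ = 0 := by rw [e3, mul_zero]
  have h4 := hL Z
  rw [hZ] at h4
  apply hg1
  rw [hg]
  apply (algebraMap k (LL k N)).injective
  rw [map_zero, map_sum, ← h4]
  exact Finset.sum_congr rfl fun p _ => by rw [map_mul]

end

end Pool.Agent.Y217
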