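import Pool.Agent.Y217.Sing
import Pool.Agent.Helper819.Pt

/-!
Automorphisms as maps of projective space and stabilisers of coefficient tuples.
-/

open MvPolynomial

namespace Pool.Agent.Y217

open Pool.Agent.Helper819 Pool.Agent.Helper819.Apolar Pool.Agent.Helper819.Dyn

noncomputable section

variable {k : Type} [Field k] [IsAlgClosed k] {N d : ℕ}

theorem act_smul_mat {F : Tuple k N} (hF : ∀ i, (F i).IsHomogeneous d) (a : k)
    (M : Matrix (Fin (N + 1)) (Fin (N + 1)) k) (i : Fin (N + 1)) :
    act (a • M) F i = C (a ^ (N + d)) * act M F i := by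
  have hinf : Infinite k := IsAlgClosed.instInfinite
  apply MvPolynomial.funext
  intro P
  rw [eval_act, map_mul, eval_C, eval_act, Finset.mul_sum]
  refine Finset.sum_congr rfl fun j _ => ?_
  rw [Matrix.adjugate_smul, Matrix.smul_mulVec, eval_smul_homog (hF j)]
  simp only [Matrix.smul_apply, smul_eq_mul, Fintype.card_fin]
  simp only [Nat.add_sub_cancel]
  ring

theorem hasAut_iff (hNd : 0 < N + d) {f : Ix N d → k} (hf : NZ (tup f)) :
    HasAut (mkE f hf) ↔ ¬ Free f := by
  constructor
  · rintro ⟨φ, hφ, c, hc⟩ hfree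
    obtain ⟨M, hM⟩ : ∃ M : Matrix (Fin (N + 1)) (Fin (N + 1)) k, M = ↑φ := ⟨_, rfl⟩
    have hdet : M.det ≠ 0 := by
      rw [hM]
      exact ((Matrix.isUnit_iff_isUnit_det _).mp φ.isUnit).ne_zero
    obtain ⟨a, ha⟩ := IsAlgClosed.exists_pow_nat_eq ((M.det * (c : k))⁻¹) hNd
    have hx : M.det * (c : k) ≠ 0 := mul_ne_zero hdet c.ne_zero
    have ha0 : a ≠ 0 := by
      rintro rfl
      rw [zero_pow hNd.ne'] at ha
      exact inv_ne_zero hx ha.symm
    have h1 : act (a • M) (tup f) = tup f := by
      funext i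
      rw [act_smul_mat (tup_homog f), hM, conj_eq_act, ← hM, ha]
      have h2 : conj φ (tup f) i = C (c : k) * tup f i := congrFun hc i
      rw [h2, ← mul_assoc, ← mul_assoc, ← map_mul, ← map_mul, mul_assoc, inv_mul_cancel₀ hx,
        map_one, one_mul]
    have h3 : actT (a • M) f = f := by
      change cf (act (a • M) (tup f)) = f
      rw [h1, cf_tup]
    obtain ⟨ζ, hζ⟩ := hfree (a • M) (by
      rw [Matrix.det_smul]
      exact mul_ne_zero (pow_ne_zero _ ha0) hdet) h3
    apply hφ (a⁻¹ * ζ)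
    rw [← hM, mul_smul, ← hζ, smul_smul, inv_mul_cancel₀ ha0, one_smul]
  · intro h
    unfold Free at h
    push Not at h
    obtain ⟨A, hA, hAf, hAs⟩ := h
    have hu : IsUnit A := (Matrix.isUnit_iff_isUnit_det A).mpr (isUnit_iff_ne_zero.mpr hA)
    refine ⟨hu.unit, fun a => ?_, Units.mk0 (A.det⁻¹) (inv_ne_zero hA), ?_⟩
    · rw [IsUnit.unit_spec]
      exact hAs a
    · funext i
      have h1 : act A (tup f) i = C A.det * conj hu.unit (tup f) i := by
        have := conj_eq_act hu.unit (tup f) i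
        rwa [IsUnit.unit_spec] at this
      have h2 : act A (tup f) = tup f := by
        rw [← tup_actT, hAf]
      rw [h2] at h1
      change conj hu.unit (tup f) i = C (A.det⁻¹) * tup f i
      rw [h1, ← mul_assoc, ← map_mul, inv_mul_cancel₀ hA, map_one, one_mul]

theorem singular_of_hasAut [CharZero k] (hN : 2 ≤ N) (hd : 2 ≤ d) (F : EndTuple k N d)
    (hF : HasAut F) : IsSingularPoint (cls F) := by
  obtain ⟨f, hf, rfl⟩ := exists_mkE F
  intro hreg
  exact (hasAut_iff (by omega) hf).mp hF (free_of_regular hN hd hf hreg)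

end

end Pool.Agent.Y217
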